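import Pool.Agent.H2.PD.StmFin

/-!
Final assembly for MP_fd4632_co: the flow indices of the graph with 18 edges.
-/

set_option autoImplicit false
set_option linter.unusedVariables false

open scoped ENNReal

namespace Pool.Agent.H935.PD

open Pool.Agent.H2.PD

/-! ### Bridgeless -/

theorem cuts : ∀ b0 b1 b2 b3 b4 b5 b6 b7 b8 b9 b10 b11 : Bool,
    (xor b0 b1).toNat + ((xor b1 b2).toNat + ((xor b2 b3).toNat + ((xor b3 b4).toNat +
    ((xor b4 b5).toNat + ((xor b5 b6).toNat + ((xor b6 b7).toNat + ((xor b7 b8).toNat +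
    ((xor b8 b0).toNat + ((xor b9 b0).toNat + ((xor b10 b1).toNat + ((xor b11 b2).toNat +
    ((xor b9 b3).toNat + ((xor b10 b4).toNat + ((xor b11 b5).toNat + ((xor b9 b6).toNat +
    ((xor b10 b7).toNat + (xor b11 b8).toNat)))))))))))))))) ≠ 1 := by
  decide +kernel

theorem ite_eq (p q : Prop) [Decidable p] [Decidable q] :
    (if ¬ (p ↔ q) then 1 else 0) = (xor (decide p) (decide q)).toNat := by
  by_cases hp : p <;> by_cases hq : q <;> simp [hp, hq]

theorem bridgeless : Bridgeless tl hd := by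
  classical
  intro Z h
  rw [Set.ncard_eq_toFinset_card'] at h
  have h1 : ({e : Fin 18 | ¬ (tl e ∈ Z ↔ hd e ∈ Z)}.toFinset).card =
      ∑ e : Fin 18, (xor (decide (tl e ∈ Z)) (decide (hd e ∈ Z))).toNat := by
    rw [Set.toFinset_setOf, Finset.card_filter]
    exact Finset.sum_congr rfl fun e _ => ite_eq _ _
  have h2 := cuts (decide (0 ∈ Z)) (decide (1 ∈ Z)) (decide (2 ∈ Z)) (decide (3 ∈ Z))
    (decide (4 ∈ Z)) (decide (5 ∈ Z)) (decide (6 ∈ Z)) (decide (7 ∈ Z)) (decide (8 ∈ Z))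
    (decide (9 ∈ Z)) (decide (10 ∈ Z)) (decide (11 ∈ Z))
  apply h2
  rw [← h, h1]
  simp only [Fin.sum_univ_succ, Fin.sum_univ_zero, add_zero]
  rfl

/-! ### Norms -/

theorem pnorm_eq (p : ℝ≥0∞) (hp : 0 < p.toReal) (f : Fin 2 → ℝ) :
    pnorm p f = Np p.toReal (f 0) (f 1) := by
  unfold pnorm Np
  rw [PiLp.norm_eq_sum hp, Fin.sum_univ_two]
  rfl

theorem Np_smul (p : ℝ) (hp : 0 < p) (c x y : ℝ) (hc : 0 ≤ c) :
    Np p (c * x) (c * y) = c * Np p x y := by
  unfold Np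
  rw [abs_mul, abs_mul, abs_of_nonneg hc, Real.mul_rpow hc (abs_nonneg x),
    Real.mul_rpow hc (abs_nonneg y), ← mul_add, Real.mul_rpow (by positivity) (by positivity),
    ← Real.rpow_mul hc, mul_one_div_cancel hp.ne', Real.rpow_one]

theorem N_eq (x y : ℝ) : N x y = Np (5 / 2) x y := by
  unfold N Np
  norm_num

theorem toReal_half : ((5 / 2 : ℝ≥0∞)).toReal = 5 / 2 := by
  rw [ENNReal.toReal_div]
  norm_num

theorem one_le_Np (p : ℝ) (hp : 0 < p) (a b : ℤ) (h : a ≠ 0 ∨ b ≠ 0) : 1 ≤ Np p a b := by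
  unfold Np
  have h1 : (1 : ℝ) ≤ |(a : ℝ)| ^ p + |(b : ℝ)| ^ p := by
    rcases h with h | h
    · have h2 : (1 : ℝ) ≤ |(a : ℝ)| := by
        rw [← Int.cast_abs]
        exact_mod_cast Int.one_le_abs h
      have h3 := Real.one_le_rpow h2 hp.le
      have h4 : 0 ≤ |(b : ℝ)| ^ p := by positivity
      linarith
    · have h2 : (1 : ℝ) ≤ |(b : ℝ)| := by
        rw [← Int.cast_abs]
        exact_mod_cast Int.one_le_abs h
      have h3 := Real.one_le_rpow h2 hp.le
      have h4 : 0 ≤ |(a : ℝ)| ^ p := by positivity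
      linarith
  exact Real.one_le_rpow h1 (by positivity)

theorem Np_zero (p : ℝ) (hp : 0 < p) : Np p 0 0 = 0 := by
  unfold Np
  rw [abs_zero, Real.zero_rpow hp.ne', add_zero, Real.zero_rpow (by positivity)]

/-- integer flows give flows with values in the plane -/
theorem isFlow_of {a b : Fin 18 → ℤ} (c : ℝ)
    (ha : ∀ v : Fin 12, ∑ e with tl e = v, a e = ∑ e with hd e = v, a e)
    (hb : ∀ v : Fin 12, ∑ e with tl e = v, b e = ∑ e with hd e = v, b e) :
    IsFlow tl hd (fun e => (![c * a e, c * b e] : Fin 2 → ℝ)) := by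
  intro v
  funext i
  rw [Finset.sum_apply, Finset.sum_apply]
  have ha' : ∑ e with tl e = v, c * (a e : ℝ) = ∑ e with hd e = v, c * (a e : ℝ) := by
    rw [← Finset.mul_sum, ← Finset.mul_sum]
    congr 1
    exact_mod_cast ha v
  have hb' : ∑ e with tl e = v, c * (b e : ℝ) = ∑ e with hd e = v, c * (b e : ℝ) := by
    rw [← Finset.mul_sum, ← Finset.mul_sum]
    congr 1
    exact_mod_cast hb v
  fin_cases i
  · exact ha'
  · exact hb'

theorem bdd (p : ℝ≥0∞) : BddBelow {r : ℝ | 2 ≤ r ∧ HasNZF tl hd 2 p r} :=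
  ⟨2, fun r hr => hr.1⟩

theorem upper (h : S_up) (p : ℝ≥0∞) (h1 : 1 ≤ p) (h2 : p ≤ 2) :
    flowIndex tl hd 2 p ≤ 1 + 1316 / 1000 := by
  have htop : p ≠ ⊤ := ne_top_of_le_ne_top (by norm_num) h2
  have hp1 : 1 ≤ p.toReal := by
    have := (ENNReal.toReal_le_toReal (by norm_num) htop).2 h1
    simpa using this
  have hp2 : p.toReal ≤ 2 := by
    have := (ENNReal.toReal_le_toReal htop (by norm_num)).2 h2
    simpa using this
  have hp0 : 0 < p.toReal := by linarith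
  obtain ⟨c, a, b, hc, ha, hb, hab⟩ := h p.toReal hp1 hp2
  refine csInf_le (bdd p) ⟨by norm_num, fun e => (![c⁻¹ * a e, c⁻¹ * b e] : Fin 2 → ℝ),
    isFlow_of c⁻¹ ha hb, fun e => ?_⟩
  have hn : pnorm p (![c⁻¹ * a e, c⁻¹ * b e] : Fin 2 → ℝ) = c⁻¹ * Np p.toReal (a e) (b e) := by
    rw [pnorm_eq p hp0]
    exact Np_smul p.toReal hp0 c⁻¹ (a e) (b e) (inv_nonneg.2 hc.le)
  rw [hn]
  obtain ⟨h3, h4⟩ := hab e
  constructor
  · calc (1 : ℝ) = c⁻¹ * c := (inv_mul_cancel₀ hc.ne').symm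
      _ ≤ _ := mul_le_mul_of_nonneg_left h3 (inv_nonneg.2 hc.le)
  · calc c⁻¹ * Np p.toReal (a e) (b e) ≤ c⁻¹ * (1316 / 1000 * c) :=
          mul_le_mul_of_nonneg_left h4 (inv_nonneg.2 hc.le)
      _ = 1 + 1316 / 1000 - 1 := by
          field_simp
          ring

theorem nonempty (h : S_up) : {r : ℝ | 2 ≤ r ∧ HasNZF tl hd 2 (5 / 2) r}.Nonempty := by
  obtain ⟨c, a, b, hc, ha, hb, hab⟩ := h 2 (by norm_num) le_rfl
  have hpn : ∀ e, pnorm (5 / 2) (![1 * a e, 1 * b e] : Fin 2 → ℝ) = Np (5 / 2) (a e) (b e) := by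
    intro e
    rw [pnorm_eq _ (by rw [toReal_half]; norm_num), toReal_half]
    change Np (5 / 2) (1 * (a e : ℝ)) (1 * (b e : ℝ)) = _
    rw [one_mul, one_mul]
  have hone : ∀ e, 1 ≤ Np (5 / 2) (a e) (b e) := by
    intro e
    refine one_le_Np _ (by norm_num) _ _ ?_
    by_contra hcon
    push Not at hcon
    obtain ⟨h1, h2⟩ := hcon
    have h3 := (hab e).1
    rw [h1, h2, Int.cast_zero, Np_zero 2 (by norm_num)] at h3
    linarith
  have hsum : 0 ≤ ∑ e, Np (5 / 2) (a e) (b e) :=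
    Finset.sum_nonneg fun e _ => by linarith [hone e]
  refine ⟨2 + ∑ e, Np (5 / 2) (a e) (b e), by linarith,
    fun e => (![1 * a e, 1 * b e] : Fin 2 → ℝ), isFlow_of 1 ha hb, fun e => ?_⟩
  rw [hpn e]
  refine ⟨hone e, ?_⟩
  have := Finset.single_le_sum (f := fun e => Np (5 / 2) (a e) (b e))
    (fun e _ => by linarith [hone e]) (Finset.mem_univ e)
  linarith

theorem lower (h0 : ¬ ∃ X Y, Good X Y) (h : S_up) :
    1 + 13161 / 10000 ≤ flowIndex tl hd 2 (5 / 2) := by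
  refine le_csInf (nonempty h) fun r hr => ?_
  obtain ⟨-, f, hf, hn⟩ := hr
  by_contra hcon
  push Not at hcon
  apply h0
  refine ⟨fun e => f e 0, fun e => f e 1, ?_, ?_, ?_⟩
  · intro v
    have := congrFun (hf v) 0
    rwa [Finset.sum_apply, Finset.sum_apply] at this
  · intro v
    have := congrFun (hf v) 1
    rwa [Finset.sum_apply, Finset.sum_apply] at this
  · intro e
    have h1 := hn e
    rw [pnorm_eq _ (by rw [toReal_half]; norm_num), toReal_half, ← N_eq] at h1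
    exact ⟨h1.1, by linarith [h1.2]⟩

theorem fin : S_fin := by
  intro h0 h
  refine ⟨by decide, bridgeless, fun p h1 h2 => ?_⟩
  have h3 := upper h p h1 h2
  have h4 := lower h0 h
  linarith

end Pool.Agent.H935.PD
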