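import Pool.Agent.H235.Ti.SpecL
import Pool.Graph.R_pool_sql_team_seeded_63374d34.N789.QD.KF

set_option autoImplicit false

/-!
# Project Ti, leaf L2: decay of the Laplace transform of the diffraction kernel
-/

namespace Pool.Agent.H935.TiL2

open MeasureTheory Set Filter Topology Complex
open Pool.Agent.N275.QD (Rf Kf Gf Gr Hh S_KF)
open Pool.Agent.H235.Ti
open scoped Real

/-- bounds of the ratio of hyperbolic sines -/
lemma Rf_bounds {α μ : ℝ} (h0 : 0 < α) (h1 : α < π / 2) (hμ : 0 < μ) :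
    0 ≤ Rf α μ ∧ Rf α μ ≤ Real.exp (-((π - 2 * α) * μ)) := by
  have hA : 0 < (π - α) * μ := mul_pos (by linarith) hμ
  have hs : 0 < Real.sinh ((π - α) * μ) := Real.sinh_pos_iff.2 hA
  have hs' : 0 < Real.sinh (α * μ) := Real.sinh_pos_iff.2 (mul_pos h0 hμ)
  refine ⟨div_nonneg hs'.le hs.le, ?_⟩
  unfold Rf
  rw [div_le_iff₀ hs, Real.sinh_eq, Real.sinh_eq, mul_div_assoc', mul_sub, ← Real.exp_add,
    ← Real.exp_add]
  have e1 : -((π - 2 * α) * μ) + (π - α) * μ = α * μ := by ring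
  have e2 : Real.exp (-((π - 2 * α) * μ) + -((π - α) * μ)) ≤ Real.exp (-(α * μ)) := by
    apply Real.exp_le_exp.2
    nlinarith [mul_pos (show 0 < π / 2 - α by linarith) hμ]
  rw [e1]
  linarith

lemma continuousOn_Rf {α : ℝ} (h1 : α < π) : ContinuousOn (fun μ => Rf α μ) (Ioi 0) := by
  unfold Rf
  refine ContinuousOn.div (by fun_prop) (by fun_prop) fun μ hμ => ?_
  exact (Real.sinh_pos_iff.2 (mul_pos (by linarith) hμ)).ne'

/-- the bound of a mode -/
lemma mode_bound {κ ψ φ μ : ℝ} {z : ℂ} (hκ : 0 < κ) (hz : 0 < z.re) (hμ : 0 < μ) (hψ : 0 < ψ)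
    (hψ2 : ψ < π / 2) (hφ : 0 ≤ φ) :
    |Kf μ (κ * ‖z‖) * Real.sinh ((arg z + φ) * μ)| ≤
      Real.exp ((ψ + φ) * μ) * Real.exp (-(κ * (z.re * Real.cos ψ + |z.im| * Real.sin ψ))) *
        √(π / (2 * κ * ‖z‖ * Real.sin ψ)) := by
  have hz0 : z ≠ 0 := by
    rintro rfl
    simp at hz
  have hn : 0 < ‖z‖ := norm_pos_iff.2 hz0
  have harg : |arg z| < π / 2 := Complex.abs_arg_lt_pi_div_two_iff.2 (Or.inl hz)
  have hsin : 0 < Real.sin ψ := Real.sin_pos_of_pos_of_lt_pi hψ (by linarith)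
  set γ : ℝ := max (|arg z| - ψ) 0 with hγ
  have hγ0 : 0 ≤ γ := le_max_right _ _
  have hγ1 : γ < π / 2 - ψ := by
    apply max_lt <;> linarith
  have hγ2 : |arg z| - ψ ≤ γ := le_max_left _ _
  have hcos : Real.sin ψ ≤ Real.cos γ := by
    rw [← Real.cos_pi_div_two_sub]
    exact Real.cos_le_cos_of_nonneg_of_le_pi hγ0 (by linarith) hγ1.le
  have hre : ‖z‖ * Real.cos (|arg z|) = z.re := by
    rw [Real.cos_abs]
    exact Complex.norm_mul_cos_arg z
  have him : ‖z‖ * Real.sin (|arg z|) = |z.im| := by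
    have h := Complex.norm_mul_sin_arg z
    rcases le_total 0 (arg z) with h0 | h0
    · rw [abs_of_nonneg h0, ← h, abs_of_nonneg]
      exact mul_nonneg hn.le (Real.sin_nonneg_of_nonneg_of_le_pi h0 (by
        rw [abs_of_nonneg h0] at harg; linarith))
    · rw [abs_of_nonpos h0, Real.sin_neg, mul_neg, h, abs_of_nonpos]
      rw [← h]
      exact mul_nonpos_of_nonneg_of_nonpos hn.le (Real.sin_nonpos_of_nonpos_of_neg_pi_le h0 (by
        rw [abs_of_nonpos h0] at harg; linarith))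
  have hlow : z.re * Real.cos ψ + |z.im| * Real.sin ψ ≤ ‖z‖ * Real.cos γ := by
    have h1 : z.re * Real.cos ψ + |z.im| * Real.sin ψ = ‖z‖ * Real.cos (|arg z| - ψ) := by
      rw [Real.cos_sub, ← hre, ← him]
      ring
    rw [h1]
    apply mul_le_mul_of_nonneg_left _ hn.le
    rcases le_total (|arg z| - ψ) 0 with h0 | h0
    · rw [hγ, max_eq_right h0, Real.cos_zero]
      exact Real.cos_le_one _
    · rw [hγ, max_eq_left h0]
  have hK := (Pool.Agent.N789.KF.kf).1 μ (κ * ‖z‖) γ hμ.le (mul_pos hκ hn) hγ0 (by linarith)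
  have hcγ : 0 < Real.cos γ := hsin.trans_le hcos
  have hsq : √(π / (2 * (κ * ‖z‖) * Real.cos γ)) ≤ √(π / (2 * κ * ‖z‖ * Real.sin ψ)) := by
    apply Real.sqrt_le_sqrt
    have h2 : 2 * κ * ‖z‖ * Real.sin ψ ≤ 2 * (κ * ‖z‖) * Real.cos γ := by
      have : 0 < 2 * (κ * ‖z‖) := by positivity
      nlinarith
    exact div_le_div_of_nonneg_left Real.pi_pos.le (by positivity) h2
  have hS : |Real.sinh ((arg z + φ) * μ)| ≤ Real.exp ((γ + ψ + φ) * μ) := by
    have h3 : |Real.sinh ((arg z + φ) * μ)| ≤ Real.exp |(arg z + φ) * μ| := by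
      rw [Real.abs_sinh, Real.sinh_eq]
      have := Real.exp_pos |(arg z + φ) * μ|
      have := Real.exp_pos (-|(arg z + φ) * μ|)
      linarith
    refine h3.trans (Real.exp_le_exp.2 ?_)
    rw [abs_mul, abs_of_pos hμ]
    apply mul_le_mul_of_nonneg_right _ hμ.le
    have h4 := abs_add_le (arg z) φ
    rw [abs_of_nonneg hφ] at h4
    linarith
  rw [abs_mul]
  calc |Kf μ (κ * ‖z‖)| * |Real.sinh ((arg z + φ) * μ)|
      ≤ (Real.exp (-(γ * μ) - κ * ‖z‖ * Real.cos γ) * √(π / (2 * κ * ‖z‖ * Real.sin ψ))) *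
          Real.exp ((γ + ψ + φ) * μ) := by
        apply mul_le_mul (hK.trans (mul_le_mul_of_nonneg_left hsq (Real.exp_pos _).le)) hS
          (abs_nonneg _) (by positivity)
    _ = (Real.exp (-(γ * μ) - κ * ‖z‖ * Real.cos γ) * Real.exp ((γ + ψ + φ) * μ)) *
          √(π / (2 * κ * ‖z‖ * Real.sin ψ)) := by ring
    _ ≤ (Real.exp ((ψ + φ) * μ) * Real.exp (-(κ * (z.re * Real.cos ψ + |z.im| * Real.sin ψ)))) *
          √(π / (2 * κ * ‖z‖ * Real.sin ψ)) := by
        apply mul_le_mul_of_nonneg_right _ (Real.sqrt_nonneg _)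
        rw [← Real.exp_add, ← Real.exp_add]
        apply Real.exp_le_exp.2
        nlinarith [mul_le_mul_of_nonneg_left hlow hκ.le]

theorem l2 : Pool.Agent.H235.Ti.S_L2 := by
  intro α φ ψ hα hφ hψ hsum
  have hpi := Real.pi_pos
  have hψ2 : ψ < π / 2 := by linarith
  have hsin : 0 < Real.sin ψ := Real.sin_pos_of_pos_of_lt_pi hψ (by linarith)
  set c : ℝ := π - 2 * α - 2 * (ψ + φ) with hc
  have hc0 : 0 < c := by rw [hc]; linarith
  have hint : IntegrableOn (fun μ : ℝ => Real.exp (-c * μ)) (Ioi 0) :=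
    exp_neg_integrableOn_Ioi 0 hc0
  set J : ℝ := ∫ μ in Ioi (0 : ℝ), Real.exp (-c * μ) with hJ
  have hJ0 : 0 ≤ J := setIntegral_nonneg measurableSet_Ioi fun μ _ => (Real.exp_pos _).le
  refine ⟨2 / π ^ 2 * (π / (2 * Real.sin ψ)) * J + 1, by positivity, ?_⟩
  intro κ z w hκ hz hw
  have hzn : 0 < ‖z‖ := norm_pos_iff.2 (by rintro rfl; simp at hz)
  have hwn : 0 < ‖w‖ := norm_pos_iff.2 (by rintro rfl; simp at hw)
  set E : ℝ := Real.exp (-(κ *
      (z.re * Real.cos ψ + |z.im| * Real.sin ψ + w.re * Real.cos ψ + |w.im| * Real.sin ψ))) with hE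
  have hE0 : 0 < E := Real.exp_pos _
  set B : ℝ := π / (2 * Real.sin ψ) / (κ * √(‖z‖ * ‖w‖)) * E with hB
  have hsqrt : √(π / (2 * κ * ‖z‖ * Real.sin ψ)) * √(π / (2 * κ * ‖w‖ * Real.sin ψ)) =
      π / (2 * Real.sin ψ) / (κ * √(‖z‖ * ‖w‖)) := by
    rw [← Real.sqrt_mul (by positivity)]
    rw [Real.sqrt_eq_iff_mul_self_eq (by positivity) (by positivity)]
    have h5 : √(‖z‖ * ‖w‖) * √(‖z‖ * ‖w‖) = ‖z‖ * ‖w‖ := Real.mul_self_sqrt (by positivity)
    have h6 : π / (2 * Real.sin ψ) / (κ * √(‖z‖ * ‖w‖)) * (π / (2 * Real.sin ψ) / (κ * √(‖z‖ * ‖w‖))) =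
        π ^ 2 / (4 * Real.sin ψ ^ 2 * κ ^ 2 * (√(‖z‖ * ‖w‖) * √(‖z‖ * ‖w‖))) := by
      field_simp
      try ring
    rw [h6, h5]
    field_simp
    try ring
  have hbound : ∀ μ ∈ Ioi (0 : ℝ), ‖Rf α μ * (Kf μ (κ * ‖z‖) * Real.sinh ((arg z + φ) * μ)) *
      (Kf μ (κ * ‖w‖) * Real.sinh ((arg w + φ) * μ))‖ ≤ B * Real.exp (-c * μ) := by
    intro μ hμ
    have hμ : 0 < μ := hμ
    obtain ⟨hR0, hR1⟩ := Rf_bounds hα (by linarith) hμ
    have h1 := mode_bound (z := z) hκ hz hμ hψ hψ2 hφ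
    have h2 := mode_bound (z := w) hκ hw hμ hψ hψ2 hφ
    rw [norm_mul, norm_mul, Real.norm_eq_abs, Real.norm_eq_abs, Real.norm_eq_abs, abs_of_nonneg hR0]
    calc _ ≤ (Real.exp (-((π - 2 * α) * μ)) * (Real.exp ((ψ + φ) * μ) *
          Real.exp (-(κ * (z.re * Real.cos ψ + |z.im| * Real.sin ψ))) *
            √(π / (2 * κ * ‖z‖ * Real.sin ψ)))) * (Real.exp ((ψ + φ) * μ) *
          Real.exp (-(κ * (w.re * Real.cos ψ + |w.im| * Real.sin ψ))) *
            √(π / (2 * κ * ‖w‖ * Real.sin ψ))) := by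
          apply mul_le_mul _ h2 (abs_nonneg _) (by positivity)
          exact mul_le_mul hR1 h1 (abs_nonneg _) (by positivity)
      _ = (√(π / (2 * κ * ‖z‖ * Real.sin ψ)) * √(π / (2 * κ * ‖w‖ * Real.sin ψ))) *
          (Real.exp (-(κ * (z.re * Real.cos ψ + |z.im| * Real.sin ψ))) *
            Real.exp (-(κ * (w.re * Real.cos ψ + |w.im| * Real.sin ψ)))) *
          (Real.exp (-((π - 2 * α) * μ)) * Real.exp ((ψ + φ) * μ) * Real.exp ((ψ + φ) * μ)) := by
          ring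
      _ = B * Real.exp (-c * μ) := by
          rw [hsqrt, ← Real.exp_add, ← Real.exp_add, ← Real.exp_add, hB, hE]
          congr 2
          · congr 1
            ring
          · rw [hc]
            ring
  have hzK : Continuous fun μ => Kf μ (κ * ‖z‖) := Pool.Agent.N789.KF.continuous_Kf (by positivity)
  have hwK : Continuous fun μ => Kf μ (κ * ‖w‖) := Pool.Agent.N789.KF.continuous_Kf (by positivity)
  have hmeas : AEStronglyMeasurable (fun μ => Rf α μ * (Kf μ (κ * ‖z‖) *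
      Real.sinh ((arg z + φ) * μ)) * (Kf μ (κ * ‖w‖) * Real.sinh ((arg w + φ) * μ)))
      (volume.restrict (Ioi 0)) := by
    apply ContinuousOn.aestronglyMeasurable _ measurableSet_Ioi
    have hR : ContinuousOn (fun μ => Rf α μ) (Ioi 0) := continuousOn_Rf (by linarith)
    fun_prop
  have hI : IntegrableOn (fun μ => Rf α μ * (Kf μ (κ * ‖z‖) * Real.sinh ((arg z + φ) * μ)) *
      (Kf μ (κ * ‖w‖) * Real.sinh ((arg w + φ) * μ))) (Ioi 0) :=
    Integrable.mono' (hint.const_mul B) hmeas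
      ((ae_restrict_iff' measurableSet_Ioi).2 (Eventually.of_forall hbound))
  refine ⟨hI, ?_⟩
  have hG : |∫ μ in Ioi (0 : ℝ), Rf α μ * (Kf μ (κ * ‖z‖) * Real.sinh ((arg z + φ) * μ)) *
      (Kf μ (κ * ‖w‖) * Real.sinh ((arg w + φ) * μ))| ≤ B * J := by
    rw [← Real.norm_eq_abs, hJ, ← integral_const_mul]
    refine norm_integral_le_of_norm_le (hint.const_mul B) ?_
    exact (ae_restrict_iff' measurableSet_Ioi).2 (Eventually.of_forall hbound)
  have hD : 0 < κ * √(‖z‖ * ‖w‖) := by positivity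
  unfold GH
  rw [abs_mul, abs_of_pos (show 0 < 2 / π ^ 2 by positivity)]
  calc _ ≤ 2 / π ^ 2 * (B * J) := mul_le_mul_of_nonneg_left hG (by positivity)
    _ = (2 / π ^ 2 * (π / (2 * Real.sin ψ)) * J) / (κ * √(‖z‖ * ‖w‖)) * E := by
        rw [hB]
        ring
    _ ≤ _ := by
        apply mul_le_mul_of_nonneg_right _ hE0.le
        exact div_le_div_of_nonneg_right (by linarith) hD.le

end Pool.Agent.H935.TiL2
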