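import Mathlib
import Pool.Agent.H252.EL.Iface

/-!
# Non-comparison in the limit
-/

set_option autoImplicit false
set_option linter.unusedSectionVars false

noncomputable section

namespace Pool.Agent.H935.ELCORE

open Filter Topology
open scoped ENNReal NNReal Matrix.Norms.L2Operator
open Pool.Agent.TH249 (Prj K0 Eqv IsPrj)
open Pool.Agent.H188R3 (IsLim)
open Pool.Agent.H252.EL

/-! ### The Bott projection -/

lemma bott_mul (x : S2) : bott x * bott x = bott x := by
  have h : ((x : EuclideanSpace ℝ (Fin 3)) 0) ^ 2 + ((x : EuclideanSpace ℝ (Fin 3)) 1) ^ 2 +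
      ((x : EuclideanSpace ℝ (Fin 3)) 2) ^ 2 = 1 := by
    have h1 : ‖(x : EuclideanSpace ℝ (Fin 3))‖ = 1 := mem_sphere_zero_iff_norm.1 x.2
    have h2 := EuclideanSpace.norm_sq_eq (x : EuclideanSpace ℝ (Fin 3))
    rw [h1, Fin.sum_univ_three] at h2
    simp only [Real.norm_eq_abs, sq_abs] at h2
    linarith
  have key : ∀ a b c : ℝ, a ^ 2 + b ^ 2 + c ^ 2 = 1 →
      ((2 : ℂ)⁻¹ • !![1 + (c : ℂ), (a : ℂ) - Complex.I * (b : ℂ);
        (a : ℂ) + Complex.I * (b : ℂ), 1 - (c : ℂ)]) *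
      ((2 : ℂ)⁻¹ • !![1 + (c : ℂ), (a : ℂ) - Complex.I * (b : ℂ);
        (a : ℂ) + Complex.I * (b : ℂ), 1 - (c : ℂ)]) =
      (2 : ℂ)⁻¹ • !![1 + (c : ℂ), (a : ℂ) - Complex.I * (b : ℂ);
        (a : ℂ) + Complex.I * (b : ℂ), 1 - (c : ℂ)] := by
    intro a b c h
    have hc : (a : ℂ) ^ 2 + (b : ℂ) ^ 2 + (c : ℂ) ^ 2 = 1 := by exact_mod_cast h
    have hI : Complex.I ^ 2 = -1 := Complex.I_sq
    ext i j
    fin_cases i <;> fin_cases j <;> simp [Matrix.mul_apply, Fin.sum_univ_two]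
    · linear_combination (1 / 4 : ℂ) * hc - (1 / 4 : ℂ) * (b : ℂ) ^ 2 * hI
    · ring
    · ring
    · linear_combination (1 / 4 : ℂ) * hc - (1 / 4 : ℂ) * (b : ℂ) ^ 2 * hI
  exact key _ _ _ h

lemma continuous_bott (i j : Fin 2) : Continuous fun x : S2 => bott x i j := by
  have h0 : Continuous fun x : S2 => (((x : EuclideanSpace ℝ (Fin 3)) 0 : ℝ) : ℂ) := by fun_prop
  have h1 : Continuous fun x : S2 => (((x : EuclideanSpace ℝ (Fin 3)) 1 : ℝ) : ℂ) := by fun_prop
  have h2 : Continuous fun x : S2 => (((x : EuclideanSpace ℝ (Fin 3)) 2 : ℝ) : ℂ) := by fun_prop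
  fin_cases i <;> fin_cases j <;> simp [bott] <;> fun_prop

/-- rows of `bottE` -/
lemma bottE_row {k : ℕ} {J : Type} [DecidableEq J] [Fintype J] (u : Fin k × Fin 2 → J)
    (hu : Function.Injective u) (x : Fin k → S2) (η : J → ℂ) (t : Fin k) (e : Fin 2) :
    ((bottE u x).mulVec η) (u (t, e)) = (bott (x t)).mulVec (fun i => η (u (t, i))) e := by
  simp only [Matrix.mulVec, dotProduct, bottE, Matrix.of_apply]
  have h1 : ∀ c, ∑ t' : Fin k, ∑ i : Fin 2, ∑ j : Fin 2,
      (if u (t', i) = u (t, e) ∧ u (t', j) = c then bott (x t') i j else 0) =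
      ∑ j : Fin 2, if u (t, j) = c then bott (x t) e j else 0 := by
    intro c
    rw [Finset.sum_eq_single t, Finset.sum_eq_single e]
    · refine Finset.sum_congr rfl fun j _ => ?_
      simp
    · intro i _ hi
      refine Finset.sum_eq_zero fun j _ => ?_
      rw [if_neg]
      rintro ⟨h, -⟩
      exact hi (by simpa using hu h)
    · simp
    · intro t' _ ht
      refine Finset.sum_eq_zero fun i _ => Finset.sum_eq_zero fun j _ => ?_
      rw [if_neg]
      rintro ⟨h, -⟩
      exact ht (Prod.mk.inj (hu h)).1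
    · simp
  simp only [h1, Finset.sum_mul]
  rw [Finset.sum_comm]
  refine Finset.sum_congr rfl fun j _ => ?_
  rw [Finset.sum_eq_single (u (t, j))]
  · rw [if_pos rfl]
  · intro c _ hc
    rw [if_neg hc.symm, zero_mul]
  · simp

lemma bottE_zero {k : ℕ} {J : Type} [DecidableEq J] [Fintype J] (u : Fin k × Fin 2 → J)
    (x : Fin k → S2) (η : J → ℂ) (a : J) (ha : ∀ q, u q ≠ a) :
    ((bottE u x).mulVec η) a = 0 := by
  simp only [Matrix.mulVec, dotProduct, bottE, Matrix.of_apply]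
  refine Finset.sum_eq_zero fun c _ => ?_
  rw [Finset.sum_eq_zero, zero_mul]
  intro t _
  refine Finset.sum_eq_zero fun i _ => Finset.sum_eq_zero fun j _ => ?_
  rw [if_neg]
  rintro ⟨h, -⟩
  exact ha _ h

/-! ### Approximation in the limit -/

section lim

variable {A : ℕ → Type} [∀ n, CStarAlgebra (A n)] {φ : ∀ n, A n →⋆ₐ[ℂ] A (n + 1)}
  {L : Type} [CStarAlgebra L] {j : ∀ n, A n →⋆ₐ[ℂ] L}

lemma push (hL : IsLim φ j) {n m : ℕ} (h : n ≤ m) (x : A n) : ∃ y : A m, j m y = j n x := by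
  induction m, h using Nat.le_induction with
  | base => exact ⟨x, rfl⟩
  | succ m _ ih =>
    obtain ⟨y, hy⟩ := ih
    exact ⟨φ m y, (hL.comp m y).trans hy⟩

lemma approx (hL : IsLim φ j) (i M : ℕ) (a b : Matrix (Fin M) (Fin M) L) (ε : ℝ)
    (v : Matrix (Fin M) (Fin M) L) (hv : ∀ s t, ‖(v * b * star v - a) s t‖ < ε) :
    ∃ (r : ℕ) (v' : Matrix (Fin M) (Fin M) (A (i + r))),
      ∀ s t, ‖(v'.map (j (i + r)) * b * star (v'.map (j (i + r))) - a) s t‖ < ε := by
  have hcont : ∀ s t, Continuous fun w : Fin M → Fin M → L =>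
      ‖(Matrix.of w * b * star (Matrix.of w) - a) s t‖ := by
    intro s t
    refine continuous_norm.comp ?_
    have : (fun w : Fin M → Fin M → L => (Matrix.of w * b * star (Matrix.of w) - a) s t) =
        fun w => ∑ q, (∑ p, w s p * b p q) * star (w t q) - a s t := by
      funext w
      simp [Matrix.mul_apply, Matrix.sub_apply, Matrix.star_apply]
    rw [this]
    fun_prop
  have hev : ∀ᶠ w : Fin M → Fin M → L in 𝓝 (fun s t => v s t), ∀ s t,
      ‖(Matrix.of w * b * star (Matrix.of w) - a) s t‖ < ε := by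
    rw [eventually_all]
    intro s
    rw [eventually_all]
    intro t
    exact (hcont s t).continuousAt.eventually_lt continuousAt_const (hv s t)
  obtain ⟨δ, hδ, hev⟩ := Metric.eventually_nhds_iff.1 hev
  choose nn xx hxx using fun s t => hL.dense (v s t) δ hδ
  have hle : ∀ s t, nn s t ≤ i + ∑ s, ∑ t, nn s t := by
    intro s t
    have h1 : nn s t ≤ ∑ t, nn s t :=
      Finset.single_le_sum (f := fun t => nn s t) (fun _ _ => Nat.zero_le _) (Finset.mem_univ t)
    have h2 : ∑ t, nn s t ≤ ∑ s, ∑ t, nn s t :=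
      Finset.single_le_sum (f := fun s => ∑ t, nn s t) (fun _ _ => Nat.zero_le _)
        (Finset.mem_univ s)
    omega
  choose v' hv' using fun s t => push hL (hle s t) (xx s t)
  refine ⟨∑ s, ∑ t, nn s t, Matrix.of v', ?_⟩
  have hd : dist (fun s t => j (i + ∑ s, ∑ t, nn s t) (v' s t)) (fun s t => v s t) < δ := by
    rw [dist_pi_lt_iff hδ]
    intro s
    rw [dist_pi_lt_iff hδ]
    intro t
    rw [hv', dist_comm, dist_eq_norm]
    exact hxx s t
  exact hev hd

end lim

/-! ### Values at a point as one matrix -/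

section hat

variable {Z : Type} [TopologicalSpace Z] [CompactSpace Z] {M N : ℕ}

/-- the value of a matrix at a point, as one matrix -/
def hat (Q : Matrix (Fin M) (Fin M) (BB Z N)) (z : Z) :
    Matrix (Fin M × Fin N) (Fin M × Fin N) ℂ := Matrix.of fun x y => Q x.1 y.1 z x.2 y.2

lemma hat_apply (Q : Matrix (Fin M) (Fin M) (BB Z N)) (z : Z) (x y : Fin M × Fin N) :
    hat Q z x y = Q x.1 y.1 z x.2 y.2 := rfl

lemma hat_mul (Q R : Matrix (Fin M) (Fin M) (BB Z N)) (z : Z) :
    hat (Q * R) z = hat Q z * hat R z := by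
  ext x y
  rw [hat_apply, Matrix.mul_apply, Matrix.mul_apply, Fintype.sum_prod_type]
  rw [ContinuousMap.sum_apply, Matrix.sum_apply]
  rfl

lemma hat_sub (Q R : Matrix (Fin M) (Fin M) (BB Z N)) (z : Z) :
    hat (Q - R) z = hat Q z - hat R z := rfl

lemma hat_star (Q : Matrix (Fin M) (Fin M) (BB Z N)) (z : Z) :
    hat (star Q) z = (hat Q z).conjTranspose := rfl

/-- the norm -/
def nm (ξ : Fin M × Fin N → ℂ) : ℝ :=
  ∑ s, ‖(WithLp.toLp 2 fun x => ξ (s, x) : EuclideanSpace ℂ (Fin N))‖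

lemma nm_eq_zero {ξ : Fin M × Fin N → ℂ} (h : nm ξ ≤ 0) : ξ = 0 := by
  have h0 : nm ξ = 0 := le_antisymm h (Finset.sum_nonneg fun _ _ => norm_nonneg _)
  have h1 := (Finset.sum_eq_zero_iff_of_nonneg (fun _ _ => norm_nonneg _)).1 h0
  funext ⟨s, x⟩
  have h2 := h1 s (Finset.mem_univ s)
  rw [norm_eq_zero] at h2
  exact congrArg (fun e : EuclideanSpace ℂ (Fin N) => e x) h2

lemma nm_hat_le (Q : Matrix (Fin M) (Fin M) (BB Z N)) (z : Z) {ε : ℝ}
    (hQ : ∀ s t, ‖Q s t‖ ≤ ε) (ξ : Fin M × Fin N → ℂ) :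
    nm ((hat Q z).mulVec ξ) ≤ M * (ε * nm ξ) := by
  have h1 : ∀ s : Fin M, ‖(WithLp.toLp 2 fun x => (hat Q z).mulVec ξ (s, x) :
      EuclideanSpace ℂ (Fin N))‖ ≤ ε * nm ξ := by
    intro s
    have e : (WithLp.toLp 2 fun x => (hat Q z).mulVec ξ (s, x) : EuclideanSpace ℂ (Fin N)) =
        ∑ t : Fin M, (WithLp.toLp 2 ((Q s t z).mulVec fun y => ξ (t, y)) :
          EuclideanSpace ℂ (Fin N)) := by
      rw [← WithLp.toLp_sum]
      congr 1
      funext x
      rw [Finset.sum_apply]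
      simp only [Matrix.mulVec, dotProduct, hat_apply]
      rw [Fintype.sum_prod_type]
    rw [e]
    unfold nm
    rw [Finset.mul_sum]
    refine (norm_sum_le _ _).trans (Finset.sum_le_sum fun t _ => ?_)
    have h2 := Matrix.l2_opNorm_mulVec (Q s t z)
      (WithLp.toLp 2 fun y => ξ (t, y) : EuclideanSpace ℂ (Fin N))
    have h3 : ‖Q s t z‖ ≤ ε := ((Q s t).norm_coe_le_norm z).trans (hQ s t)
    exact h2.trans (mul_le_mul_of_nonneg_right h3 (norm_nonneg _))
  calc nm ((hat Q z).mulVec ξ) ≤ ∑ _s : Fin M, ε * nm ξ := Finset.sum_le_sum fun s _ => h1 s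
    _ = M * (ε * nm ξ) := by
        rw [Finset.sum_const, Finset.card_univ, Fintype.card_fin, nsmul_eq_mul]

end hat

lemma nm_neg {M N : ℕ} (ξ : Fin M × Fin N → ℂ) : nm (-ξ) = nm ξ := by
  unfold nm
  refine Finset.sum_congr rfl fun s _ => ?_
  have h : (WithLp.toLp 2 fun x => (-ξ) (s, x) : EuclideanSpace ℂ (Fin N)) =
      -(WithLp.toLp 2 fun x => ξ (s, x)) := by
    ext x
    rfl
  rw [h, norm_neg]

/-! ### The indices -/

section ix

variable {M n N : ℕ} {P : Type} [Fintype P] [DecidableEq P] (E : Fin N ≃ Fin n × P)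

/-- the index -/
def ix (c : Fin M × Fin n) (p : P) : Fin M × Fin N := (c.1, E.symm (c.2, p))

lemma ix_surj (w : Fin M × Fin N) : ∃ (c : Fin M × Fin n) (p : P), ix E c p = w := by
  refine ⟨(w.1, (E w.2).1), (E w.2).2, ?_⟩
  unfold ix
  simp

lemma ix_inj {c c' : Fin M × Fin n} {p p' : P} (h : ix E c p = ix E c' p') : c = c' ∧ p = p' := by
  unfold ix at h
  have h1 := (Prod.mk.inj h).1
  have h2 := E.symm.injective (Prod.mk.inj h).2
  exact ⟨Prod.ext h1 (Prod.mk.inj h2).1, (Prod.mk.inj h2).2⟩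

lemma sum_ix (f : Fin M × Fin N → ℂ) : ∑ w, f w = ∑ p, ∑ c : Fin M × Fin n, f (ix E c p) := by
  have h1 : ∀ s : Fin M, ∑ x, f (s, x) = ∑ a, ∑ p, f (s, E.symm (a, p)) := fun s => by
    rw [← Equiv.sum_comp E.symm, Fintype.sum_prod_type]
  rw [Finset.sum_comm, Fintype.sum_prod_type, Fintype.sum_prod_type]
  exact Finset.sum_congr rfl fun s _ => h1 s

end ix

lemma j_tr (D : Sys) {L : Type} [CStarAlgebra L] {j : ∀ i, D.A i →⋆ₐ[ℂ] L}
    (hL : IsLim D.φ j) (i r : ℕ) (a : D.A i) : j (i + r) (D.tr i r a) = j i a := by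
  induction r with
  | zero => rfl
  | succ r ih =>
    rw [Sys.tr_succ]
    exact (hL.comp (i + r) _).trans ih

/-- the rows of a block diagonal matrix -/
lemma row {D : Sys} {i r M : ℕ} {P : Type} [Fintype P] [DecidableEq P]
    {l : P → C(D.Z (i + r), D.Z i)} {E : Fin (D.n (i + r)) ≃ Fin (D.n i) × P}
    (h1 : ∀ (a : D.A i) (z : D.Z (i + r)) (x y : Fin (D.n (i + r))),
      D.tr i r a z x y = if (E x).2 = (E y).2 then a (l (E x).2 z) (E x).1 (E y).1 else 0)
    (Q : Matrix (Fin M) (Fin M) (D.A i)) (z : D.Z (i + r))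
    (η : Fin M × Fin (D.n (i + r)) → ℂ) (c : Fin M × Fin (D.n i)) (p : P) :
    (hat (Q.map (D.tr i r)) z).mulVec η (ix E c p) =
      (hat Q (l p z)).mulVec (fun c' => η (ix E c' p)) c := by
  simp only [Matrix.mulVec, dotProduct]
  rw [sum_ix E]
  rw [Finset.sum_eq_single p]
  · refine Finset.sum_congr rfl fun c' _ => ?_
    rw [hat_apply, hat_apply, Matrix.map_apply, h1]
    simp [ix]
  · intro p' _ hp'
    refine Finset.sum_eq_zero fun c' _ => ?_
    rw [hat_apply, Matrix.map_apply, h1]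
    simp only [ix, Equiv.apply_symm_apply]
    rw [if_neg hp'.symm, zero_mul]
  · intro h
    exact absurd (Finset.mem_univ p) h

lemma hat_cp (D : Sys) (i M : ℕ) (ρ : Bool → ℕ) (y : D.Z i) :
    hat (D.cp i M ρ) y = Matrix.diagonal fun c : Fin M × Fin (D.n i) =>
      if (c.1 : ℕ) * D.n i + (c.2 : ℕ) < ρ y.1 then (1 : ℂ) else 0 := by
  ext ⟨s, a⟩ ⟨t, a'⟩
  rw [hat_apply]
  unfold Sys.cp
  by_cases hst : s = t
  · subst hst
    rw [Matrix.diagonal_apply_eq]
    show Matrix.diagonal (fun a : Fin (D.n i) =>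
      if (s : ℕ) * D.n i + (a : ℕ) < ρ y.1 then (1 : ℂ) else 0) a a' = _
    by_cases ha : a = a'
    · subst ha
      rw [Matrix.diagonal_apply_eq, Matrix.diagonal_apply_eq]
    · rw [Matrix.diagonal_apply_ne _ ha, Matrix.diagonal_apply_ne]
      simpa using ha
  · rw [Matrix.diagonal_apply_ne _ hst, Matrix.diagonal_apply_ne]
    · rfl
    · intro h
      exact hst (Prod.mk.inj h).1

/-- extension of a vector -/
def ext0 {W J : Type} [Fintype W] [DecidableEq J] (col : W → J) (ξ : W → ℂ) : J → ℂ :=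
  fun y => ∑ w, if col w = y then ξ w else 0

lemma mul_ext0 {W J R : Type} [Fintype W] [Fintype J] [DecidableEq J] (col : W → J) (ξ : W → ℂ)
    (Φ : Matrix R J ℂ) (x : R) : ∑ w, Φ x (col w) * ξ w = Φ.mulVec (ext0 col ξ) x := by
  simp only [Matrix.mulVec, dotProduct, ext0, Finset.mul_sum]
  rw [Finset.sum_comm]
  refine Finset.sum_congr rfl fun w _ => ?_
  rw [Finset.sum_eq_single (col w)]
  · rw [if_pos rfl]
  · intro y _ hy
    rw [if_neg hy.symm, mul_zero]
  · intro h
    exact absurd (Finset.mem_univ _) h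

lemma ext0_ne {W J : Type} [Fintype W] [DecidableEq J] {col : W → J} {ξ : W → ℂ} {y : J}
    (h : ext0 col ξ y ≠ 0) : ∃ w, col w = y := by
  by_contra hcon
  push Not at hcon
  exact h (Finset.sum_eq_zero fun w _ => if_neg (hcon w))

lemma ext0_col {W J : Type} [Fintype W] [DecidableEq J] {col : W → J}
    (hcol : Function.Injective col) (ξ : W → ℂ) (w : W) : ext0 col ξ (col w) = ξ w := by
  unfold ext0
  rw [Finset.sum_eq_single w]
  · rw [if_pos rfl]
  · intro w' _ hw'
    rw [if_neg fun h => hw' (hcol h)]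
  · intro h
    exact absurd (Finset.mem_univ _) h

theorem s_CORE : S_CORE := by
  intro hPATCH hBU D hG L _ j hL i M k k₂ b ι u β B hι hu hβ hB hk hkr hC
  have hεpos : (0 : ℝ) < 1 / (2 * (M + 1)) := by positivity
  obtain ⟨v, hv⟩ := hC (1 / (2 * (M + 1))) hεpos
  obtain ⟨r, v', hv'⟩ := approx hL i M _ _ _ v hv
  obtain ⟨P, iF, iD, l, G, iG, E, h1, h2, h3, h4, -⟩ := hPATCH D hG i r
  obtain ⟨F, hF, hFl⟩ := h4 b
  set X : Matrix (Fin M) (Fin M) (D.A i) := D.cp i M fun b' => if b' = b then k else 0 with hX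
  -- the error matrix
  let Q : Matrix (Fin M) (Fin M) (D.A (i + r)) :=
    v' * B.map (D.tr i r) * star v' - X.map (D.tr i r)
  have hQ : ∀ s t, ‖Q s t‖ ≤ 1 / (2 * (M + 1)) := by
    intro s t
    have e1 : (B.map (D.tr i r)).map (j (i + r)) = B.map (j i) := by
      ext s t
      exact j_tr D hL i r _
    have e2 : (X.map (D.tr i r)).map (j (i + r)) = X.map (j i) := by
      ext s t
      exact j_tr D hL i r _
    have e3 : Q.map (j (i + r)) = v'.map (j (i + r)) * (B.map (D.tr i r)).map (j (i + r)) *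
        star (v'.map (j (i + r))) - (X.map (D.tr i r)).map (j (i + r)) := by
      ext s t
      simp [Q, Matrix.mul_apply, Matrix.map_apply, map_sum, map_mul, map_sub, Matrix.star_apply,
        map_star]
    rw [e1, e2] at e3
    have e4 : ‖j (i + r) (Q s t)‖ = ‖Q s t‖ :=
      NonUnitalStarAlgHom.norm_map (j (i + r)) (hL.inj (i + r)) (Q s t)
    rw [← e4]
    have e5 : j (i + r) (Q s t) = (Q.map (j (i + r))) s t := rfl
    rw [e5, e3]
    exact (hv' s t).le
  -- indices
  let κ : Fin k → Fin M × Fin (D.n i) := fun c => finProdFinEquiv.symm (Fin.castLE hk c)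
  have hκ : ∀ c, ((κ c).1 : ℕ) * D.n i + ((κ c).2 : ℕ) = c := by
    intro c
    have e1 : finProdFinEquiv (κ c) = Fin.castLE hk c := Equiv.apply_symm_apply _ _
    have e2 := congrArg (fun x : Fin (M * D.n i) => (x : ℕ)) e1
    simp only [finProdFinEquiv_apply_val, Fin.val_castLE] at e2
    rw [mul_comm, add_comm]
    exact e2
  have hκi : Function.Injective κ := fun c c' h =>
    Fin.castLE_injective hk (finProdFinEquiv.symm.injective h)
  let col : {p // G p} × Fin k → Fin M × Fin (D.n (i + r)) := fun w => ix E (κ w.2) w.1.1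
  have hcol : Function.Injective col := by
    intro w w' h
    obtain ⟨g1, g2⟩ := ix_inj E h
    exact Prod.ext (Subtype.ext g2) (hκi g1)
  let rw' : (({p // G p} × Fin k₂) × Fin 2) ⊕ ({p // ¬ G p} × (Fin M × Fin (D.n i))) →
      Fin M × Fin (D.n (i + r)) :=
    Sum.elim (fun q => ix E (u (q.1.2, q.2)) q.1.1.1) (fun q => ix E q.2 q.1.1)
  let zz : ({p // G p} × Fin k₂ → S2) → D.Z (i + r) := fun x => ⟨b, F fun p => ι fun t => x (p, t)⟩
  have hzz : Continuous zz := by
    refine continuous_sigmaMk.comp (hF.comp ?_)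
    refine continuous_pi fun p => hι.comp ?_
    exact continuous_pi fun t => continuous_apply (p, t)
  let T : ({p // G p} × Fin k₂ → S2) →
      Matrix ((({p // G p} × Fin k₂) × Fin 2) ⊕ ({p // ¬ G p} × (Fin M × Fin (D.n i))))
        ({p // G p} × Fin k) ℂ := fun x => Matrix.of fun ro w =>
    (hat (B.map (D.tr i r)) (zz x) * (hat v' (zz x)).conjTranspose) (rw' ro) (col w)
  have hTf : ∀ x ξ ro, (T x).mulVec ξ ro = (hat (B.map (D.tr i r)) (zz x)).mulVec
      ((hat v' (zz x)).conjTranspose.mulVec (ext0 col ξ)) (rw' ro) := by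
    intro x ξ ro
    rw [Matrix.mulVec_mulVec, ← mul_ext0]
    rfl
  have hTc : Continuous T := by
    refine continuous_matrix fun ro w => ?_
    have hh : ∀ (R : Matrix (Fin M) (Fin M) (D.A (i + r))) (a c : Fin M × Fin (D.n (i + r))),
        Continuous fun x => hat R (zz x) a c := fun R a c =>
      ((R a.1 c.1).continuous.comp hzz).matrix_elem a.2 c.2
    have : (fun x => T x ro w) = fun x => ∑ c, hat (B.map (D.tr i r)) (zz x) (rw' ro) c *
        star (hat v' (zz x) (col w) c) := by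
      funext x
      show (hat (B.map (D.tr i r)) (zz x) * (hat v' (zz x)).conjTranspose) (rw' ro) (col w) = _
      rw [Matrix.mul_apply]
      rfl
    rw [this]
    exact continuous_finsetSum _ fun c _ => (hh _ _ _).mul (continuous_star.comp (hh _ _ _))
  have hblk : ∀ x (p : {p // G p}), hat B (l p.1 (zz x)) = bottE u fun t => x (p, t) := by
    intro x p
    have e1 : l p.1 (zz x) = ⟨b, ι fun t => x (p, t)⟩ := hFl _ p
    rw [e1, ← hβ]
    ext ⟨s, a⟩ ⟨t, a'⟩
    exact hB _ _ _ _ _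
  have hinl : ∀ x ξ (p : {p // G p}) t e, (T x).mulVec ξ (Sum.inl ((p, t), e)) =
      (bott (x (p, t))).mulVec (fun i => ((hat v' (zz x)).conjTranspose.mulVec (ext0 col ξ))
        (ix E (u (t, i)) p.1)) e := by
    intro x ξ p t e
    rw [hTf]
    show (hat (B.map (D.tr i r)) (zz x)).mulVec _ (ix E (u (t, e)) p.1) = _
    rw [row h1, hblk, bottE_row u hu]
  have hcard : Fintype.card ({p // ¬ G p} × (Fin M × Fin (D.n i))) <
      Fintype.card ({p // G p} × Fin k) := by
    have hsum : Fintype.card {p // G p} + Fintype.card {p // ¬ G p} = Fintype.card P := by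
      rw [← Fintype.card_sum]
      exact Fintype.card_congr (Equiv.sumCompl G)
    have h6 := hkr r
    rw [← h2, ← h3, ← hsum] at h6
    rw [Fintype.card_prod, Fintype.card_prod, Fintype.card_prod, Fintype.card_fin,
      Fintype.card_fin, Fintype.card_fin]
    nlinarith
  obtain ⟨x, ξ, hξ, hTx⟩ := hBU _ _ _ T hTc hcard (by
    rintro x ξ ⟨p, t⟩
    funext e
    have e1 : (fun t' => (T x).mulVec ξ (Sum.inl ((p, t), t'))) =
        (bott (x (p, t))).mulVec (fun i => ((hat v' (zz x)).conjTranspose.mulVec (ext0 col ξ))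
          (ix E (u (t, i)) p.1)) := funext fun e => hinl x ξ p t e
    rw [e1, Matrix.mulVec_mulVec, bott_mul]
    exact (hinl x ξ p t e).symm)
  -- the kernel
  have hker : (hat (B.map (D.tr i r)) (zz x)).mulVec
      ((hat v' (zz x)).conjTranspose.mulVec (ext0 col ξ)) = 0 := by
    funext w
    obtain ⟨c, p, rfl⟩ := ix_surj E w
    by_cases hp : G p
    · by_cases hc : ∃ q, u q = c
      · obtain ⟨⟨t, e⟩, rfl⟩ := hc
        have h7 := congrFun hTx (Sum.inl ((⟨p, hp⟩, t), e))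
        rw [hTf] at h7
        exact h7
      · push Not at hc
        have h8 := hblk x ⟨p, hp⟩
        rw [row h1, h8]
        exact bottE_zero u _ _ c hc
    · have h7 := congrFun hTx (Sum.inr (⟨p, hp⟩, c))
      rw [hTf] at h7
      exact h7
  have hXe : (hat (X.map (D.tr i r)) (zz x)).mulVec (ext0 col ξ) = ext0 col ξ := by
    funext w
    obtain ⟨c, p, rfl⟩ := ix_surj E w
    rw [row h1, hX, hat_cp, Matrix.mulVec_diagonal]
    by_cases h0 : ext0 col ξ (ix E c p) = 0
    · rw [h0, mul_zero]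
    · obtain ⟨w, hw⟩ := ext0_ne h0
      obtain ⟨g1, g2⟩ := ix_inj E hw
      have e1 : l w.1.1 (zz x) = ⟨b, ι fun t => x (w.1, t)⟩ := hFl _ w.1
      rw [if_pos, one_mul]
      rw [← g2, e1, ← g1, hκ]
      show (w.2 : ℕ) < if b = b then k else 0
      rw [if_pos rfl]
      exact w.2.isLt
  have hQe : (hat Q (zz x)).mulVec (ext0 col ξ) = - ext0 col ξ := by
    show (hat (v' * B.map (D.tr i r) * star v' - X.map (D.tr i r)) (zz x)).mulVec _ = _
    rw [hat_sub, hat_mul, hat_mul, hat_star, Matrix.sub_mulVec, hXe, Matrix.mul_assoc,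
      ← Matrix.mulVec_mulVec, ← Matrix.mulVec_mulVec, hker, Matrix.mulVec_zero, zero_sub]
  have hnm := nm_hat_le Q (zz x) hQ (ext0 col ξ)
  rw [hQe, nm_neg] at hnm
  have hnn : 0 ≤ nm (ext0 col ξ) := Finset.sum_nonneg fun _ _ => norm_nonneg _
  have hM : (M : ℝ) * (1 / (2 * (M + 1)) * nm (ext0 col ξ)) ≤ 1 / 2 * nm (ext0 col ξ) := by
    have h9 : (M : ℝ) * (1 / (2 * (M + 1))) ≤ 1 / 2 := by
      rw [mul_one_div, div_le_div_iff₀ (by positivity) (by norm_num)]
      linarith
    calc (M : ℝ) * (1 / (2 * (M + 1)) * nm (ext0 col ξ)) =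
          (M * (1 / (2 * (M + 1)))) * nm (ext0 col ξ) := by ring
      _ ≤ 1 / 2 * nm (ext0 col ξ) := mul_le_mul_of_nonneg_right h9 hnn
  have hz := nm_eq_zero (ξ := ext0 col ξ) (by linarith)
  apply hξ
  funext w
  rw [← ext0_col hcol ξ w, hz]
  rfl

end Pool.Agent.H935.ELCORE
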