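import Pool.Agent.H283.HT.Stm

/-!
# HORB (project HT of helper283): horizontal lights, case B
-/

set_option autoImplicit false

namespace Pool.Agent.H935.HTHORB

open Pool.Agent.H283.HT

theorem exists_gt {Q : Set P2} {q : P2} (hq : q ∈ interior Q) : ∃ t : ℝ, 1 < t ∧ t • q ∈ Q := by
  have hc : Continuous (fun t : ℝ => t • q) := by fun_prop
  have h0 : interior Q ∈ nhds ((1 : ℝ) • q) := by
    rw [one_smul]; exact isOpen_interior.mem_nhds hq
  have h1 : ∀ᶠ t in nhds (1 : ℝ), t • q ∈ interior Q := hc.continuousAt.eventually h0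
  obtain ⟨ε, hε, h⟩ := Metric.eventually_nhds_iff.1 h1
  refine ⟨1 + ε / 2, by linarith, interior_subset (h ?_)⟩
  rw [Real.dist_eq, show (1 + ε / 2 - 1) = ε / 2 by ring, abs_of_pos (by linarith)]
  linarith

theorem int_smul {Q : Set P2} (hI : ∀ p ∈ Q, ∀ c : ℝ, |c| < 1 → c • p ∈ interior Q) {q : P2}
    (hq : q ∈ interior Q) {c : ℝ} (hc : |c| ≤ 1) : c • q ∈ interior Q := by
  obtain ⟨t, ht, hm⟩ := exists_gt hq
  have ht0 : 0 < t := by linarith
  have h1 : c • q = (c / t) • (t • q) := by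
    rw [smul_smul, div_mul_cancel₀ _ ht0.ne']
  rw [h1]
  refine hI _ hm _ ?_
  rw [abs_div, abs_of_pos ht0, div_lt_one ht0]
  linarith

theorem comb {Q : Set P2} (hQ : Disc Q)
    (hI : ∀ p ∈ Q, ∀ c : ℝ, |c| < 1 → c • p ∈ interior Q) {a b : P2} (ha : a ∈ Q) (hb : b ∈ Q)
    {α β : ℝ} (h : |α| + |β| < 1) : α • a + β • b ∈ interior Q := by
  have hz : (0 : P2) ∈ Q := interior_subset hQ.zero
  have hsg : ∀ (v : P2), v ∈ Q → ∀ γ : ℝ, ∃ v' ∈ Q, γ • v = |γ| • v' := by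
    intro v hv γ
    rcases le_total 0 γ with hγ | hγ
    · exact ⟨v, hv, by rw [abs_of_nonneg hγ]⟩
    · exact ⟨-v, hQ.sym v hv, by rw [abs_of_nonpos hγ, neg_smul_neg]⟩
  obtain ⟨a', ha', h1⟩ := hsg a ha α
  obtain ⟨b', hb', h2⟩ := hsg b hb β
  rw [h1, h2]
  have hα := abs_nonneg α
  have hβ := abs_nonneg β
  rcases eq_or_lt_of_le (add_nonneg hα hβ) with ht | ht
  · have h3 : |α| = 0 := by linarith
    have h4 : |β| = 0 := by linarith
    rw [h3, h4, zero_smul, zero_smul, add_zero]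
    exact hQ.zero
  · have h3 : |α| • a' + |β| • b' = (|α| + |β|) •
        ((|α| / (|α| + |β|)) • a' + (|β| / (|α| + |β|)) • b') := by
      rw [smul_add, smul_smul, smul_smul, mul_div_cancel₀ _ ht.ne', mul_div_cancel₀ _ ht.ne']
    rw [h3]
    refine hI _ (hQ.conv ha' hb' (by positivity) (by positivity) ?_) _ ?_
    · rw [← add_div, div_self ht.ne']
    · rw [abs_of_pos ht]; exact h

theorem lev {K : Set P3} (hK : Body K) {a : P2} {z : ℝ} (ha : ((a, z) : P3) ∈ K) {c : ℝ}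
    (hc : |c| ≤ 1) : ((c • a, z) : P3) ∈ K := by
  have h1 : (((-a : P2), z) : P3) ∈ K := hK.sym _ ha
  rw [abs_le] at hc
  have h2 := hK.conv ha h1 (by linarith [hc.1] : (0 : ℝ) ≤ (1 + c) / 2)
    (by linarith [hc.2] : (0 : ℝ) ≤ (1 - c) / 2) (by ring)
  have h3 : ((1 + c) / 2) • ((a, z) : P3) + ((1 - c) / 2) • (((-a : P2), z) : P3) =
      ((c • a, z) : P3) := by
    refine Prod.ext (Prod.ext ?_ ?_) ?_
    · simp only [Prod.smul_fst, Prod.fst_add, Prod.fst_neg, smul_eq_mul]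
      ring
    · simp only [Prod.smul_fst, Prod.fst_add, Prod.snd_add, Prod.snd_neg, Prod.smul_snd,
        smul_eq_mul]
      ring
    · simp only [Prod.snd_add, Prod.smul_snd, smul_eq_mul]
      ring
  rwa [h3] at h2

/-- one quadrant -/
theorem quad (hLIGHT : S_LIGHT) {K : Set P3} (hK : Body K) (hQ : Disc (Sh K))
    (hI : ∀ p ∈ Sh K, ∀ c : ℝ, |c| < 1 → c • p ∈ interior (Sh K)) {a b : P2}
    (ha : ((a, (1 : ℝ)) : P3) ∈ K) (hb : ((b, (-1 : ℝ)) : P3) ∈ K)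
    (hai : a ∉ interior (Sh K)) (hbi : b ∉ interior (Sh K))
    (hp : (1 / 2 : ℝ) • (a + b) ∈ interior (Sh K)) (hm : (1 / 2 : ℝ) • (a - b) ∈ interior (Sh K))
    {y₁ y₂ z : ℝ} (hy₁ : 0 ≤ y₁) (hy₂ : 0 ≤ y₂)
    (hx : ((y₁ • a + y₂ • b, z) : P3) ∈ K) (hz : -1 < z) (hz' : z < 1) :
    ((-(a + b), (0 : ℝ)) : P3) ∈ C K (y₁ • a + y₂ • b, z) := by
  have haQ : a ∈ Sh K := ⟨_, ha, rfl⟩
  have hbQ : b ∈ Sh K := ⟨_, hb, rfl⟩
  have hxQ : y₁ • a + y₂ • b ∈ Sh K := ⟨_, hx, rfl⟩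
  have h1 : y₁ ≤ 1 + y₂ := by
    by_contra hcon
    push Not at hcon
    have hy : 0 < y₁ := by linarith
    apply hai
    have h2 : a = y₁⁻¹ • (y₁ • a + y₂ • b) + (-(y₂ / y₁)) • b := by
      rw [smul_add, smul_smul, smul_smul, inv_mul_cancel₀ hy.ne', one_smul, add_assoc, ← add_smul]
      have : y₁⁻¹ * y₂ + -(y₂ / y₁) = 0 := by rw [div_eq_inv_mul]; ring
      rw [this, zero_smul, add_zero]
    rw [h2]
    refine comb hQ hI hxQ hbQ ?_
    rw [abs_neg, abs_of_pos (inv_pos.2 hy), abs_of_nonneg (by positivity), inv_eq_one_div,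
      ← add_div, div_lt_one hy]
    exact hcon
  have h2 : y₂ ≤ 1 + y₁ := by
    by_contra hcon
    push Not at hcon
    have hy : 0 < y₂ := by linarith
    apply hbi
    have h2 : b = y₂⁻¹ • (y₁ • a + y₂ • b) + (-(y₁ / y₂)) • a := by
      rw [add_comm (y₁ • a), smul_add, smul_smul, smul_smul, inv_mul_cancel₀ hy.ne', one_smul,
        add_assoc, ← add_smul]
      have : y₂⁻¹ * y₁ + -(y₁ / y₂) = 0 := by rw [div_eq_inv_mul]; ring
      rw [this, zero_smul, add_zero]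
    rw [h2]
    refine comb hQ hI hxQ haQ ?_
    rw [abs_neg, abs_of_pos (inv_pos.2 hy), abs_of_nonneg (by positivity), inv_eq_one_div,
      ← add_div, div_lt_one hy]
    exact hcon
  have h3 : |y₁ - y₂| ≤ 1 := by
    rw [abs_le]; constructor <;> linarith
  have h3' : |y₂ - y₁| ≤ 1 := by
    rw [abs_le]; constructor <;> linarith
  have e1 : (y₁ • a + y₂ • b) + y₂ • (-(a + b)) = (y₁ - y₂) • a := by module
  have e2 : (y₁ • a + y₂ • b) + y₁ • (-(a + b)) = (y₂ - y₁) • b := by module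
  have e0 : (y₁ • a + y₂ • b) + ((y₁ + y₂) / 2) • (-(a + b)) =
      (y₁ - y₂) • ((1 / 2 : ℝ) • (a - b)) := by module
  have k1 : (((y₁ • a + y₂ • b) + y₂ • (-(a + b)), (1 : ℝ)) : P3) ∈ K := by
    rw [e1]; exact lev hK ha h3
  have k2 : (((y₁ • a + y₂ • b) + y₁ • (-(a + b)), (-1 : ℝ)) : P3) ∈ K := by
    rw [e2]; exact lev hK hb h3'
  obtain ⟨s₀, hs₀, hs₀'⟩ : ∃ s₀ : ℝ, 0 < s₀ ∧
      (y₁ • a + y₂ • b) + s₀ • (-(a + b)) ∈ interior (Sh K) := by
    rcases eq_or_lt_of_le (add_nonneg hy₁ hy₂) with hs | hs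
    · have h4 : y₁ = 0 := by linarith
      have h5 : y₂ = 0 := by linarith
      refine ⟨1 / 2, by norm_num, ?_⟩
      have h6 : (y₁ • a + y₂ • b) + (1 / 2 : ℝ) • (-(a + b)) =
          (-1 : ℝ) • ((1 / 2 : ℝ) • (a + b)) := by
        rw [h4, h5]; module
      rw [h6]
      exact int_smul hI hp (by norm_num)
    · refine ⟨(y₁ + y₂) / 2, by linarith, ?_⟩
      rw [e0]
      exact int_smul hI hm h3
  exact hLIGHT K hK (y₁ • a + y₂ • b) (-(a + b)) z 0 s₀ y₂ 1 y₁ (-1) hx hs₀ hs₀' hy₂ k1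
    (by linarith) hy₁ k2 (by linarith)

theorem HORB_done (hSH : S_SH) (hDI : S_DI) (hLIGHT : S_LIGHT) (hRC : S_RC) : S_HORB := by
  intro K hK p₀ p₁ h₀ h₁ hi₀ hi₁ hp hm
  have hQ := (hSH K hK).1
  have hI := (hDI (Sh K) hQ).1
  have hneg : ∀ v : P2, -v ∈ interior (Sh K) → v ∈ interior (Sh K) := by
    intro v hv
    have := int_smul hI hv (c := -1) (by norm_num)
    rwa [neg_smul, one_smul, neg_neg] at this
  have q₀ : p₀ ∈ Sh K := ⟨_, h₀, rfl⟩
  have q₁ : p₁ ∈ Sh K := ⟨_, h₁, rfl⟩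
  have h₀' : (((-p₀ : P2), (1 : ℝ)) : P3) ∈ K := hK.sym _ h₀
  have h₁' : (((-p₁ : P2), (-1 : ℝ)) : P3) ∈ K := hK.sym _ h₁
  have hne : p₀ ≠ 0 := by
    rintro rfl
    exact hi₀ hQ.zero
  -- the determinant
  have hdet : det p₀ p₁ ≠ 0 := by
    intro h
    obtain ⟨c, hc⟩ : ∃ c : ℝ, p₁ = c • p₀ := by
      unfold det at h
      by_cases hx : p₀.1 = 0
      · have hy : p₀.2 ≠ 0 := fun hy => hne (Prod.ext hx hy)
        refine ⟨p₁.2 / p₀.2, Prod.ext ?_ ?_⟩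
        · rw [hx] at h
          have : p₁.1 = 0 := by
            have h2 : p₀.2 * p₁.1 = 0 := by linarith
            exact (mul_eq_zero.1 h2).resolve_left hy
          rw [this, Prod.smul_fst, hx, smul_zero]
        · rw [Prod.smul_snd, smul_eq_mul, div_mul_cancel₀ _ hy]
      · refine ⟨p₁.1 / p₀.1, Prod.ext ?_ ?_⟩
        · rw [Prod.smul_fst, smul_eq_mul, div_mul_cancel₀ _ hx]
        · rw [Prod.smul_snd, smul_eq_mul, div_mul_eq_mul_div, eq_div_iff hx]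
          linarith
    rcases lt_trichotomy |c| 1 with h1 | h1 | h1
    · exact hi₁ (by rw [hc]; exact hI _ q₀ _ h1)
    · rcases eq_or_eq_neg_of_abs_eq h1 with h2 | h2
      · apply hi₀
        have h3 : (1 / 2 : ℝ) • (p₀ + p₁) = p₀ := by rw [hc, h2]; module
        rwa [h3] at hp
      · apply hi₀
        have h3 : (1 / 2 : ℝ) • (p₀ - p₁) = p₀ := by rw [hc, h2]; module
        rwa [h3] at hm
    · have hc0 : c ≠ 0 := by
        rintro rfl
        rw [abs_zero] at h1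
        linarith
      apply hi₀
      have h3 : p₀ = c⁻¹ • p₁ := by rw [hc, smul_smul, inv_mul_cancel₀ hc0, one_smul]
      rw [h3]
      refine hI _ q₁ _ ?_
      rw [abs_inv]
      exact inv_lt_one_of_one_lt₀ h1
  -- negatives
  have hp' : (1 / 2 : ℝ) • (-p₀ + -p₁) ∈ interior (Sh K) := by
    have h3 : (1 / 2 : ℝ) • (-p₀ + -p₁) = -((1 / 2 : ℝ) • (p₀ + p₁)) := by module
    rw [h3]
    exact hneg _ (by rwa [neg_neg])
  have hm' : (1 / 2 : ℝ) • (-p₀ - -p₁) ∈ interior (Sh K) := by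
    have h3 : (1 / 2 : ℝ) • (-p₀ - -p₁) = -((1 / 2 : ℝ) • (p₀ - p₁)) := by module
    rw [h3]
    exact hneg _ (by rwa [neg_neg])
  have hni₀ : -p₀ ∉ interior (Sh K) := fun h => hi₀ (hneg _ h)
  have hni₁ : -p₁ ∉ interior (Sh K) := fun h => hi₁ (hneg _ h)
  refine ⟨-(p₀ + p₁), p₀ - p₁, ?_⟩
  rintro ⟨p, z⟩ hx hz hz'
  left
  obtain ⟨x₁, x₂, hpx⟩ : ∃ x₁ x₂ : ℝ, p = x₁ • p₀ + x₂ • p₁ := by
    refine ⟨det p p₁ / det p₀ p₁, det p₀ p / det p₀ p₁, ?_⟩
    refine Prod.ext ?_ ?_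
    · simp only [Prod.fst_add, Prod.smul_fst, smul_eq_mul]
      field_simp
      unfold det
      ring
    · simp only [Prod.snd_add, Prod.smul_snd, smul_eq_mul]
      field_simp
      unfold det
      ring
  rcases le_total 0 x₁ with hx₁ | hx₁ <;> rcases le_total 0 x₂ with hx₂ | hx₂
  · left
    rw [hpx] at hx ⊢
    exact quad hLIGHT hK hQ hI h₀ h₁ hi₀ hi₁ hp hm hx₁ hx₂ hx hz hz'
  · right; right; right
    have e : p = x₁ • p₀ + (-x₂) • (-p₁) := by rw [hpx]; module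
    rw [e] at hx ⊢
    have h := quad hLIGHT hK hQ hI h₀ h₁' hi₀ hni₁ (by rwa [← sub_eq_add_neg])
      (by rwa [sub_neg_eq_add]) hx₁ (neg_nonneg.2 hx₂) hx hz hz'
    rwa [← sub_eq_add_neg] at h
  · right; right; left
    have e : p = (-x₁) • (-p₀) + x₂ • p₁ := by rw [hpx]; module
    rw [e] at hx ⊢
    have h := quad hLIGHT hK hQ hI h₀' h₁ hni₀ hi₁ (by rwa [sub_neg_eq_add] at hm')
      (by rwa [← sub_eq_add_neg] at hp') (neg_nonneg.2 hx₁) hx₂ hx hz hz'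
    have e2 : -(-p₀ + p₁) = p₀ - p₁ := by module
    rwa [e2] at h
  · right; left
    have e : p = (-x₁) • (-p₀) + (-x₂) • (-p₁) := by rw [hpx]; module
    rw [e] at hx ⊢
    have h := quad hLIGHT hK hQ hI h₀' h₁' hni₀ hni₁ hp' hm' (neg_nonneg.2 hx₁)
      (neg_nonneg.2 hx₂) hx hz hz'
    have e2 : -(-p₀ + -p₁) = - -(p₀ + p₁) := by module
    rwa [e2] at h

end Pool.Agent.H935.HTHORB
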