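import Pool.Agent.H666.TK.SpecC

/-!
# Removal of pair factors (statement `S_mrem` of helper666)
-/

set_option autoImplicit false

open Finset
open scoped Classical

namespace Pool.Agent.H935.TKmrem

open Pool.Agent.H666.TK

/-- A factor `s (u j)` of mean zero kills the sum if the rest does not depend on coordinate `j`. -/
lemma sum_kill (K R : ℕ) (s : Fin R → ℝ) (hs : ∑ r, s r = 0) (j : Fin K)
    (Ψ : (Fin K → Fin R) → ℝ) (hΨ : ∀ u r, Ψ (Function.update u j r) = Ψ u) :
    ∑ u : Fin K → Fin R, s (u j) * Ψ u = 0 := by
  rw [← Equiv.sum_comp (Equiv.funSplitAt j (Fin R)).symm, Fintype.sum_prod_type_right]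
  refine Finset.sum_eq_zero fun w _ => ?_
  have h1 : ∀ r : Fin R, (Equiv.funSplitAt j (Fin R)).symm (r, w) j = r := by
    intro r
    simp
  have h2 : ∀ r r' : Fin R, Ψ ((Equiv.funSplitAt j (Fin R)).symm (r, w)) =
      Ψ ((Equiv.funSplitAt j (Fin R)).symm (r', w)) := by
    intro r r'
    rw [← hΨ ((Equiv.funSplitAt j (Fin R)).symm (r', w)) r]
    congr 1
    funext i
    by_cases hi : i = j
    · subst hi
      rw [h1, Function.update_self]
    · rw [Function.update_of_ne hi]
      simp [hi]
  rcases isEmpty_or_nonempty (Fin R) with h | ⟨⟨r0⟩⟩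
  · simp
  · calc ∑ r : Fin R, s ((Equiv.funSplitAt j (Fin R)).symm (r, w) j) *
          Ψ ((Equiv.funSplitAt j (Fin R)).symm (r, w))
        = ∑ r : Fin R, s r * Ψ ((Equiv.funSplitAt j (Fin R)).symm (r0, w)) := by
          refine Finset.sum_congr rfl fun r _ => ?_
          rw [h1, h2 r r0]
      _ = 0 := by rw [← Finset.sum_mul, hs, zero_mul]

theorem mrem : Pool.Agent.H666.TK.S_mrem := by
  intro K R p θ s hs a b hab T
  have hane : ∀ l l', l ≠ l' → a l ≠ a l' := by
    intro l l' h h'
    have : (Sum.inl l : Fin p ⊕ Fin p) = Sum.inl l' := hab (by simpa using h')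
    exact h (Sum.inl.inj this)
  have hbne : ∀ l l', l ≠ l' → b l ≠ b l' := by
    intro l l' h h'
    have : (Sum.inr l : Fin p ⊕ Fin p) = Sum.inr l' := hab (by simpa using h')
    exact h (Sum.inr.inj this)
  have habne : ∀ l l', a l ≠ b l' := by
    intro l l' h'
    have : (Sum.inl l : Fin p ⊕ Fin p) = Sum.inr l' := hab (by simpa using h')
    exact Sum.inl_ne_inr this
  induction T using Finset.induction_on with
  | empty =>
    intro F _
    simp
  | insert l T hl ih =>
    intro F hF
    have hIH := ih F (fun l' hl' => hF l' (Finset.mem_insert_of_mem hl'))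
    have hne : ∀ l' ∈ T, l' ≠ l := fun l' hl' h => hl (h ▸ hl')
    have hsplit : ∑ u : Fin K → Fin R,
        (∏ l' ∈ insert l T, (1 + θ * s (u (a l')) * s (u (b l')))) * F u =
        ∑ u : Fin K → Fin R, (∏ l' ∈ T, (1 + θ * s (u (a l')) * s (u (b l')))) * F u +
        θ * ∑ u : Fin K → Fin R, s (u (a l)) * (s (u (b l)) *
          ((∏ l' ∈ T, (1 + θ * s (u (a l')) * s (u (b l')))) * F u)) := by
      rw [Finset.mul_sum, ← Finset.sum_add_distrib]
      refine Finset.sum_congr rfl fun u _ => ?_
      rw [Finset.prod_insert hl]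
      ring
    rw [hsplit, hIH]
    have hzero : ∑ u : Fin K → Fin R, s (u (a l)) * (s (u (b l)) *
          ((∏ l' ∈ T, (1 + θ * s (u (a l')) * s (u (b l')))) * F u)) = 0 := by
      rcases hF l (Finset.mem_insert_self l T) with h | h
      · refine sum_kill K R s hs (a l) (fun u => s (u (b l)) *
          ((∏ l' ∈ T, (1 + θ * s (u (a l')) * s (u (b l')))) * F u)) ?_
        intro u r
        have h1 : Function.update u (a l) r (b l) = u (b l) :=
          Function.update_of_ne (habne l l).symm _ _
        have h2 : ∏ l' ∈ T, (1 + θ * s (Function.update u (a l) r (a l')) *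
            s (Function.update u (a l) r (b l'))) =
            ∏ l' ∈ T, (1 + θ * s (u (a l')) * s (u (b l'))) := by
          refine Finset.prod_congr rfl fun l' hl' => ?_
          rw [Function.update_of_ne (hane l' l (hne l' hl')),
            Function.update_of_ne (habne l l').symm]
        rw [h1, h2, h]
      · have hcomm : ∀ u : Fin K → Fin R, s (u (a l)) * (s (u (b l)) *
            ((∏ l' ∈ T, (1 + θ * s (u (a l')) * s (u (b l')))) * F u)) =
            s (u (b l)) * (s (u (a l)) *
            ((∏ l' ∈ T, (1 + θ * s (u (a l')) * s (u (b l')))) * F u)) := by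
          intro u
          ring
        rw [Finset.sum_congr rfl fun u _ => hcomm u]
        refine sum_kill K R s hs (b l) (fun u => s (u (a l)) *
          ((∏ l' ∈ T, (1 + θ * s (u (a l')) * s (u (b l')))) * F u)) ?_
        intro u r
        have h1 : Function.update u (b l) r (a l) = u (a l) :=
          Function.update_of_ne (habne l l) _ _
        have h2 : ∏ l' ∈ T, (1 + θ * s (Function.update u (b l) r (a l')) *
            s (Function.update u (b l) r (b l'))) =
            ∏ l' ∈ T, (1 + θ * s (u (a l')) * s (u (b l'))) := by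
          refine Finset.prod_congr rfl fun l' hl' => ?_
          rw [Function.update_of_ne (hbne l' l (hne l' hl')),
            Function.update_of_ne (habne l' l)]
        rw [h1, h2, h]
    rw [hzero, mul_zero, add_zero]

end Pool.Agent.H935.TKmrem
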