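import Pool.Agent.H683.SC.PStm

/-!
# The parameters can be computed in unary in polynomial time
-/

set_option autoImplicit false

namespace Pool.Agent.NPC.H935SC

open Turing Pool.Agent.NPC Pool.Agent.H633R2 Pool.Agent.H683.MC Pool.Agent.H683.SC

theorem log_eq_size (n : ℕ) : Nat.log 2 n = n.size - 1 := by
  rcases Nat.eq_zero_or_pos n with rfl | hn
  · simp
  · have hs : 0 < n.size := Nat.size_pos.2 hn
    have h1 : n < 2 ^ n.size := Nat.lt_size_self n
    have h2 : 2 ^ (n.size - 1) ≤ n := Nat.lt_size.1 (by omega)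
    have h3 := Nat.log_lt_of_lt_pow (b := 2) hn.ne' h1
    have h4 := Nat.le_log_of_pow_le (b := 2) (by norm_num) h2
    omega

theorem poly_len : Poly (fun F : Cnf => F.length) := Poly.length Poly.id

theorem uPoly_len : UPoly (fun F : Cnf => F.length) := UPoly.length Poly.id

theorem uPoly_size : UPoly (fun F : Cnf => F.length.size) := by
  have h := UPoly.length (l := fun F : Cnf => F.length.bits) (Poly.natBits poly_len)
  refine Poly.congr h fun F => ?_
  change List.replicate (List.length F).bits.length () = List.replicate (List.length F).size ()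
  rw [Nat.size_eq_bits_len]

theorem poly_sOf : Poly sOf := by
  have h : Poly (fun F : Cnf => (F.length.size - 1) / 6 + 1) :=
    Poly.succ (Poly.div (Poly.sub uPoly_size.toPoly (Poly.const 1)) (Poly.const 6))
  refine h.congr fun F => ?_
  unfold sOf
  rw [log_eq_size]

theorem sOf_le (F : Cnf) : sOf F ≤ F.length + 1 := by
  unfold sOf
  have h1 : Nat.log 2 F.length ≤ F.length := Nat.log_le_self _ _
  omega

theorem uPoly_sOf : UPoly sOf :=
  UPoly.of_le poly_sOf (UPoly.add uPoly_len (UPoly.const 1)) sOf_le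

theorem poly_KOf : Poly KOf := by
  have h1 : Poly (fun F : Cnf => List.replicate (3 * sOf F) ()) :=
    UPoly.mul (UPoly.const 3) uPoly_sOf
  have h2 : Poly (fun F : Cnf => (List.replicate (3 * sOf F) ()).map (fun _ => false)) :=
    Poly.map (l := fun F : Cnf => List.replicate (3 * sOf F) ()) (F := fun _ _ => false) h1
      (Poly.const false)
  have h3 : Poly (fun F : Cnf =>
      valB ((List.replicate (3 * sOf F) ()).map (fun _ => false) ++ [true])) :=
    Poly.valBits (Poly.append h2 (Poly.const [true]))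
  refine h3.congr fun F => ?_
  rw [List.map_replicate, valB_replicate_false, if_pos rfl, mul_one]
  rfl

theorem KOf_le (F : Cnf) : KOf F ≤ 8 * (F.length + 1) := by
  unfold KOf sOf
  have h1 : 3 * (Nat.log 2 F.length / 6 + 1) ≤ Nat.log 2 F.length + 3 := by omega
  have h2 : 2 ^ (Nat.log 2 F.length) ≤ F.length + 1 := by
    rcases Nat.eq_zero_or_pos F.length with h | h
    · rw [h]
      simp
    · exact (Nat.pow_log_le_self 2 h.ne').trans (Nat.le_succ _)
  calc 2 ^ (3 * (Nat.log 2 F.length / 6 + 1)) ≤ 2 ^ (Nat.log 2 F.length + 3) :=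
        Nat.pow_le_pow_right (by norm_num) h1
    _ = 8 * 2 ^ (Nat.log 2 F.length) := by rw [pow_add]; ring
    _ ≤ 8 * (F.length + 1) := Nat.mul_le_mul_left 8 h2

theorem PPAR : S_PPAR := by
  refine ⟨UPoly.of_le poly_KOf
    (UPoly.mul (UPoly.const 8) (UPoly.add uPoly_len (UPoly.const 1))) KOf_le, ?_⟩
  refine UPoly.of_le (n := fun F : Cnf => F.length + 1) ?_
    (UPoly.add uPoly_len (UPoly.const 1)) fun F => ?_
  · exact Poly.succ (Poly.div poly_len poly_sOf)
  · unfold gOf
    exact Nat.add_le_add_right (Nat.div_le_self _ _) 1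

end Pool.Agent.NPC.H935SC
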