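import Pool.Agent.H770.GS.TE
import Pool.Agent.H770.GS.TA3

/-! Project TE (helper770), task TE4 (helper935): below the cut. -/

set_option autoImplicit false

open MeasureTheory Set intervalIntegral Filter Topology

namespace Pool.Agent.H935.TEDlow

open Pool.Agent.Helper82.GC Pool.Agent.H770.GS

/-! ### the kernel on the left -/

theorem W_sub (a w : ℝ) : W (a - w) = W a * W w * Real.exp (w * a) := by
  unfold W
  rw [← Real.exp_add, ← Real.exp_add]
  congr 1
  ring

theorem W_add (a w : ℝ) : W (a + w) = W a * W w * Real.exp (-(w * a)) := by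
  unfold W
  rw [← Real.exp_add, ← Real.exp_add]
  congr 1
  ring

theorem NL_eq (w a : ℝ) : NL w a =
    2 * W w * W a * (w * a * Real.cosh (w * a) - Real.sinh (w * a)) := by
  unfold NL
  rw [W_sub, W_add, Real.cosh_eq, Real.sinh_eq]
  ring

theorem hyp_lo {z : ℝ} (hz : 0 ≤ z) : z ^ 3 / 3 ≤ z * Real.cosh z - Real.sinh z := by
  have hd : ∀ x : ℝ, HasDerivAt (fun x : ℝ => x * Real.cosh x - Real.sinh x - x ^ 3 / 3)
      (x * (Real.sinh x - x)) x := by
    intro x
    have h1 := (((hasDerivAt_id x).mul (Real.hasDerivAt_cosh x)).sub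
      (Real.hasDerivAt_sinh x)).sub (((hasDerivAt_id x).pow 3).div_const 3)
    refine h1.congr_deriv ?_
    simp only [id]
    push_cast
    ring
  have hm : MonotoneOn (fun x : ℝ => x * Real.cosh x - Real.sinh x - x ^ 3 / 3) (Icc 0 z) := by
    refine monotoneOn_of_deriv_nonneg (convex_Icc _ _) ?_ ?_ ?_
    · exact fun x _ => (hd x).continuousAt.continuousWithinAt
    · exact fun x _ => (hd x).differentiableAt.differentiableWithinAt
    · intro x hx
      rw [interior_Icc] at hx
      rw [(hd x).deriv]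
      exact mul_nonneg hx.1.le (sub_nonneg.2 (Real.self_le_sinh_iff.2 hx.1.le))
  have h := hm (left_mem_Icc.2 hz) (right_mem_Icc.2 hz) hz
  simp only [Real.sinh_zero] at h
  norm_num at h
  linarith

theorem hyp_up {z : ℝ} (hz : 0 ≤ z) (hz1 : z ≤ 1) : z * Real.cosh z - Real.sinh z ≤ z ^ 2 := by
  have h1 := Real.self_le_sinh_iff.2 hz
  have h2 := abs_le.1 (Real.abs_exp_sub_one_sub_id_le (abs_le.2 ⟨by linarith, hz1⟩ : |z| ≤ 1))
  have h3 := abs_le.1 (Real.abs_exp_sub_one_sub_id_le
    (by rw [abs_neg]; exact abs_le.2 ⟨by linarith, hz1⟩ : |(-z)| ≤ 1))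
  have h4 : Real.cosh z - 1 ≤ z ^ 2 := by
    rw [Real.cosh_eq]
    have := h2.2
    have := h3.2
    nlinarith
  nlinarith [sq_nonneg z]

theorem NL_cont (w : ℝ) : Continuous (NL w) := by
  unfold NL
  have h := W_cont
  fun_prop

theorem Mc_nn_int {w r c T : ℝ} (hT : 0 ≤ T) (hw : 0 ≤ w) (hwT : w * T ≤ 1) :
    IntervalIntegrable (fun a => NL w a * (Mc r c a / a ^ 2)) volume 0 T := by
  have hMc := Mc_cont r c
  obtain ⟨M, hM⟩ := (isCompact_Icc (a := (0:ℝ)) (b := T)).exists_bound_of_continuousOn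
    hMc.continuousOn
  have hM0 : 0 ≤ M := (norm_nonneg _).trans (hM 0 (left_mem_Icc.2 hT))
  rw [intervalIntegrable_iff_integrableOn_Ioc_of_le hT]
  refine Measure.integrableOn_of_bounded (M := 2 * w ^ 2 * M) (by simp) ?_ ?_
  · refine Measurable.aestronglyMeasurable ?_
    exact (NL_cont w).measurable.mul (hMc.measurable.div (measurable_id.pow_const 2))
  · refine (ae_restrict_iff' measurableSet_Ioc).2 (Filter.Eventually.of_forall fun a ha => ?_)
    have ha0 : 0 < a := ha.1
    have hz : 0 ≤ w * a := mul_nonneg hw ha0.le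
    have hz1 : w * a ≤ 1 := (mul_le_mul_of_nonneg_left ha.2 hw).trans hwT
    have h1 := hyp_up hz hz1
    have h0 : 0 ≤ w * a * Real.cosh (w * a) - Real.sinh (w * a) :=
      le_trans (by positivity) (hyp_lo hz)
    have h2 : NL w a ≤ 2 * (w * a) ^ 2 := by
      rw [NL_eq]
      have e1 := W_le_one w
      have e2 := W_le_one a
      have e3 := W_pos w
      have e4 := W_pos a
      have e5 : 2 * W w * W a ≤ 2 := by nlinarith
      calc _ ≤ 2 * (w * a * Real.cosh (w * a) - Real.sinh (w * a)) :=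
            mul_le_mul_of_nonneg_right e5 h0
        _ ≤ _ := by linarith
    have h3 : 0 ≤ NL w a := by
      rw [NL_eq]
      have e3 := W_pos w
      have e4 := W_pos a
      positivity
    rw [norm_mul, norm_div, Real.norm_of_nonneg h3, Real.norm_of_nonneg (sq_nonneg a)]
    calc NL w a * (‖Mc r c a‖ / a ^ 2) ≤ 2 * (w * a) ^ 2 * (M / a ^ 2) := by
          refine mul_le_mul h2 ?_ (by positivity) (by positivity)
          exact div_le_div_of_nonneg_right (hM a ⟨ha0.le, ha.2⟩) (by positivity)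
      _ = 2 * w ^ 2 * M := by field_simp

theorem left_bound {r c w T : ℝ} (hT : 0 ≤ T) (hw : 0 ≤ w) (hwT : w * T ≤ 1)
    (hMc : ∀ a ∈ Icc (0:ℝ) T, 0 ≤ Mc r c a) :
    w ^ 3 * (2 / 3 * W w * ∫ a in (0:ℝ)..T, a * Mc r c a * W a) ≤
      ∫ a in (0:ℝ)..T, NL w a * (Mc r c a / a ^ 2) := by
  have e : w ^ 3 * (2 / 3 * W w * ∫ a in (0:ℝ)..T, a * Mc r c a * W a) =
      ∫ a in (0:ℝ)..T, (w ^ 3 * (2 / 3 * W w)) * (a * Mc r c a * W a) := by
    rw [intervalIntegral.integral_const_mul]; ring
  rw [e]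
  have hc1 : Continuous fun a => (w ^ 3 * (2 / 3 * W w)) * (a * Mc r c a * W a) := by
    have h1 := Mc_cont r c
    have h2 := W_cont
    fun_prop
  refine intervalIntegral.integral_mono_on hT (hc1.intervalIntegrable _ _)
    (Mc_nn_int hT hw hwT) fun a ha => ?_
  rcases ha.1.eq_or_lt with h0 | h0
  · rw [← h0]
    simp
  have hz : 0 ≤ w * a := mul_nonneg hw h0.le
  have h1 := hyp_lo hz
  have h2 := hMc a ha
  have h3 : w ^ 3 * (2 / 3 * W w) * (a ^ 3 * W a) ≤ NL w a := by
    rw [NL_eq]
    have e3 := W_pos w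
    have e4 := W_pos a
    have e5 : w ^ 3 * (2 / 3 * W w) * (a ^ 3 * W a) = 2 * W w * W a * ((w * a) ^ 3 / 3) := by ring
    rw [e5]
    exact mul_le_mul_of_nonneg_left h1 (by positivity)
  calc w ^ 3 * (2 / 3 * W w) * (a * Mc r c a * W a) =
        (w ^ 3 * (2 / 3 * W w) * (a ^ 3 * W a)) * (Mc r c a / a ^ 2) := by
        field_simp
    _ ≤ _ := mul_le_mul_of_nonneg_right h3 (by positivity)

/-! ### the kernel on the right -/

theorem NR_end (r w : ℝ) : NR r w (r + w) = w * (r + w) * W r := by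
  unfold NR
  have e1 : w - (r + w) = -r := by ring
  rw [e1, W_even]; ring

theorem NR_le {r w a : ℝ} (hw : 0 < w) (ha : 0 ≤ a) (har : a ≤ r + w) (hrw : r * w ≤ 1) :
    NR r w a ≤ w * (r + w) * W r := by
  rw [← NR_end]
  have hm : MonotoneOn (NR r w) (Icc 0 (r + w)) := by
    refine monotoneOn_of_deriv_nonneg (convex_Icc _ _)
      (Pool.Agent.H597.GScomp.NR_cont r w).continuousOn
      (fun a _ => (Pool.Agent.H597.GScomp.NR_deriv r w a).differentiableAt.differentiableWithinAt)
      ?_
    intro x hx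
    rw [interior_Icc] at hx
    rw [(Pool.Agent.H597.GScomp.NR_deriv r w x).deriv]
    have h2 := W_pos (w - x)
    have h3 : 0 ≤ 1 + w ^ 2 - w * x := by nlinarith [hx.2]
    exact mul_nonneg (mul_nonneg hx.1.le h2.le) h3
  exact hm ⟨ha, har⟩ ⟨ha.trans har, le_rfl⟩ har

theorem W_div_le {r a : ℝ} (hr : 0 < r) (h : r ≤ a) : W a / a ^ 2 ≤ W r / r ^ 2 := by
  have h1 : W a ≤ W r := by
    unfold W
    refine Real.exp_le_exp.2 ?_
    nlinarith
  have h2 : r ^ 2 ≤ a ^ 2 := by nlinarith
  exact div_le_div₀ (W_pos r).le h1 (by positivity) h2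

theorem int_max {r w : ℝ} (hw : 0 < w) :
    ∫ a in (r - w)..(r + w), max 0 (a - r) = w ^ 2 / 2 := by
  have hc : Continuous fun a : ℝ => max 0 (a - r) := by fun_prop
  rw [← intervalIntegral.integral_add_adjacent_intervals (b := r)
    (hc.intervalIntegrable _ _) (hc.intervalIntegrable _ _)]
  have h1 : ∫ a in (r - w)..r, max 0 (a - r) = 0 := by
    rw [intervalIntegral.integral_congr (g := fun _ => (0:ℝ))]
    · simp
    · intro a ha
      rw [uIcc_of_le (by linarith)] at ha
      exact max_eq_left (by linarith [ha.2])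
  have h2 : ∫ a in r..(r + w), max 0 (a - r) = w ^ 2 / 2 := by
    rw [intervalIntegral.integral_congr (g := fun a => a - r)]
    · rw [intervalIntegral.integral_comp_sub_right (fun x => x)]
      rw [integral_id]
      ring
    · intro a ha
      rw [uIcc_of_le (by linarith)] at ha
      exact max_eq_right (by linarith [ha.1])
  rw [h1, h2, zero_add]

theorem right_bound {r c w L : ℝ} (hr : 0 < r) (hw : 0 < w) (hwr : w < r) (hrw : r * w ≤ 1)
    (hL : 0 ≤ L)
    (hm : MonotoneOn (fun a => Mc r c a / W a + L * max 0 (a - r)) (Icc (r - w) (r + w)))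
    (hMc : ∀ a ∈ Icc (r - w) (r + w), 0 ≤ Mc r c a) :
    -(w ^ 3 * ((r + w) * W r ^ 2 * L / (2 * r ^ 2))) ≤
      ∫ a in (r - w)..(r + w), NR r w a * (Mc r c a / a ^ 2) := by
  have hle : r - w ≤ r + w := by linarith
  have hMcc := Mc_cont r c
  have hNR := Pool.Agent.H597.GScomp.NR_cont r w
  have hWc := W_cont
  have hmax : Continuous fun a : ℝ => max 0 (a - r) := by fun_prop
  have ha0 : ∀ a ∈ uIcc (r - w) (r + w), a ^ 2 ≠ 0 := by
    intro a ha
    rw [uIcc_of_le hle] at ha
    have : 0 < a := by linarith [ha.1]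
    positivity
  have h := (taHyp.comp taHyp.i1) r w (fun a => Mc r c a / W a + L * max 0 (a - r)) hw hwr hm
    (fun a ha => add_nonneg (div_nonneg (hMc a ha) (W_pos a).le)
      (mul_nonneg hL (le_max_left _ _)))
    ((hMcc.continuousOn.div hWc.continuousOn fun a _ => (W_pos a).ne').add
      (hmax.continuousOn.const_smul L))
  have i1 : IntervalIntegrable (fun a => NR r w a * (Mc r c a / a ^ 2)) volume (r - w) (r + w) := by
    refine ContinuousOn.intervalIntegrable ?_
    exact hNR.continuousOn.mul (hMcc.continuousOn.div (by fun_prop) ha0)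
  have i2 : IntervalIntegrable (fun a => L * (NR r w a * (max 0 (a - r) * (W a / a ^ 2))))
      volume (r - w) (r + w) := by
    refine ContinuousOn.intervalIntegrable ?_
    refine continuousOn_const.mul (hNR.continuousOn.mul (hmax.continuousOn.mul ?_))
    exact hWc.continuousOn.div (by fun_prop) ha0
  have e1 : (fun a => NR r w a * ((Mc r c a / W a + L * max 0 (a - r)) * W a / a ^ 2)) =
      fun a => NR r w a * (Mc r c a / a ^ 2) +
        L * (NR r w a * (max 0 (a - r) * (W a / a ^ 2))) := by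
    funext a
    have e2 : (Mc r c a / W a + L * max 0 (a - r)) * W a = Mc r c a + L * max 0 (a - r) * W a := by
      rw [add_mul, div_mul_cancel₀ _ (W_pos a).ne']
    rw [e2]
    ring
  have h' : 0 ≤ ∫ a in (r - w)..(r + w),
      (NR r w a * ((Mc r c a / W a + L * max 0 (a - r)) * W a / a ^ 2)) := h
  rw [e1, intervalIntegral.integral_add i1 i2, intervalIntegral.integral_const_mul] at h'
  have i3 : IntervalIntegrable (fun a => NR r w a * (max 0 (a - r) * (W a / a ^ 2)))
      volume (r - w) (r + w) := by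
    refine ContinuousOn.intervalIntegrable ?_
    refine hNR.continuousOn.mul (hmax.continuousOn.mul ?_)
    exact hWc.continuousOn.div (by fun_prop) ha0
  have h2 : ∫ a in (r - w)..(r + w), NR r w a * (max 0 (a - r) * (W a / a ^ 2)) ≤
      w * (r + w) * W r * (W r / r ^ 2) * (w ^ 2 / 2) := by
    rw [← int_max (r := r) hw, ← intervalIntegral.integral_const_mul]
    refine intervalIntegral.integral_mono_on hle i3
      ((continuous_const.mul hmax).intervalIntegrable _ _) fun a ha => ?_
    have hWr := W_pos r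
    have hκ : 0 ≤ w * (r + w) * W r := by positivity
    rcases le_total a r with har | har
    · rw [max_eq_left (by linarith)]
      simp
    · rw [max_eq_right (by linarith)]
      have h3 := NR_le (r := r) hw (by linarith [ha.1]) ha.2 hrw
      have h4 := W_div_le hr har
      have h5 : 0 ≤ W a / a ^ 2 := div_nonneg (W_pos a).le (sq_nonneg a)
      have h6 : 0 ≤ a - r := by linarith
      calc NR r w a * ((a - r) * (W a / a ^ 2)) ≤
            w * (r + w) * W r * ((a - r) * (W a / a ^ 2)) :=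
            mul_le_mul_of_nonneg_right h3 (mul_nonneg h6 h5)
        _ ≤ w * (r + w) * W r * ((a - r) * (W r / r ^ 2)) :=
            mul_le_mul_of_nonneg_left (mul_le_mul_of_nonneg_left h4 h6) hκ
        _ = _ := by ring
  have h7 := mul_le_mul_of_nonneg_left h2 hL
  have e3 : w ^ 3 * ((r + w) * W r ^ 2 * L / (2 * r ^ 2)) =
      L * (w * (r + w) * W r * (W r / r ^ 2) * (w ^ 2 / 2)) := by
    field_simp
  rw [e3]
  linarith

theorem dlow : S_Dlow := by
  intro hDex hshape hgain r c w hr1 hr2 hc1 hc2 hc3 hw hcut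
  have hr : 0 < r := by linarith
  have hc0 : 0 < c := by linarith
  have hw4 : 5 * w ≤ 3 * r - r / 2 := by
    -- `c ≥ 1.4`, so `1.4 (r + w) ≤ 2 r`
    have hc4 : (7 / 5 : ℝ) ≤ c := by nlinarith
    nlinarith
  have hwr : w < r := by linarith
  have hrw : r * w ≤ 1 := by
    have hc4 : (1414 / 1000 : ℝ) ≤ c := by nlinarith
    have h3 : 1414 / 1000 * (r + w) ≤ 2 * r := by nlinarith
    have h4 : w ≤ 586 / 1414 * r := by linarith
    nlinarith
  have hLG : 0 ≤ LG r c := by
    unfold LG
    have := le_max_left 0 (c ^ 2 * (3 * r ^ 2 - 2) - 1 - 4 * r ^ 2)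
    positivity
  have hsh := hshape r c hr1 hr2 hc1 hc2 hc3
  have hend : r + w ≤ 2 * r / c := by
    rw [le_div_iff₀ hc0]; linarith
  have hR := right_bound (r := r) (c := c) (w := w) (L := LG r c) hr hw hwr hrw hLG
    (hsh.1.mono (Icc_subset_Icc (by linarith) hend))
    (fun a ha => hsh.2 a ⟨by linarith [ha.1], ha.2.trans hend⟩)
  have hwT : w * (r - w) ≤ 1 := by nlinarith
  have hLl := left_bound (r := r) (c := c) (w := w) (T := r - w) (by linarith) hw.le hwT
    (fun a ha => hsh.2 a ⟨ha.1, by linarith [ha.2]⟩)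
  have hg := hgain r c w hr1 hr2 hc1 hc2 hc3 hw hcut
  have hg2 := mul_le_mul_of_nonneg_left hg (by positivity : (0:ℝ) ≤ w ^ 3)
  have hD := hDex r c w hr hc0 hw hwr hcut
  linarith

end Pool.Agent.H935.TEDlow
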