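import Pool.Agent.H812.Tm.Spec3

/-!
# Foliation charts from flow boxes (`GFol` from `GBox` and `GUniq`)
-/

set_option autoImplicit false

open Filter Topology Set
open scoped ContDiff
open Pool.Agent.H812.Tm

namespace Pool.Agent.H935.TmGFol

/-- evaluation of a `C1At` field of linear maps at a vector -/
theorem c1At_apply {S : Set (ℝ × ℝ × ℝ)}
    {Q : ℝ × ℝ × ℝ → (ℝ × ℝ × ℝ →L[ℝ] ℝ × ℝ × ℝ)} {p : ℝ × ℝ × ℝ} (h : C1At S Q p)
    (e : ℝ × ℝ × ℝ) : C1At S (fun q => Q q e) p := by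
  obtain ⟨g, hg, hgQ⟩ := h
  refine ⟨fun q => g q e, hg.clm_apply contDiffAt_const, ?_⟩
  filter_upwards [hgQ] with q hq
  rw [hq]

/-- a field which is `C1At` along `S` at `p ∈ S` and nonzero there is nonzero nearby on `S` -/
theorem c1At_ne {S : Set (ℝ × ℝ × ℝ)} {X : ℝ × ℝ × ℝ → ℝ × ℝ × ℝ} {p : ℝ × ℝ × ℝ}
    (h : C1At S X p) (hp : p ∈ S) (hX : X p ≠ 0) : ∀ᶠ q in 𝓝[S] p, X q ≠ 0 := by
  obtain ⟨g, hg, hgX⟩ := h
  have hgp : X p = g p := hgX.self_of_nhdsWithin hp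
  have hc : ContinuousAt g p := hg.continuousAt
  have h1 : ∀ᶠ q in 𝓝 p, g q ≠ 0 := hc.eventually_ne (by rw [← hgp]; exact hX)
  filter_upwards [hgX, h1.filter_mono nhdsWithin_le_nhds] with q hq hq'
  rw [hq]; exact hq'

theorem tGFol (h1 : GBox) (h2 : GUniq) : GFol := by
  intro F hF hreg W V hWF hV hWV Q hQ
  -- the property which defines the charts
  let A : Set (ℝ × ℝ → ℝ × ℝ × ℝ) := {φ | ContDiff ℝ 1 φ ∧ Function.Injective φ ∧
      (∀ z, Function.Injective (fderiv ℝ φ z)) ∧ (∀ z, F (φ z) = 0 ∧ φ z ∈ V) ∧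
      ∀ z, ∃ e, fderiv ℝ φ z (1, 0) = Q (φ z) e}
  -- a vector on which `Q p` does not vanish
  have hex : ∀ p ∈ V, F p = 0 → ∃ e, Q p e ≠ 0 := by
    intro p hp hFp
    by_contra hcon
    push Not at hcon
    exact (hQ p hp hFp).2.1 (ContinuousLinearMap.ext hcon)
  -- horizontal derivatives do not vanish
  have hne : ∀ φ ∈ A, ∀ z, fderiv ℝ φ z (1, 0) ≠ 0 := by
    intro φ hφ z h0
    have := hφ.2.2.1 z (h0.trans (map_zero _).symm)
    exact one_ne_zero (congrArg Prod.fst this)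
  -- the hypothesis on charts in `GUniq`
  have hchart : ∀ φ ∈ A, ∀ w e', Q (φ w) e' ≠ 0 →
      ∀ᶠ w' in 𝓝 w, ∃ c : ℝ, c ≠ 0 ∧ fderiv ℝ φ w' (1, 0) = c • Q (φ w') e' := by
    intro φ hφ w e' he'
    obtain ⟨hFw, hVw⟩ := hφ.2.2.2.1 w
    have hC := c1At_apply (hQ _ hVw hFw).1 e'
    have hev := c1At_ne hC hFw he'
    have ht : Tendsto φ (𝓝 w) (𝓝[{q | F q = 0}] (φ w)) :=
      tendsto_nhdsWithin_iff.2 ⟨hφ.1.continuous.continuousAt,
        Eventually.of_forall fun w' => (hφ.2.2.2.1 w').1⟩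
    filter_upwards [ht.eventually hev] with w' hw'
    obtain ⟨hFw', hVw'⟩ := hφ.2.2.2.1 w'
    obtain ⟨e, he⟩ := hφ.2.2.2.2 w'
    obtain ⟨c, hc⟩ := (hQ _ hVw' hFw').2.2.2 e' e hw'
    refine ⟨c, ?_, he.trans hc⟩
    rintro rfl
    rw [zero_smul] at hc
    exact hne φ hφ w' (he.trans hc)
  -- the main application of `GUniq`
  have key : ∀ ψ ∈ A, ∀ w : ℝ × ℝ, ∀ (γ γ' : ℝ → ℝ × ℝ × ℝ) (I : Set ℝ) (t0 : ℝ),
      I.OrdConnected → t0 ∈ I → γ t0 = ψ w → (∀ t ∈ I, F (γ t) = 0 ∧ γ t ∈ V) →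
      ContinuousOn γ' I → (∀ t ∈ I, HasDerivWithinAt γ (γ' t) I t) →
      (∀ t ∈ I, ∃ e, γ' t = Q (γ t) e) →
      ∃ ε > 0, ∀ s ∈ I, |s - t0| < ε → ∃ w' : ℝ × ℝ, ψ w' = γ s ∧ w'.2 = w.2 := by
    intro ψ hψ w γ γ' I t0 hI ht0 hγ0 hγS hγ' hd he
    obtain ⟨hFw, hVw⟩ := hψ.2.2.2.1 w
    obtain ⟨e', he'⟩ := hex _ hVw hFw
    have hC := c1At_apply (hQ _ hVw hFw).1 e'
    have hev := c1At_ne hC hFw he'
    refine h2 {q | F q = 0} (ψ w) (fun q => Q q e') hC he' ψ w hψ.1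
      (fun w' => (hψ.2.2.2.1 w').1) rfl (hchart ψ hψ w e' he') γ γ' I t0 hI ht0 hγ0
      (fun t ht => (hγS t ht).1) hγ' hd ?_
    have ht : Tendsto γ (𝓝[I] t0) (𝓝[{q | F q = 0}] (ψ w)) := by
      rw [← hγ0]
      exact tendsto_nhdsWithin_iff.2 ⟨(hd t0 ht0).continuousWithinAt,
        eventually_nhdsWithin_of_forall fun t ht => (hγS t ht).1⟩
    filter_upwards [ht.eventually hev, self_mem_nhdsWithin] with t ht hIt
    obtain ⟨hFt, hVt⟩ := hγS t hIt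
    obtain ⟨e, hee⟩ := he t hIt
    obtain ⟨c, hc⟩ := (hQ _ hVt hFt).2.2.2 e' e ht
    exact ⟨c, hee.trans hc⟩
  refine ⟨A, ?_, ?_, ?_, ?_⟩
  · intro φ hφ
    exact ⟨hφ.1, hφ.2.1, hφ.2.2.1, fun z => (hφ.2.2.2.1 z).1⟩
  · intro φ hφ ψ hψ z w hzw
    have hline : ∀ t : ℝ, HasDerivAt (fun t : ℝ => φ (t, z.2)) (fderiv ℝ φ (t, z.2) (1, 0)) t := by
      intro t
      have hdφ : HasFDerivAt φ (fderiv ℝ φ (t, z.2)) (t, z.2) :=
        ((hφ.1.differentiable one_ne_zero) (t, z.2)).hasFDerivAt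
      have hl : HasDerivAt (fun t : ℝ => (t, z.2)) ((1 : ℝ), (0 : ℝ)) t :=
        (hasDerivAt_id t).prodMk (hasDerivAt_const t z.2)
      exact hdφ.comp_hasDerivAt t hl
    obtain ⟨ε, hε, hk⟩ := key ψ hψ w (fun t => φ (t, z.2))
      (fun t => fderiv ℝ φ (t, z.2) (1, 0)) univ z.1 ordConnected_univ (mem_univ _) hzw
      (fun t _ => hφ.2.2.2.1 (t, z.2))
      (by
        have hc : Continuous (fun z => fderiv ℝ φ z) := hφ.1.continuous_fderiv one_ne_zero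
        have : Continuous (fun t : ℝ => fderiv ℝ φ (t, z.2) (1, 0)) := by fun_prop
        exact this.continuousOn)
      (fun t _ => (hline t).hasDerivWithinAt) (fun t _ => hφ.2.2.2.2 (t, z.2))
    refine ⟨ε, hε, ?_⟩
    intro z' w' hd hz' hw'
    have hd1 : |z'.1 - z.1| < ε := by
      rw [← Real.dist_eq]
      exact lt_of_le_of_lt (le_max_left _ _) hd
    obtain ⟨w'', hw'', h2w⟩ := hk z'.1 (mem_univ _) hd1
    have hzz : ((z'.1, z.2) : ℝ × ℝ) = z' := by rw [← hz']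
    have : w'' = w' := hψ.2.1 (by rw [hw'', hw', hzz])
    rw [← this]; exact h2w
  · intro p hp
    have hFp := hWF p hp
    have hVp := hWV hp
    obtain ⟨e, he⟩ := hex p hVp hFp
    obtain ⟨φ, hφ1, hφ2, hφ3, hφ4, hφ5, hφ6⟩ := h1 F hF p hFp (hreg p hFp) (fun q => Q q e)
      (c1At_apply (hQ p hVp hFp).1 e) he
      (by
        filter_upwards [self_mem_nhdsWithin, nhdsWithin_le_nhds (hV.mem_nhds hVp)] with q hq hqV
        exact (hQ q hqV hq).2.2.1 e) V (hV.mem_nhds hVp)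
    refine mem_iUnion₂.2 ⟨φ, ⟨hφ1, hφ2, hφ3, hφ4, ?_⟩, hφ5⟩
    intro z
    obtain ⟨c, hc, hcz⟩ := hφ6 z
    exact ⟨c • e, by rw [hcz, map_smul]⟩
  · intro γ γ' I hI hγ' hγ t ht φ hφ z hz
    exact key φ hφ z γ γ' I t hI ht hz.symm
      (fun s hs => ⟨hWF _ (hγ s hs).1, hWV (hγ s hs).1⟩) hγ'
      (fun s hs => (hγ s hs).2.1) (fun s hs => (hγ s hs).2.2)

end Pool.Agent.H935.TmGFol
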