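import Pool.Agent.H812.Gi.Spec
import Pool.Agent.H549.TmSLip
import Pool.Agent.H154.TmSTerm
import Pool.Agent.H249.TmSField

/-!
# Slopes of level functions are close to the field (part `GNear` of the project GI of helper812)
-/

set_option autoImplicit false

open Real Filter Topology Set
open scoped ContDiff

namespace Pool.Agent.H935.Gi

open Pool.Agent.W811.Stu Pool.Agent.H812.Tm Pool.Agent.H812.Gi

/-- the orbit up to stage `m` depends only on the digits before `m` -/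
theorem orb_congr {d e : ℕ → ℕ} {m : ℕ} (h : ∀ i < m, d i = e i) (p : P3) :
    orb d p m = orb e p m := by
  induction m with
  | zero => rfl
  | succ m ih =>
    have h1 : orb d p (m + 1) = stepT (d m) (orb d p m) := rfl
    have h2 : orb e p (m + 1) = stepT (e m) (orb e p m) := rfl
    rw [h1, h2, ih fun i hi => h i (by omega), h m (by omega)]

theorem Yf_update {δ : ℝ} {d : ℕ → ℕ} {m l k : ℕ} (h : m ≤ l) :
    Yf δ (Function.update d l k) m = Yf δ d m := by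
  funext v
  unfold Yf
  rw [orb_congr fun i hi => ?_]
  exact Function.update_of_ne (by omega) _ _

/-- the derivative of a good level function is dominated by the ones of the later good functions -/
theorem domT {δ κ CG : ℝ}
    (HG : ∀ d : ℕ → ℕ, (∀ k, 1 ≤ d k) → ∀ m M, 1 ≤ m → m ≤ M → ∀ v ∈ U, |Yf δ d m v| ≤ κ →
      |Yf δ d M v| ≤ κ → |dt (Yf δ d m) v| * 2 ^ ((M - m) / 2) ≤ CG * |dt (Yf δ d M) v|)
    {d : ℕ → ℕ} (hd : ∀ k, 1 ≤ d k) {M l k : ℕ} (hM : 1 ≤ M) (hl : M < l) {v : ℝ × ℝ}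
    (hv : v ∈ U) (h1 : |Yf δ d M v| ≤ κ) (h2 : |Tf δ d l k v| ≤ κ) :
    |dt (Yf δ d M) v| ≤ CG * |dt (Tf δ d l k) v| := by
  have key : ∀ e : ℕ → ℕ, (∀ k, 1 ≤ e k) → ∀ N, M ≤ N → |Yf δ e M v| ≤ κ → |Yf δ e N v| ≤ κ →
      |dt (Yf δ e M) v| ≤ CG * |dt (Yf δ e N) v| := by
    intro e he N hN a1 a2
    refine le_trans ?_ (HG e he M N hM hN v hv a1 a2)
    exact le_mul_of_one_le_right (abs_nonneg _) (one_le_pow₀ (by norm_num))
  rcases Nat.eq_zero_or_pos k with rfl | hk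
  · obtain ⟨i, rfl⟩ : ∃ i, l = i + 1 := ⟨l - 1, by omega⟩
    rw [Tf_zero] at h2 ⊢
    exact key d hd i (by omega) h1 h2
  · rw [Tf_eq] at h2 ⊢
    have h3 := key _ (update_ge hd l hk) (l + 1) (by omega)
    rw [Yf_update hl.le] at h3
    exact h3 h1 h2

/-- the terms of the telescoping sum, relative to an earlier good level function -/
theorem termB (hSlT : SSlT) (hPair : SPair) (hLag : SLag) (hSlope : SSlope) (hLow : SLow)
    (hRun : SRun) (hBr : SBr) (hWin : SWin) (hDt : SDt) (hRG : SRG)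
    {δ κ r : ℝ} {θ : ℝ → ℝ} {d : ℕ → ℕ} (hδ : δ ≠ 0) (hκ1 : 1 < κ) (hκ : κ < cc δ)
    (hθ : Cut κ θ) (hd : ∀ k, 1 ≤ d k) (hr : r < 1) :
    ∃ B : ℝ, 0 < B ∧ ∀ M, 3 ≤ M → ∀ v : ℝ × ℝ, |v.1| ≤ r → |Yf δ d M v| ≤ 1 → ∀ l, M ≤ l →
      |dt (Yf δ d M) v| * |Hf θ δ d l v| * 2 ^ (l / 2) ≤ B := by
  obtain ⟨C1, c0, K⟩ := Pool.Agent.H549.Tm.exists_Cst hSlope hLow hLag hPair hBr hDt hδ hκ1.le
    hκ hr
  obtain ⟨CG, hCG, HG⟩ := hRG δ κ hδ hκ1 hκ
  obtain ⟨L, c1, hL, hc1, hY, hT⟩ := Pool.Agent.H154.TmSTerm.cls hSlT hSlope hLag hLow hDt hδ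
    hκ1 hκ hr hd
  obtain ⟨W, hW, hWs⟩ := Pool.Agent.H154.TmSTerm.wsum hRun hWin (r := r) hδ hκ1 hκ hr hc1 hd
    (fun j k hj hk => (hT j k hj hk).2)
  have hC1 := K.C1p
  have hc0 := K.c0p
  refine ⟨C1 * CG / c0 + C1 * CG * W, by positivity, ?_⟩
  intro M hM v hv hY1 l hl
  have hvU : v ∈ U := lt_of_le_of_lt hv hr
  have h2l : (0 : ℝ) < 2 ^ (l / 2) := by positivity
  have hYM : |Yf δ d M v| ≤ κ := hY1.trans hκ1.le
  -- one factor
  have gle : ∀ f g : ℝ × ℝ → ℝ, |Pool.Agent.H154.TmSTerm.GG θ f g v| ≤ |sl g v - sl f v| := by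
    intro f g
    unfold Pool.Agent.H154.TmSTerm.GG
    rw [abs_mul, abs_mul]
    have h1 : |θ (f v)| * |θ (g v)| ≤ 1 := mul_le_one₀
      (Pool.Agent.H154.TmSTerm.cut_abs hθ _) (abs_nonneg _) (Pool.Agent.H154.TmSTerm.cut_abs hθ _)
    calc |θ (f v)| * |θ (g v)| * |sl g v - sl f v| ≤ 1 * |sl g v - sl f v| :=
          mul_le_mul_of_nonneg_right h1 (abs_nonneg _)
      _ = _ := one_mul _
  have gz : ∀ f g : ℝ × ℝ → ℝ, ¬ (|f v| ≤ κ ∧ |g v| ≤ κ) →
      Pool.Agent.H154.TmSTerm.GG θ f g v = 0 := by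
    intro f g h
    unfold Pool.Agent.H154.TmSTerm.GG
    by_cases h1 : |f v| ≤ κ
    · have h2 : κ < |g v| := not_le.mp fun h' => h ⟨h1, h'⟩
      rw [hθ.zero _ h2.le]
      ring
    · rw [hθ.zero _ (not_le.mp h1).le]
      ring
  -- first summand
  have A : |dt (Yf δ d M) v| * |Pool.Agent.H154.TmSTerm.GG θ (Yf δ d l) (Yf δ d (l + 1)) v| *
      2 ^ (l / 2) ≤ C1 * CG / c0 := by
    by_cases h : |Yf δ d l v| ≤ κ ∧ |Yf δ d (l + 1) v| ≤ κ
    · have h4 : 0 < |dt (Yf δ d l) v| := abs_pos.2 (K.neY d hd l (by omega) v hv h.1)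
      have h5 : |dt (Yf δ d M) v| ≤ CG * |dt (Yf δ d l) v| := by
        refine le_trans ?_ (HG d hd M l (by omega) hl v hvU hYM h.1)
        exact le_mul_of_one_le_right (abs_nonneg _) (one_le_pow₀ (by norm_num))
      have h6 := Pool.Agent.H549.Tm.aux (abs_nonneg _) h4 (by positivity)
        (K.loY d hd (l + 1) (by omega) v hv h.2) (abs_nonneg _)
        (K.prY d hd l (by omega) v hv h.1 h.2) h5 hCG.le
      have h7 : c0 * 2 ^ (l / 2) ≤ c0 * 2 ^ ((l + 1) / 2) :=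
        mul_le_mul_of_nonneg_left (pow_le_pow_right₀ (by norm_num) (by omega)) hc0.le
      calc |dt (Yf δ d M) v| * |Pool.Agent.H154.TmSTerm.GG θ (Yf δ d l) (Yf δ d (l + 1)) v| *
            2 ^ (l / 2)
          ≤ |dt (Yf δ d M) v| * |sl (Yf δ d (l + 1)) v - sl (Yf δ d l) v| * 2 ^ (l / 2) :=
            mul_le_mul_of_nonneg_right
              (mul_le_mul_of_nonneg_left (gle _ _) (abs_nonneg _)) h2l.le
        _ ≤ C1 * CG / (c0 * 2 ^ ((l + 1) / 2)) * 2 ^ (l / 2) :=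
            mul_le_mul_of_nonneg_right h6 h2l.le
        _ ≤ C1 * CG / (c0 * 2 ^ (l / 2)) * 2 ^ (l / 2) := by
            apply mul_le_mul_of_nonneg_right _ h2l.le
            exact div_le_div_of_nonneg_left (by positivity) (by positivity) h7
        _ = C1 * CG / c0 := by field_simp
    · rw [gz _ _ h, abs_zero, mul_zero, zero_mul]
      positivity
  -- second summand
  have B : |dt (Yf δ d M) v| * |Pool.Agent.H154.TmSTerm.P2 θ δ d l v| * 2 ^ (l / 2) ≤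
      C1 * CG * W := by
    by_cases hYl : |Yf δ d l v| ≤ 1
    · have : Pool.Agent.H154.TmSTerm.P2 θ δ d l v = 0 := by
        unfold Pool.Agent.H154.TmSTerm.P2
        rw [hθ.one _ hYl]
        ring
      rw [this, abs_zero, mul_zero, zero_mul]
      positivity
    · have hYl' := not_le.1 hYl
      have hMl : M < l := by
        rcases hl.lt_or_eq with h | h
        · exact h
        · exact absurd (h ▸ hY1) hYl
      have h1 : |1 - θ (Yf δ d l v)| ≤ 1 := by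
        have a1 := hθ.nonneg (Yf δ d l v)
        have a2 := hθ.le_one (Yf δ d l v)
        rw [abs_le]
        constructor <;> linarith
      have h2 : |dt (Yf δ d M) v| * |Pool.Agent.H154.TmSTerm.P2 θ δ d l v| ≤
          ∑ k ∈ Finset.range (d l), |dt (Yf δ d M) v| *
            |Pool.Agent.H154.TmSTerm.GG θ (Tf δ d l k) (Tf δ d l (k + 1)) v| := by
        unfold Pool.Agent.H154.TmSTerm.P2
        rw [abs_mul, ← Finset.mul_sum]
        apply mul_le_mul_of_nonneg_left _ (abs_nonneg _)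
        calc _ ≤ 1 * |∑ k ∈ Finset.range (d l),
              Pool.Agent.H154.TmSTerm.GG θ (Tf δ d l k) (Tf δ d l (k + 1)) v| :=
              mul_le_mul_of_nonneg_right h1 (abs_nonneg _)
          _ ≤ _ := by
              rw [one_mul]
              exact Finset.abs_sum_le_sum_abs _ _
      have h3 := Pool.Agent.H154.TmSTerm.sum_le_SS (κ := κ) (δ := δ) (d := d) (j := l) (v := v)
        (fun k => |dt (Yf δ d M) v| *
            |Pool.Agent.H154.TmSTerm.GG θ (Tf δ d l k) (Tf δ d l (k + 1)) v|)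
        (fun k => C1 * CG * (1 / |dt (Tf δ d l k) v| + 1 / |dt (Tf δ d l (k + 1)) v|))
        (by
          intro k hk hkl
          have h4 : ¬ (|Tf δ d l k v| ≤ κ ∧ |Tf δ d l (k + 1) v| ≤ κ) := fun h' =>
            hk (Pool.Agent.H154.TmSTerm.mem_SS.2 ⟨hkl, h'.1, h'.2⟩)
          rw [gz _ _ h4, abs_zero, mul_zero])
        (by
          intro k hk
          obtain ⟨hk1, hk2, hk3⟩ := Pool.Agent.H154.TmSTerm.mem_SS.1 hk
          have b1 : 0 < |dt (Tf δ d l k) v| :=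
            abs_pos.2 (K.neT d hd l k (by omega) v hv hk2)
          have b2 : 0 < |dt (Tf δ d l (k + 1)) v| :=
            abs_pos.2 (K.neT d hd l (k + 1) (by omega) v hv hk3)
          have b3 := domT HG hd (by omega : 1 ≤ M) hMl hvU hYM hk2
          have b4 := Pool.Agent.H549.Tm.aux (abs_nonneg _) b1 b2 le_rfl (abs_nonneg _)
            (K.prT d hd l k (by omega) v hv hk2 hk3) b3 hCG.le
          have b5 : C1 * CG / |dt (Tf δ d l (k + 1)) v| ≤
              C1 * CG * (1 / |dt (Tf δ d l k) v| + 1 / |dt (Tf δ d l (k + 1)) v|) := by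
            rw [mul_add, mul_one_div, mul_one_div]
            have : 0 ≤ C1 * CG / |dt (Tf δ d l k) v| := by positivity
            linarith
          exact ((mul_le_mul_of_nonneg_left (gle _ _) (abs_nonneg _)).trans b4).trans b5)
      calc _ ≤ (∑ k ∈ Pool.Agent.H154.TmSTerm.SS κ δ d l v,
              C1 * CG * (1 / |dt (Tf δ d l k) v| + 1 / |dt (Tf δ d l (k + 1)) v|)) * 2 ^ (l / 2) :=
            mul_le_mul_of_nonneg_right (h2.trans h3) h2l.le
        _ = C1 * CG * ((∑ k ∈ Pool.Agent.H154.TmSTerm.SS κ δ d l v,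
              (1 / |dt (Tf δ d l k) v| + 1 / |dt (Tf δ d l (k + 1)) v|)) * 2 ^ (l / 2)) := by
            rw [← Finset.mul_sum]
            ring
        _ ≤ C1 * CG * W := mul_le_mul_of_nonneg_left (hWs l (by omega) v hv hYl') (by positivity)
  have h1 : |Hf θ δ d l v| ≤ |Pool.Agent.H154.TmSTerm.GG θ (Yf δ d l) (Yf δ d (l + 1)) v| +
      |Pool.Agent.H154.TmSTerm.P2 θ δ d l v| := by
    rw [Pool.Agent.H154.TmSTerm.Hf_eq]
    exact abs_add_le _ _
  calc _ ≤ |dt (Yf δ d M) v| *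
        (|Pool.Agent.H154.TmSTerm.GG θ (Yf δ d l) (Yf δ d (l + 1)) v| +
          |Pool.Agent.H154.TmSTerm.P2 θ δ d l v|) * 2 ^ (l / 2) :=
        mul_le_mul_of_nonneg_right (mul_le_mul_of_nonneg_left h1 (abs_nonneg _)) h2l.le
    _ ≤ _ := by
        rw [mul_add, add_mul]
        exact add_le_add A B

/-- **GNear** -/
theorem tGNear (hTerm : STerm) (hSlT : SSlT) (hPair : SPair) (hLag : SLag) (hSlope : SSlope)
    (hLow : SLow) (hRun : SRun) (hBr : SBr) (hAl : SAl) (hWin : SWin) (hDt : SDt)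
    (hRG : SRG) : GNear := by
  intro δ κ θ d hC r hr
  obtain ⟨hδ, hκ1, hκ, hθ, hd⟩ := hC
  obtain ⟨C, hC, hT⟩ := hTerm δ κ r d θ hδ hκ1 hκ hr hd hθ
  obtain ⟨B, hB, hBt⟩ := termB hSlT hPair hLag hSlope hLow hRun hBr hWin hDt hRG hδ hκ1 hκ hθ hd hr
  have hS0 : 0 ≤ ∑' i : ℕ, ((1 : ℝ) / 2) ^ (i / 2) := tsum_nonneg fun i => by positivity
  refine ⟨B * ∑' i : ℕ, ((1 : ℝ) / 2) ^ (i / 2) + 1, by positivity, ?_⟩
  intro M hM v hv hY
  have hvU : v ∈ U := lt_of_le_of_lt hv hr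
  obtain ⟨n, rfl⟩ : ∃ n, M = n + 3 := ⟨M - 3, by omega⟩
  have h1 := Pool.Agent.H249.TmSField.tele hAl hδ hθ hd hvU hY n le_rfl
  rw [hθ.one _ hY] at h1
  have hb0 : ∀ i, ‖Hf θ δ d (i + 3) v‖ ≤
      C * ((1 : ℝ) / 2) ^ (3 / 2) * ((1 : ℝ) / 2) ^ (i / 2) := by
    intro i
    exact Pool.Agent.H249.TmSField.bd_shift hC 3 i ((hT (i + 3) (by omega)).2 v hv).1
  have hs0 : Summable (fun i => Hf θ δ d (i + 3) v) :=
    Summable.of_norm_bounded (Pool.Agent.H249.TmSField.summ.mul_left _) hb0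
  have h2 := hs0.sum_add_tsum_nat_add n
  have h3 : sg θ δ d v - sl (Yf δ d (n + 3)) v = ∑' i, Hf θ δ d (i + n + 3) v := by
    unfold sg
    rw [← h2]
    linarith
  have hb : ∀ i, ‖Hf θ δ d (i + n + 3) v * |dt (Yf δ d (n + 3)) v|‖ ≤
      B * ((1 : ℝ) / 2) ^ ((n + 3) / 2) * ((1 : ℝ) / 2) ^ (i / 2) := by
    intro i
    refine Pool.Agent.H249.TmSField.bd_shift hB (n + 3) i ?_
    have h2 := hBt (n + 3) hM v hv hY (i + n + 3) (by omega)
    rw [Real.norm_eq_abs, abs_mul, abs_abs, mul_comm |Hf θ δ d (i + n + 3) v|]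
    rw [add_assoc] at h2 ⊢
    exact h2
  have h4 : ‖∑' i, Hf θ δ d (i + n + 3) v * |dt (Yf δ d (n + 3)) v|‖ ≤
      B * ((1 : ℝ) / 2) ^ ((n + 3) / 2) * ∑' i : ℕ, ((1 : ℝ) / 2) ^ (i / 2) :=
    tsum_of_norm_bounded (Pool.Agent.H249.TmSField.summ.hasSum.mul_left _) hb
  rw [tsum_mul_right, ← h3, Real.norm_eq_abs, abs_mul, abs_abs] at h4
  refine h4.trans ?_
  have h5 : ((1 : ℝ) / 2) ^ ((n + 3) / 2) ≤ 1 := pow_le_one₀ (by norm_num) (by norm_num)
  have h6 : B * ((1 : ℝ) / 2) ^ ((n + 3) / 2) * (∑' i : ℕ, ((1 : ℝ) / 2) ^ (i / 2)) ≤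
      B * 1 * (∑' i : ℕ, ((1 : ℝ) / 2) ^ (i / 2)) :=
    mul_le_mul_of_nonneg_right (mul_le_mul_of_nonneg_left h5 hB.le) hS0
  rw [mul_one] at h6
  linarith

end Pool.Agent.H935.Gi
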