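import Pool.Agent.H867.FT.Gen2

/-!
# UNM: compatibility of `unm x` with Cartier maps (project FT of helper867)
-/

namespace Pool.Agent.H935.FT867UNM

open Pool.Agent.H867.FT

theorem cart_span {R : Type} [CommRing R] {q : ℕ} {φ : R →+ R} (hφ : IsCartier q φ) (S : Set R)
    {z : R} (hz : z ∈ Ideal.span ((fun y => y ^ q) '' S)) : φ z ∈ Ideal.span S := by
  have h : ∀ c, φ (c * z) ∈ Ideal.span S := by
    refine Submodule.span_induction (p := fun z _ => ∀ c, φ (c * z) ∈ Ideal.span S)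
      ?_ ?_ ?_ ?_ hz
    · rintro _ ⟨y, hy, rfl⟩ c
      show φ (c * y ^ q) ∈ _
      rw [mul_comm, hφ]
      exact Ideal.mul_mem_right _ _ (Ideal.subset_span hy)
    · intro c
      rw [mul_zero, map_zero]
      exact Ideal.zero_mem _
    · intro a b _ _ ha hb c
      rw [mul_add, map_add]
      exact Ideal.add_mem _ (ha c) (hb c)
    · intro a b _ hb c
      rw [smul_eq_mul, ← mul_assoc]
      exact hb (c * a)
  have h1 := h 1
  rwa [one_mul] at h1

theorem frob_span {R : Type} [CommRing R] (p e : ℕ) [Fact p.Prime] [CharP R p] (S : Set R)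
    {z : R} (hz : z ∈ Ideal.span S) :
    z ^ (p ^ e) ∈ Ideal.span ((fun y => y ^ (p ^ e)) '' S) := by
  haveI : ExpChar R p := ExpChar.prime Fact.out
  have h1 := Ideal.mem_map_of_mem (iterateFrobenius R p e) hz
  rw [Ideal.map_span] at h1
  exact h1

theorem image_pow {R : Type} [CommRing R] {d : ℕ} (x : Fin d → R) (i : Fin d) (s q : ℕ) :
    (fun y => y ^ q) '' {y | ∃ j, j < i ∧ y = x j ^ s} =
      {y | ∃ j, j < i ∧ y = x j ^ (s * q)} := by
  ext y
  constructor
  · rintro ⟨_, ⟨j, hj, rfl⟩, rfl⟩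
    exact ⟨j, hj, (pow_mul _ _ _).symm⟩
  · rintro ⟨j, hj, rfl⟩
    exact ⟨x j ^ s, ⟨j, hj, rfl⟩, (pow_mul _ _ _).symm⟩

theorem cart_unm {R : Type} [CommRing R] (p e : ℕ) [Fact p.Prime] [CharP R p] {d : ℕ}
    (x : Fin d → R) (φ : R →+ R) (hφ : IsCartier (p ^ e) φ) {r : R} (hr : r ∈ unm x) :
    φ r ∈ unm x := by
  intro s i a hs ha
  have hp : 1 ≤ p ^ e := Nat.one_le_pow _ _ (Fact.out : p.Prime).pos
  have h1 := frob_span p e _ ha
  rw [image_pow, mul_pow, ← pow_mul] at h1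
  have h2 := hr (s * p ^ e) i (a ^ (p ^ e)) (Nat.mul_pos hs hp) h1
  rw [← image_pow] at h2
  have h3 := cart_span hφ _ h2
  rw [mul_comm r, hφ, mul_comm] at h3
  exact h3

theorem unm_main : Pool.Agent.H867.FT.S_UNM := by
  intro p e _ R _ _ _ d x φ f hφ hf hx hne hmem
  obtain ⟨c, hc, z, hz, hcz⟩ := Submodule.mem_sup.1 hmem
  have h1 : φ c ∈ IsLocalRing.maximalIdeal R :=
    IsLocalRing.le_maximalIdeal hne (cart_unm p e x φ hφ hc)
  have h2 : φ z ∈ IsLocalRing.maximalIdeal R := by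
    have h3 : (Set.range fun i => x i ^ (p ^ e)) = (fun y => y ^ (p ^ e)) '' Set.range x := by
      rw [← Set.range_comp]
      rfl
    rw [h3] at hz
    have h4 := cart_span hφ _ hz
    refine (Ideal.span_le.2 ?_) h4
    rintro _ ⟨i, rfl⟩
    exact hx i
  have h3 : (1 : R) ∈ IsLocalRing.maximalIdeal R := by
    rw [← hf, ← hcz, map_add]
    exact Ideal.add_mem _ h1 h2
  exact (IsLocalRing.maximalIdeal.isMaximal R).ne_top ((Ideal.eq_top_iff_one _).2 h3)

/-- **UNM.** -/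
theorem unm : Pool.Agent.H867.FT.S_UNM := unm_main

end Pool.Agent.H935.FT867UNM
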