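import Pool.Agent.H316.EM.Stm2

/-!
# FIX: a fixed element of infinite order of a unipotent action of `ℤ²`
-/

set_option autoImplicit false

namespace Pool.Agent.H935

open Pool.Agent.H316.EM

namespace EMFIX

variable {L : Type} [CommGroup L]

/-- the operator `x ↦ ρ b x / x` -/
def dl (ρ : B →* MulAut L) (b : B) : L →* L where
  toFun x := ρ b x / x
  map_one' := by rw [map_one, div_one]
  map_mul' x y := by rw [map_mul, mul_div_mul_comm]

theorem dl_apply (ρ : B →* MulAut L) (b : B) (x : L) : dl ρ b x = ρ b x / x := rfl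

theorem dl_comm (ρ : B →* MulAut L) (a b : B) : Function.Commute (dl ρ a) (dl ρ b) := by
  intro x
  have h : ρ a (ρ b x) = ρ b (ρ a x) := by
    have h1 : ρ a * ρ b = ρ b * ρ a := by rw [← map_mul, ← map_mul, mul_comm]
    exact congrArg (fun f : MulAut L => f x) h1
  simp only [dl_apply, map_div, h]
  rw [div_div_div_comm]

/-- an element of infinite order which becomes of finite order under the operator -/
theorem step (f : L →* L) (c : ℕ) (x : L) (hx : ¬ IsOfFinOrder x) (hc : IsOfFinOrder (f^[c] x)) :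
    ∃ k : ℕ, ¬ IsOfFinOrder (f^[k] x) ∧ IsOfFinOrder (f (f^[k] x)) := by
  classical
  have hex : ∃ n, IsOfFinOrder (f^[n] x) := ⟨c, hc⟩
  have h1 := Nat.find_spec hex
  have h0 : Nat.find hex ≠ 0 := by
    intro h
    rw [h] at h1
    exact hx h1
  obtain ⟨k, hk⟩ := Nat.exists_eq_succ_of_ne_zero h0
  refine ⟨k, Nat.find_min hex (by omega), ?_⟩
  rw [hk, Nat.succ_eq_add_one, Function.iterate_succ_apply'] at h1
  exact h1

/-- the elements of `B` fixing `z` -/
def fx (ρ : B →* MulAut L) (z : L) : Subgroup B where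
  carrier := {b | ρ b z = z}
  one_mem' := by
    show ρ 1 z = z
    rw [map_one]; rfl
  mul_mem' := by
    intro a b ha hb
    show ρ (a * b) z = z
    rw [map_mul]
    show ρ a (ρ b z) = z
    rw [show ρ b z = z from hb]; exact ha
  inv_mem' := by
    intro a ha
    show ρ a⁻¹ z = z
    rw [map_inv]
    show (ρ a).symm z = z
    rw [MulEquiv.symm_apply_eq]
    exact (show ρ a z = z from ha).symm

end EMFIX

open EMFIX

theorem em_fix : S_FIX := by
  intro L _ _ _ ρ c hρ
  -- an element of infinite order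
  obtain ⟨x, hx⟩ : ∃ x : L, ¬ IsOfFinOrder x := by
    by_contra hcon
    push Not at hcon
    have : Finite L := CommGroup.finite_of_fg_torsion L hcon
    exact not_finite L
  let a1 : B := Multiplicative.ofAdd (1, 0)
  let a2 : B := Multiplicative.ofAdd (0, 1)
  have hc : ∀ (b : B) (l : L), IsOfFinOrder ((dl ρ b)^[c] l) := by
    intro b l
    have h : (dl ρ b)^[c] l = 1 := hρ b l
    rw [h]
    exact IsOfFinOrder.one
  obtain ⟨k, hk1, hk2⟩ := step (dl ρ a1) c x hx (hc a1 x)
  set y := (dl ρ a1)^[k] x with hy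
  obtain ⟨m, hm1, hm2⟩ := step (dl ρ a2) c y hk1 (hc a2 y)
  set w := (dl ρ a2)^[m] y with hw
  have hw1 : IsOfFinOrder (dl ρ a1 w) := by
    have h1 : dl ρ a1 w = (dl ρ a2)^[m] (dl ρ a1 y) :=
      ((dl_comm ρ a1 a2).iterate_right m y)
    rw [h1]
    have h2 : ∀ n : ℕ, IsOfFinOrder ((dl ρ a2)^[n] (dl ρ a1 y)) := by
      intro n
      induction n with
      | zero => exact hk2
      | succ n ih =>
        rw [Function.iterate_succ_apply']
        exact MonoidHom.isOfFinOrder (dl ρ a2) ih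
    exact h2 m
  obtain ⟨N1, hN1, e1⟩ := isOfFinOrder_iff_pow_eq_one.mp hw1
  obtain ⟨N2, hN2, e2⟩ := isOfFinOrder_iff_pow_eq_one.mp hm2
  have f1 : dl ρ a1 (w ^ (N1 * N2)) = 1 := by
    rw [map_pow, pow_mul, e1, one_pow]
  have f2 : dl ρ a2 (w ^ (N1 * N2)) = 1 := by
    rw [map_pow, mul_comm, pow_mul, e2, one_pow]
  rw [dl_apply, div_eq_one] at f1 f2
  refine ⟨w ^ (N1 * N2), ?_, ?_⟩
  · intro b
    have h1 : a1 ∈ fx ρ (w ^ (N1 * N2)) := f1
    have h2 : a2 ∈ fx ρ (w ^ (N1 * N2)) := f2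
    have hb : b = a1 ^ (Multiplicative.toAdd b).1 * a2 ^ (Multiplicative.toAdd b).2 := by
      apply Multiplicative.toAdd.injective
      rw [toAdd_mul, toAdd_zpow, toAdd_zpow]
      simp only [a1, a2, toAdd_ofAdd]
      ext <;> simp
    have h3 : b ∈ fx ρ (w ^ (N1 * N2)) := by
      rw [hb]
      exact Subgroup.mul_mem _ (Subgroup.zpow_mem _ h1 _) (Subgroup.zpow_mem _ h2 _)
    exact h3
  · intro n hn h
    apply hm1
    rw [isOfFinOrder_iff_pow_eq_one]
    exact ⟨N1 * N2 * n, Nat.mul_pos (Nat.mul_pos hN1 hN2) hn, by rw [pow_mul]; exact h⟩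

end Pool.Agent.H935
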