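import Pool.Agent.H979.GW.StmC
import Pool.Agent.H979.QIP.Func2

set_option autoImplicit false
set_option linter.all false

open MeasureTheory ProbabilityTheory Filter Topology Set
open scoped ENNReal NNReal

/-!
# Convergence in law in the path space with the locally uniform topology (helper935)
-/

namespace Pool.Agent.H935.GWC

open Pool.Agent.H979.GW (Cadl DD ContLU stepD absD IsBM S_CONV)

/-! ### the metric -/

/-- the admissible values -/
def LuS (x y : DD) : Set ℝ :=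
  {ε | 0 < ε ∧ (1 ≤ ε ∨ ∀ t : ℝ≥0, (t : ℝ) ≤ 1 / ε → |x.1 t - y.1 t| ≤ ε)}

theorem LuS_one (x y : DD) : (1 : ℝ) ∈ LuS x y := ⟨one_pos, Or.inl le_rfl⟩

theorem LuS_bdd (x y : DD) : BddBelow (LuS x y) := ⟨0, fun ε h => h.1.le⟩

theorem LuS_symm (x y : DD) : LuS x y = LuS y x := by
  ext ε
  constructor
  · rintro ⟨h, h1⟩
    exact ⟨h, h1.imp id fun h2 t ht => by rw [abs_sub_comm]; exact h2 t ht⟩
  · rintro ⟨h, h1⟩
    exact ⟨h, h1.imp id fun h2 t ht => by rw [abs_sub_comm]; exact h2 t ht⟩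

theorem LuS_add {x y z : DD} {a b : ℝ} (ha : a ∈ LuS x y) (hb : b ∈ LuS y z) :
    a + b ∈ LuS x z := by
  obtain ⟨ha0, ha⟩ := ha
  obtain ⟨hb0, hb⟩ := hb
  refine ⟨by positivity, ?_⟩
  by_cases hab : 1 ≤ a + b
  · exact Or.inl hab
  right
  rw [not_le] at hab
  have ha' := ha.resolve_left (by linarith)
  have hb' := hb.resolve_left (by linarith)
  intro t ht
  have k1 : 1 / (a + b) ≤ 1 / a := one_div_le_one_div_of_le ha0 (by linarith)
  have k2 : 1 / (a + b) ≤ 1 / b := one_div_le_one_div_of_le hb0 (by linarith)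
  have f1 := ha' t (ht.trans k1)
  have f2 := hb' t (ht.trans k2)
  have e3 : x.1 t - z.1 t = (x.1 t - y.1 t) + (y.1 t - z.1 t) := by ring
  rw [e3]
  exact (abs_add_le _ _).trans (add_le_add f1 f2)

noncomputable instance : PseudoMetricSpace DD where
  dist x y := sInf (LuS x y)
  dist_self x := by
    refine le_antisymm ?_ (le_csInf ⟨1, LuS_one x x⟩ fun ε h => h.1.le)
    refine le_of_forall_pos_le_add fun ε hε => ?_
    rw [zero_add]
    refine csInf_le (LuS_bdd x x) ⟨hε, Or.inr fun t _ => ?_⟩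
    rw [sub_self, abs_zero]
    exact hε.le
  dist_comm x y := by rw [LuS_symm]
  dist_triangle x y z := by
    refine le_of_forall_pos_le_add fun ε hε => ?_
    obtain ⟨a, ha, ha'⟩ := exists_lt_of_csInf_lt ⟨1, LuS_one x y⟩
      (show sInf (LuS x y) < sInf (LuS x y) + ε / 2 by linarith)
    obtain ⟨b, hb, hb'⟩ := exists_lt_of_csInf_lt ⟨1, LuS_one y z⟩
      (show sInf (LuS y z) < sInf (LuS y z) + ε / 2 by linarith)
    have := csInf_le (LuS_bdd x z) (LuS_add ha hb)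
    linarith

theorem ludist_le {x y : DD} {ε : ℝ} (hε : 0 < ε)
    (h : ∀ t : ℝ≥0, (t : ℝ) ≤ 1 / ε → |x.1 t - y.1 t| ≤ ε) : dist x y ≤ ε :=
  csInf_le (LuS_bdd x y) ⟨hε, Or.inr h⟩

theorem cont_of_contLU {F : DD → ℝ} (hF : ContLU F) : Continuous F := by
  refine SeqContinuous.continuous ?_
  intro x y hxy
  refine hF x y fun T => ?_
  rw [Metric.tendstoUniformlyOn_iff]
  intro ε hε
  have hT : (0 : ℝ) < (T : ℝ) + 1 := by positivity
  have h1 := (Metric.tendsto_nhds.1 hxy) (min (min ε 1) (1 / ((T : ℝ) + 1)))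
    (lt_min (lt_min hε one_pos) (by positivity))
  filter_upwards [h1] with k hk t ht
  obtain ⟨a, ha, ha'⟩ := exists_lt_of_csInf_lt ⟨1, LuS_one (x k) y⟩ hk
  obtain ⟨ha0, ha⟩ := ha
  have b1 : a < ε := ha'.trans_le ((min_le_left _ _).trans (min_le_left _ _))
  have b2 : a < 1 := ha'.trans_le ((min_le_left _ _).trans (min_le_right _ _))
  have b3 : a < 1 / ((T : ℝ) + 1) := ha'.trans_le (min_le_right _ _)
  have ha2 := ha.resolve_left (by linarith)
  have ht2 : (t : ℝ) ≤ T := by exact_mod_cast (show t ≤ T from ht)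
  have b4 : (t : ℝ) ≤ 1 / a := by
    rw [le_div_iff₀ ha0]
    rw [lt_div_iff₀ hT] at b3
    have h0 : (0 : ℝ) ≤ t := t.2
    nlinarith
  have h2 := ha2 t b4
  rw [dist_comm, Real.dist_eq]
  exact lt_of_le_of_lt h2 b1

theorem continuous_stepD (m : ℕ) : Continuous (stepD m) := by
  rw [continuous_iff_continuousAt]
  intro v₀
  rw [ContinuousAt, Metric.tendsto_nhds]
  intro ε hε
  have h1 : ∀ᶠ v : ℕ → ℝ in 𝓝 v₀, ∀ k ∈ Finset.range (⌊(m : ℝ) * (1 / (ε / 2))⌋₊ + 1),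
      |v k - v₀ k| < ε / 2 := by
    rw [Filter.eventually_all_finset]
    intro k _
    have h2 : Continuous (fun v : ℕ → ℝ => |v k - v₀ k|) := by fun_prop
    have h3 : Tendsto (fun v : ℕ → ℝ => |v k - v₀ k|) (𝓝 v₀) (𝓝 (|v₀ k - v₀ k|)) :=
      h2.tendsto v₀
    rw [sub_self, abs_zero] at h3
    exact h3.eventually (gt_mem_nhds (by positivity))
  filter_upwards [h1] with v hv
  refine lt_of_le_of_lt (b := ε / 2) ?_ (by linarith)
  refine ludist_le (by positivity) fun t ht => ?_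
  refine (hv _ ?_).le
  rw [Finset.mem_range]
  exact Nat.lt_succ_iff.2 (Nat.floor_le_floor (mul_le_mul_of_nonneg_left ht (Nat.cast_nonneg _)))

theorem absD_lim (b : ℝ≥0 → ℝ) (hb : Continuous b) :
    Tendsto (fun m : ℕ => stepD (m + 1) (fun k => |b ((k : ℝ≥0) / ((m + 1 : ℕ) : ℝ≥0))|)) atTop
      (𝓝 (absD b hb)) := by
  rw [Metric.tendsto_nhds]
  intro ε hε
  set T : ℝ≥0 := ⟨1 / (ε / 2), by positivity⟩ with hT
  have hu : UniformContinuousOn b (Icc 0 T) :=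
    isCompact_Icc.uniformContinuousOn_of_continuous hb.continuousOn
  rw [Metric.uniformContinuousOn_iff_le] at hu
  obtain ⟨δ, hδ, h1⟩ := hu (ε / 2) (by positivity)
  obtain ⟨N, hN⟩ := exists_nat_gt (1 / δ)
  filter_upwards [eventually_ge_atTop N] with m hm
  refine lt_of_le_of_lt (b := ε / 2) ?_ (by linarith)
  refine ludist_le (by positivity) fun t ht => ?_
  have hm0 : (0 : ℝ) < (m + 1 : ℕ) := by positivity
  have hf1 : ((⌊((m + 1 : ℕ) : ℝ) * t⌋₊ : ℕ) : ℝ) ≤ (m + 1 : ℕ) * t := Nat.floor_le (by positivity)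
  have hf2 : ((m + 1 : ℕ) : ℝ) * t < (⌊((m + 1 : ℕ) : ℝ) * t⌋₊ : ℕ) + 1 := Nat.lt_floor_add_one _
  set q : ℕ := ⌊((m + 1 : ℕ) : ℝ) * t⌋₊ with hq
  have hcast : (((q : ℝ≥0) / ((m + 1 : ℕ) : ℝ≥0) : ℝ≥0) : ℝ) = (q : ℝ) / (m + 1 : ℕ) := by
    push_cast; rfl
  have hqt : (q : ℝ) / (m + 1 : ℕ) ≤ t := by
    rw [div_le_iff₀ hm0]; linarith
  have htT : t ≤ T := by
    have : (t : ℝ) ≤ (T : ℝ) := ht
    exact_mod_cast this
  have hqT : (q : ℝ≥0) / ((m + 1 : ℕ) : ℝ≥0) ≤ T := by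
    have : (((q : ℝ≥0) / ((m + 1 : ℕ) : ℝ≥0) : ℝ≥0) : ℝ) ≤ (t : ℝ) := by rw [hcast]; exact hqt
    exact le_trans (by exact_mod_cast this) htT
  have h2 := h1 ((q : ℝ≥0) / ((m + 1 : ℕ) : ℝ≥0)) ⟨zero_le, hqT⟩ t ⟨zero_le, htT⟩ (by
    rw [NNReal.dist_eq, hcast, abs_sub_comm, abs_of_nonneg (by linarith)]
    have h3 : (t : ℝ) - (q : ℝ) / ((m + 1 : ℕ) : ℝ) ≤ 1 / (m + 1 : ℕ) := by
      rw [sub_le_iff_le_add, ← add_div, le_div_iff₀ hm0]
      linarith
    refine h3.trans ?_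
    rw [div_le_iff₀ hm0]
    rw [div_lt_iff₀ hδ] at hN
    have : (N : ℝ) ≤ (m + 1 : ℕ) := by exact_mod_cast (by omega : N ≤ m + 1)
    nlinarith)
  show |(|b ((q : ℝ≥0) / ((m + 1 : ℕ) : ℝ≥0))| - |b t|)| ≤ ε / 2
  rw [Real.dist_eq] at h2
  exact (abs_abs_sub_abs_le_abs_sub _ _).trans h2

/-! ### integrals -/

theorem int_close {Ξ : Type} [MeasurableSpace Ξ] (Pq : Measure Ξ) [IsProbabilityMeasure Pq]
    {f g : Ξ → ℝ} {C a b : ℝ} (hf : Measurable f) (hg : Measurable g) (hfC : ∀ x, |f x| ≤ C)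
    (hgC : ∀ x, |g x| ≤ C) (D : Set Ξ) (hD : MeasurableSet D) (ha : 0 ≤ a) (hC0 : 0 ≤ C)
    (hDb : Pq.real D ≤ b) (h : ∀ x, x ∉ D → |f x - g x| ≤ a) :
    |∫ x, f x ∂Pq - ∫ x, g x ∂Pq| ≤ a + 2 * C * b := by
  have i1 : Integrable f Pq := Integrable.of_bound hf.aestronglyMeasurable C
    (Eventually.of_forall fun x => by rw [Real.norm_eq_abs]; exact hfC x)
  have i2 : Integrable g Pq := Integrable.of_bound hg.aestronglyMeasurable C
    (Eventually.of_forall fun x => by rw [Real.norm_eq_abs]; exact hgC x)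
  rw [← integral_sub i1 i2]
  have hpt : ∀ x, |f x - g x| ≤ a + D.indicator (fun _ => 2 * C) x := by
    intro x
    by_cases hx : x ∈ D
    · rw [indicator_of_mem hx]
      have h1 := abs_sub (f x) (g x)
      have h2 := hfC x
      have h3 := hgC x
      linarith
    · rw [indicator_of_notMem hx, add_zero]
      exact h x hx
  have i3 : Integrable (fun x => a + D.indicator (fun _ => 2 * C) x) Pq :=
    (integrable_const _).add ((integrable_const _).indicator hD)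
  refine (abs_integral_le_integral_abs).trans ((integral_mono (i1.sub i2).abs i3 hpt).trans ?_)
  rw [integral_add (integrable_const _) ((integrable_const _).indicator hD),
    integral_const, integral_indicator_const _ hD]
  simp only [probReal_univ, one_smul, smul_eq_mul]
  have h2 : Pq.real D * (2 * C) ≤ b * (2 * C) := mul_le_mul_of_nonneg_right hDb (by positivity)
  linarith

theorem conv_lip (Ξ : Type) [MeasurableSpace Ξ] (Pw : Measure Ξ) [IsProbabilityMeasure Pw]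
    (H Z : ℕ → Ξ → ℝ) (σ2 η : ℝ) (hσ : 0 < σ2) (hη : 0 < η) (hHm : ∀ k, Measurable (H k))
    (hZm : ∀ k, Measurable (Z k))
    (hfdd : ∀ (k : ℕ) (t : Fin k → ℝ) (u : Fin k → ℝ), (∀ j, 0 ≤ t j) →
      Tendsto (fun n : ℕ => ∫ ξ, Complex.exp (Complex.I *
        ((∑ j, u j * (Z ⌊t j * n⌋₊ ξ / √n) : ℝ) : ℂ)) ∂Pw) atTop
        (𝓝 (Complex.exp (-((∑ j, ∑ l, min (t j) (t l) * (u j * σ2 * u l) : ℝ) : ℂ) / 2))))
    (hmod : ∀ T ε η' : ℝ, 0 < T → 0 < ε → 0 < η' → ∃ δ : ℝ, 0 < δ ∧ ∀ᶠ n : ℕ in atTop,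
      Pw {ξ | ∃ j k : ℕ, (j : ℝ) ≤ T * n ∧ (k : ℝ) ≤ T * n ∧ |(j : ℝ) - k| ≤ δ * n ∧
        ε * √n < |Z j ξ - Z k ξ|} ≤ ENNReal.ofReal η')
    (hclose : ∀ T ε : ℝ, 0 < T → 0 < ε → Tendsto (fun n : ℕ => Pw {ξ | ∃ k : ℕ, (k : ℝ) ≤ T * n ∧
      ε * √n < |H k ξ - |Z k ξ| / η|}) atTop (𝓝 0))
    (Ω' : Type) [MeasurableSpace Ω'] (P' : Measure Ω') [IsProbabilityMeasure P']
    (B : ℝ≥0 → Ω' → ℝ) (hB : IsBM P' B) (F : DD → ℝ) (C : ℝ) (hC : ∀ x, |F x| ≤ C)
    (L : ℝ≥0) (hL : LipschitzWith L F) :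
    Tendsto (fun n : ℕ => ∫ ξ, F (stepD n (fun k => H k ξ / (√σ2 / η * √n))) ∂Pw) atTop
      (𝓝 (∫ ω', F (absD (fun t => B t ω') (hB.cont ω')) ∂P')) := by
  have hs2 : 0 < √σ2 := Real.sqrt_pos.2 hσ
  have hs2' : √σ2 * √σ2 = σ2 := Real.mul_self_sqrt hσ.le
  have hC0 : 0 ≤ C := (abs_nonneg _).trans (hC (stepD 0 (fun _ => 0)))
  have hL0 : (0 : ℝ) ≤ L := L.2
  have hFc : Continuous F := hL.continuous
  have hstep : ∀ m : ℕ, Measurable (fun v : ℕ → ℝ => F (stepD m v)) := fun m =>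
    (hFc.comp (continuous_stepD m)).measurable
  have mY : ∀ n : ℕ, Measurable (fun ξ => F (stepD n (fun k => H k ξ / (√σ2 / η * √n)))) := by
    intro n
    exact (hstep n).comp (measurable_pi_lambda _ fun k => (hHm k).div_const _)
  have mG : ∀ m : ℕ, Measurable (fun ω' => F (stepD (m + 1)
      (fun k => |B ((k : ℝ≥0) / ((m + 1 : ℕ) : ℝ≥0)) ω'|))) := by
    intro m
    refine (hstep (m + 1)).comp (measurable_pi_lambda _ fun k => ?_)
    exact continuous_abs.measurable.comp (hB.meas _)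
  -- the step approximation of the limit
  have hA : Tendsto (fun m : ℕ => ∫ ω', F (stepD (m + 1)
      (fun k => |B ((k : ℝ≥0) / ((m + 1 : ℕ) : ℝ≥0)) ω'|)) ∂P') atTop
      (𝓝 (∫ ω', F (absD (fun t => B t ω') (hB.cont ω')) ∂P')) := by
    refine tendsto_integral_of_dominated_convergence (fun _ => C)
      (fun m => (mG m).aestronglyMeasurable) (integrable_const _)
      (fun m => Eventually.of_forall fun ω' => by rw [Real.norm_eq_abs]; exact hC _) ?_
    exact Eventually.of_forall fun ω' => (hFc.tendsto _).comp (absD_lim _ (hB.cont ω'))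
  rw [Metric.tendsto_atTop]
  intro ε hε
  set ε₁ : ℝ := ε / (16 * (L + 1)) with hε₁
  have hε₁0 : 0 < ε₁ := by positivity
  have hLε : (L : ℝ) * ε₁ ≤ ε / 16 := by
    rw [hε₁, mul_div_assoc', div_le_div_iff₀ (by positivity) (by norm_num)]
    nlinarith
  set T : ℝ := 1 / ε₁ with hT
  have hT0 : 0 < T := by positivity
  set η' : ℝ := ε / (64 * (C + 1)) with hη'
  have hη'0 : 0 < η' := by positivity
  set σ' : ℝ := √σ2 / η with hσ'
  have hσ'0 : 0 < σ' := by positivity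
  have hση : η * σ' = √σ2 := by rw [hσ']; field_simp
  obtain ⟨δ, hδ, hmod1⟩ := hmod T (ε₁ * √σ2 / 2) η' hT0 (by positivity) hη'0
  have hclose1 := (tendsto_order.1 (hclose T (ε₁ * σ' / 2) hT0 (by positivity))).2
    (ENNReal.ofReal η') (ENNReal.ofReal_pos.2 hη'0)
  rw [Metric.tendsto_atTop] at hA
  obtain ⟨M₁, hM₁⟩ := hA (ε / 8) (by positivity)
  obtain ⟨M₂, hM₂⟩ := exists_nat_gt (2 / δ)
  set m : ℕ := max M₁ M₂ with hm
  have hAm := hM₁ m (le_max_left _ _)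
  set M : ℕ := m + 1 with hM
  have hM0 : (0 : ℝ) < (M : ℝ) := by rw [hM]; positivity
  have hMδ : 1 / (M : ℝ) ≤ δ / 2 := by
    have h1 : (M₂ : ℝ) ≤ M := by
      have : M₂ ≤ M := (le_max_right _ _).trans (Nat.le_succ _)
      exact_mod_cast this
    rw [div_le_iff₀ hM0]
    rw [div_lt_iff₀ hδ] at hM₂
    nlinarith
  set K : ℕ := ⌊(M : ℝ) * T⌋₊ with hK
  set E : (Fin (K + 1) → Fin 1 → ℝ) → DD := fun v =>
    stepD M (fun k => |v ⟨min k K, by omega⟩ 0| / √σ2) with hE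
  have hEc : Continuous E := by
    refine (continuous_stepD M).comp (continuous_pi fun k => ?_)
    exact (continuous_abs.comp ((continuous_apply (0 : Fin 1)).comp
      (continuous_apply (⟨min k K, by omega⟩ : Fin (K + 1))))).div_const _
  -- the finite dimensional distributions
  have hfd := Pool.Agent.H979.QIP.fdd_conv Pw P' (K + 1)
    (fun (n : ℕ) ξ (j : Fin (K + 1)) (_ : Fin 1) => Z ⌊((j : ℕ) : ℝ) / M * n⌋₊ ξ / √(n : ℝ))
    (fun ω' (j : Fin (K + 1)) (_ : Fin 1) => √σ2 * B (((j : ℕ) : ℝ≥0) / (M : ℝ≥0)) ω')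
    (fun n => measurable_pi_lambda _ fun j => measurable_pi_lambda _ fun _ =>
      (hZm _).div_const _)
    (measurable_pi_lambda _ fun j => measurable_pi_lambda _ fun _ => (hB.meas _).const_mul _)
    (fun u => by
      have h1 := hfdd (K + 1) (fun j => ((j : ℕ) : ℝ) / M) (fun j => u j 0)
        (fun j => by positivity)
      have h2 := hB.law (K + 1) (fun j => ((j : ℕ) : ℝ≥0) / (M : ℝ≥0)) (fun j => u j 0 * √σ2)
      have e1 : (∫ w, Complex.exp (Complex.I * ((∑ j : Fin (K + 1), ∑ a : Fin 1,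
          u j a * (√σ2 * B (((j : ℕ) : ℝ≥0) / (M : ℝ≥0)) w) : ℝ) : ℂ)) ∂P') =
          Complex.exp (-((∑ j : Fin (K + 1), ∑ l : Fin (K + 1),
            min (((j : ℕ) : ℝ) / M) (((l : ℕ) : ℝ) / M) * (u j 0 * σ2 * u l 0) : ℝ) : ℂ) / 2) := by
        have e2 : ∀ w, (∑ j : Fin (K + 1), ∑ a : Fin 1,
            u j a * (√σ2 * B (((j : ℕ) : ℝ≥0) / (M : ℝ≥0)) w) : ℝ) =
            ∑ j : Fin (K + 1), (u j 0 * √σ2) * B (((j : ℕ) : ℝ≥0) / (M : ℝ≥0)) w := by
          intro w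
          refine Finset.sum_congr rfl fun j _ => ?_
          rw [Fin.sum_univ_one]
          ring
        simp only [e2]
        rw [h2]
        congr 3
        norm_cast
        refine Finset.sum_congr rfl fun j _ => Finset.sum_congr rfl fun l _ => ?_
        rw [NNReal.coe_min]
        push_cast
        have e3 : u j 0 * √σ2 * (u l 0 * √σ2) = u j 0 * σ2 * u l 0 := by
          have e4 : u j 0 * √σ2 * (u l 0 * √σ2) = u j 0 * (√σ2 * √σ2) * u l 0 := by ring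
          rw [e4, hs2']
        rw [e3]
      rw [e1]
      refine h1.congr fun n => ?_
      refine integral_congr_ae (Eventually.of_forall fun w => ?_)
      simp only [Fin.sum_univ_one])
    (fun v => F (E v)) (hFc.comp hEc) C (fun x => hC _)
  rw [Metric.tendsto_atTop] at hfd
  obtain ⟨N₁, hN₁⟩ := hfd (ε / 8) (by positivity)
  obtain ⟨N₂, hN₂⟩ := eventually_atTop.1 (hmod1.and hclose1)
  obtain ⟨N₃, hN₃⟩ := exists_nat_gt (2 / δ)
  refine ⟨max (max N₁ N₂) (max N₃ 1), fun n hn => ?_⟩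
  have g1 := hN₁ n (by omega)
  have g2 := hN₂ n (by omega)
  have hn1 : 1 ≤ n := by omega
  have hn0 : (0 : ℝ) < n := by exact_mod_cast hn1
  have hsn : 0 < √(n : ℝ) := Real.sqrt_pos.2 hn0
  have hnδ : 1 ≤ δ / 2 * n := by
    have h1 : (N₃ : ℝ) ≤ n := by exact_mod_cast (show N₃ ≤ n by omega)
    rw [div_lt_iff₀ hδ] at hN₃
    nlinarith
  have hFE : Measurable (fun v => F (E v)) := (hFc.comp hEc).measurable
  have mv1 : Measurable (fun ω' => (fun (j : Fin (K + 1)) (_ : Fin 1) =>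
      √σ2 * B (((j : ℕ) : ℝ≥0) / (M : ℝ≥0)) ω')) :=
    measurable_pi_lambda _ fun j => measurable_pi_lambda _ fun _ => (hB.meas _).const_mul _
  have mE1 : Measurable (fun ω' => F (E (fun (j : Fin (K + 1)) (_ : Fin 1) =>
      √σ2 * B (((j : ℕ) : ℝ≥0) / (M : ℝ≥0)) ω'))) := hFE.comp mv1
  have mv2 : Measurable (fun ξ => (fun (j : Fin (K + 1)) (_ : Fin 1) =>
      Z ⌊((j : ℕ) : ℝ) / M * n⌋₊ ξ / √(n : ℝ))) :=
    measurable_pi_lambda _ fun j => measurable_pi_lambda _ fun _ => (hZm _).div_const _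
  have mE2 : Measurable (fun ξ => F (E (fun (j : Fin (K + 1)) (_ : Fin 1) =>
      Z ⌊((j : ℕ) : ℝ) / M * n⌋₊ ξ / √(n : ℝ)))) := hFE.comp mv2
  -- the limit side
  have x1 : |∫ ω', F (E (fun (j : Fin (K + 1)) (_ : Fin 1) =>
      √σ2 * B (((j : ℕ) : ℝ≥0) / (M : ℝ≥0)) ω')) ∂P' -
      ∫ ω', F (stepD M (fun k => |B ((k : ℝ≥0) / ((M : ℕ) : ℝ≥0)) ω'|)) ∂P'| ≤
      L * ε₁ + 2 * C * 0 := by
    refine int_close P' mE1 (mG m) (fun _ => hC _)
      (fun _ => hC _) ∅ MeasurableSet.empty (by positivity) hC0 (by simp) fun ω' _ => ?_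
    have h1 : dist (E (fun (j : Fin (K + 1)) (_ : Fin 1) =>
        √σ2 * B (((j : ℕ) : ℝ≥0) / (M : ℝ≥0)) ω'))
        (stepD M (fun k => |B ((k : ℝ≥0) / ((M : ℕ) : ℝ≥0)) ω'|)) ≤ ε₁ := by
      refine ludist_le hε₁0 fun t ht => ?_
      have hqK : ⌊(M : ℝ) * t⌋₊ ≤ K :=
        Nat.floor_le_floor (mul_le_mul_of_nonneg_left ht hM0.le)
      show |(|√σ2 * B (((min ⌊(M : ℝ) * t⌋₊ K : ℕ) : ℝ≥0) / (M : ℝ≥0)) ω'| / √σ2 -
        |B ((⌊(M : ℝ) * t⌋₊ : ℝ≥0) / ((M : ℕ) : ℝ≥0)) ω'|)| ≤ ε₁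
      rw [min_eq_left hqK, abs_mul, abs_of_pos hs2, mul_div_assoc, mul_div_cancel₀ _ hs2.ne',
        sub_self, abs_zero]
      exact hε₁0.le
    have h2 := hL.dist_le_mul (E (fun (j : Fin (K + 1)) (_ : Fin 1) =>
        √σ2 * B (((j : ℕ) : ℝ≥0) / (M : ℝ≥0)) ω'))
        (stepD M (fun k => |B ((k : ℝ≥0) / ((M : ℕ) : ℝ≥0)) ω'|))
    rw [Real.dist_eq] at h2
    exact h2.trans (mul_le_mul_of_nonneg_left h1 hL0)
  -- the side of the walk
  set bad : Set Ξ := {ξ | ∃ j k : ℕ, (j : ℝ) ≤ T * n ∧ (k : ℝ) ≤ T * n ∧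
      |(j : ℝ) - k| ≤ δ * n ∧ ε₁ * √σ2 / 2 * √n < |Z j ξ - Z k ξ|} ∪
      {ξ | ∃ k : ℕ, (k : ℝ) ≤ T * n ∧ ε₁ * σ' / 2 * √n < |H k ξ - |Z k ξ| / η|} with hbad
  have hbadp : Pw bad ≤ ENNReal.ofReal (2 * η') := by
    refine (measure_union_le _ _).trans ?_
    rw [two_mul, ENNReal.ofReal_add hη'0.le hη'0.le]
    exact add_le_add g2.1 g2.2.le
  have hDp : Pw.real (toMeasurable Pw bad) ≤ 2 * η' := by
    rw [Measure.real]
    refine ENNReal.toReal_le_of_le_ofReal (by positivity) ?_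
    rw [measure_toMeasurable]
    exact hbadp
  have x2 : |∫ ξ, F (stepD n (fun k => H k ξ / (σ' * √n))) ∂Pw -
      ∫ ξ, F (E (fun (j : Fin (K + 1)) (_ : Fin 1) =>
        Z ⌊((j : ℕ) : ℝ) / M * n⌋₊ ξ / √(n : ℝ))) ∂Pw| ≤ L * ε₁ + 2 * C * (2 * η') := by
    refine int_close Pw (mY n) mE2 (fun _ => hC _) (fun _ => hC _)
      (toMeasurable Pw bad) (measurableSet_toMeasurable _ _) (by positivity) hC0 hDp
      fun ξ hξ => ?_
    have hξ' : ξ ∉ bad := fun h => hξ (subset_toMeasurable _ _ h)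
    have h1 : dist (stepD n (fun k => H k ξ / (σ' * √n))) (E (fun (j : Fin (K + 1)) (_ : Fin 1) =>
        Z ⌊((j : ℕ) : ℝ) / M * n⌋₊ ξ / √(n : ℝ))) ≤ ε₁ := by
      refine ludist_le hε₁0 fun t ht => ?_
      have ht0 : (0 : ℝ) ≤ t := t.2
      have hqK : ⌊(M : ℝ) * t⌋₊ ≤ K :=
        Nat.floor_le_floor (mul_le_mul_of_nonneg_left ht hM0.le)
      show |H ⌊(n : ℝ) * t⌋₊ ξ / (σ' * √n) -
        |Z ⌊((min ⌊(M : ℝ) * t⌋₊ K : ℕ) : ℝ) / M * n⌋₊ ξ / √(n : ℝ)| / √σ2| ≤ ε₁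
      rw [min_eq_left hqK]
      set j : ℕ := ⌊(n : ℝ) * t⌋₊ with hj
      set q : ℕ := ⌊(M : ℝ) * t⌋₊ with hq
      set k : ℕ := ⌊(q : ℝ) / M * n⌋₊ with hk
      have j1 : (j : ℝ) ≤ n * t := Nat.floor_le (by positivity)
      have j2 : (n : ℝ) * t < j + 1 := Nat.lt_floor_add_one _
      have q1 : (q : ℝ) ≤ M * t := Nat.floor_le (by positivity)
      have q2 : (M : ℝ) * t < q + 1 := Nat.lt_floor_add_one _
      have k1 : (k : ℝ) ≤ (q : ℝ) / M * n := Nat.floor_le (by positivity)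
      have k2 : (q : ℝ) / M * n < k + 1 := Nat.lt_floor_add_one _
      have q3 : (q : ℝ) / M ≤ t := by rw [div_le_iff₀ hM0]; linarith
      have q4 : (t : ℝ) ≤ (q : ℝ) / M + 1 / M := by
        rw [← add_div, le_div_iff₀ hM0]; linarith
      have q5 : (q : ℝ) / M * n ≤ t * n := mul_le_mul_of_nonneg_right q3 hn0.le
      have q6 : (t : ℝ) * n ≤ (q : ℝ) / M * n + δ / 2 * n := by
        have : (t : ℝ) * n ≤ ((q : ℝ) / M + δ / 2) * n :=
          mul_le_mul_of_nonneg_right (by linarith) hn0.le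
        linarith
      have htT : (t : ℝ) * n ≤ T * n := mul_le_mul_of_nonneg_right ht hn0.le
      have hjT : (j : ℝ) ≤ T * n := by linarith [mul_comm (n : ℝ) t]
      have hkT : (k : ℝ) ≤ T * n := by linarith
      have hjk : |(j : ℝ) - k| ≤ δ * n := by
        rw [abs_le]
        have hc := mul_comm (n : ℝ) t
        constructor <;> linarith
      have b1 : |Z j ξ - Z k ξ| ≤ ε₁ * √σ2 / 2 * √n := by
        by_contra hcon
        exact hξ' (Or.inl ⟨j, k, hjT, hkT, hjk, not_le.1 hcon⟩)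
      have b2 : |H j ξ - |Z j ξ| / η| ≤ ε₁ * σ' / 2 * √n := by
        by_contra hcon
        exact hξ' (Or.inr ⟨j, hjT, not_le.1 hcon⟩)
      have e1 : H j ξ / (σ' * √n) - |Z k ξ / √(n : ℝ)| / √σ2 =
          (H j ξ - |Z j ξ| / η) / (σ' * √n) + (|Z j ξ| - |Z k ξ|) / (√σ2 * √n) := by
        rw [abs_div, abs_of_pos hsn, ← hση]
        field_simp
        ring
      rw [e1]
      refine (abs_add_le _ _).trans ?_
      rw [abs_div, abs_div, abs_of_pos (show 0 < σ' * √(n : ℝ) by positivity),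
        abs_of_pos (show 0 < √σ2 * √(n : ℝ) by positivity)]
      have c1 : |H j ξ - |Z j ξ| / η| / (σ' * √n) ≤ ε₁ / 2 := by
        rw [div_le_iff₀ (by positivity)]
        linarith
      have c2 : |(|Z j ξ| - |Z k ξ|)| / (√σ2 * √n) ≤ ε₁ / 2 := by
        rw [div_le_iff₀ (by positivity)]
        have := abs_abs_sub_abs_le_abs_sub (Z j ξ) (Z k ξ)
        linarith
      linarith
    have h2 := hL.dist_le_mul (stepD n (fun k => H k ξ / (σ' * √n)))
      (E (fun (j : Fin (K + 1)) (_ : Fin 1) => Z ⌊((j : ℕ) : ℝ) / M * n⌋₊ ξ / √(n : ℝ)))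
    rw [Real.dist_eq] at h2
    exact h2.trans (mul_le_mul_of_nonneg_left h1 hL0)
  have hCη : 2 * C * (2 * η') ≤ ε / 16 := by
    rw [hη']
    have : 2 * C * (2 * (ε / (64 * (C + 1)))) = (4 * C * ε) / (64 * (C + 1)) := by ring
    rw [this, div_le_div_iff₀ (by positivity) (by norm_num)]
    nlinarith
  rw [Real.dist_eq] at g1 hAm ⊢
  rw [abs_le] at x1 x2
  rw [abs_lt] at g1 hAm ⊢
  constructor <;> linarith [x1.1, x1.2, x2.1, x2.2, g1.1, g1.2, hAm.1, hAm.2]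

theorem gw_conv : S_CONV := by
  intro Ξ _ Pw _ H Z σ2 η hσ hη hHm hZm hZ0 hfdd hmod hclose Ω' _ P' _ B hB F hF hb
  have hFc := cont_of_contLU hF
  letI : MeasurableSpace DD := borel _
  haveI : BorelSpace DD := ⟨rfl⟩
  have mX : ∀ n : ℕ, Measurable (fun ξ => stepD n (fun k => H k ξ / (√σ2 / η * √(n : ℝ)))) :=
    fun n => (continuous_stepD n).measurable.comp
      (measurable_pi_lambda _ fun k => (hHm k).div_const _)
  have mW : Measurable (fun ω' => absD (fun t => B t ω') (hB.cont ω')) := by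
    refine measurable_of_tendsto_metrizable (f := fun (m : ℕ) ω' =>
      stepD (m + 1) (fun k => |B ((k : ℝ≥0) / ((m + 1 : ℕ) : ℝ≥0)) ω'|)) (fun m => ?_) ?_
    · refine (continuous_stepD (m + 1)).measurable.comp (measurable_pi_lambda _ fun k => ?_)
      exact continuous_abs.measurable.comp (hB.meas _)
    · rw [tendsto_pi_nhds]
      intro ω'
      exact absD_lim _ (hB.cont ω')
  let μ : ℕ → ProbabilityMeasure DD := fun n =>
    ⟨Pw.map (fun ξ => stepD n (fun k => H k ξ / (√σ2 / η * √(n : ℝ)))),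
      Measure.isProbabilityMeasure_map (mX n).aemeasurable⟩
  let μ₀ : ProbabilityMeasure DD :=
    ⟨P'.map (fun ω' => absD (fun t => B t ω') (hB.cont ω')),
      Measure.isProbabilityMeasure_map mW.aemeasurable⟩
  have hlim : Tendsto μ atTop (𝓝 μ₀) := by
    rw [tendsto_iff_forall_lipschitz_integral_tendsto]
    rintro f ⟨C', hC'⟩ ⟨L, hL⟩
    have hfb : ∀ x, |f x| ≤ |f (stepD 0 (fun _ => 0))| + C' := by
      intro x
      have := hC' x (stepD 0 (fun _ => 0))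
      rw [Real.dist_eq] at this
      have h2 := abs_sub_abs_le_abs_sub (f x) (f (stepD 0 (fun _ => 0)))
      linarith
    have := conv_lip Ξ Pw H Z σ2 η hσ hη hHm hZm hfdd hmod hclose Ω' P' B hB f _ hfb L hL
    have e1 : ∀ n, ∫ x, f x ∂(μ n : Measure DD) =
        ∫ ξ, f (stepD n (fun k => H k ξ / (√σ2 / η * √(n : ℝ)))) ∂Pw := by
      intro n
      show ∫ x, f x ∂(Pw.map (fun ξ => stepD n (fun k => H k ξ / (√σ2 / η * √(n : ℝ))))) = _
      rw [integral_map (mX n).aemeasurable hL.continuous.measurable.aestronglyMeasurable]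
    have e2 : ∫ x, f x ∂(μ₀ : Measure DD) =
        ∫ ω', f (absD (fun t => B t ω') (hB.cont ω')) ∂P' := by
      show ∫ x, f x ∂(P'.map (fun ω' => absD (fun t => B t ω') (hB.cont ω'))) = _
      rw [integral_map mW.aemeasurable hL.continuous.measurable.aestronglyMeasurable]
    simp only [e1, e2]
    exact this
  obtain ⟨C, hC⟩ := hb
  rw [ProbabilityMeasure.tendsto_iff_forall_integral_tendsto] at hlim
  have h1 := hlim (BoundedContinuousFunction.ofNormedAddCommGroup F hFc C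
    (fun x => by rw [Real.norm_eq_abs]; exact hC _))
  have e1 : ∀ n, ∫ x, (BoundedContinuousFunction.ofNormedAddCommGroup F hFc C
      (fun x => by rw [Real.norm_eq_abs]; exact hC _)) x ∂(μ n : Measure DD) =
      ∫ ξ, F (stepD n (fun k => H k ξ / (√σ2 / η * √(n : ℝ)))) ∂Pw := by
    intro n
    show ∫ x, F x ∂(Pw.map (fun ξ => stepD n (fun k => H k ξ / (√σ2 / η * √(n : ℝ))))) = _
    rw [integral_map (mX n).aemeasurable hFc.measurable.aestronglyMeasurable]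
  have e2 : ∫ x, (BoundedContinuousFunction.ofNormedAddCommGroup F hFc C
      (fun x => by rw [Real.norm_eq_abs]; exact hC _)) x ∂(μ₀ : Measure DD) =
      ∫ ω', F (absD (fun t => B t ω') (hB.cont ω')) ∂P' := by
    show ∫ x, F x ∂(P'.map (fun ω' => absD (fun t => B t ω') (hB.cont ω'))) = _
    rw [integral_map mW.aemeasurable hFc.measurable.aestronglyMeasurable]
  simp only [e1, e2] at h1
  exact h1

end Pool.Agent.H935.GWC

namespace Pool.Agent.H935

theorem gw_conv : Pool.Agent.H979.GW.S_CONV := GWC.gw_conv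

end Pool.Agent.H935
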