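import Pool.Agent.H387.QR.CqInst
import Pool.Agent.H387.QR.Defs3
import Pool.Agent.H387.QR.Qnum

/-!
# QR-EX. Worked example: `𝔤 = sl₂`, `λ = (1, 1, 0)`: all data of the q-roundness theorem exist, and the
determinant is `-[2] = -(q + q⁻¹)`
-/

set_option linter.unusedSectionVars false

namespace Pool.Agent.H387.QR.Ex

open scoped TensorProduct

/-- The Cartan matrix of `sl₂`. -/
def C2 : Cartan Unit where
  a _ _ := 2
  d _ := 1
  d_pos _ := one_pos
  diag _ := rfl
  off i j h := absurd (Subsingleton.elim i j) h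
  symm _ _ := rfl
  pos n hn := by
    have h : n () ≠ 0 := fun h => hn (funext fun _ => h)
    simp only [Finset.univ_unique, Finset.sum_singleton]
    have : 0 < n () * n () := mul_self_pos.2 h
    show 0 < n PUnit.unit * (((1 : ℕ) : ℤ) * 2) * n PUnit.unit
    have e : n PUnit.unit * (((1 : ℕ) : ℤ) * 2) * n PUnit.unit = 2 * (n () * n ()) := by
      push_cast; ring
    rw [e]; omega

section field

variable (K : Type) [Field K] [HasQ K]

theorem br2 : C2.br () () = 2 := rfl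

theorem qz2 : qq K ^ (2 : ℤ) = qq K * qq K := by
  rw [zpow_ofNat, pow_two]

theorem qzm2 : qq K ^ (-2 : ℤ) = (qq K)⁻¹ * (qq K)⁻¹ := by
  rw [zpow_neg, qz2, mul_inv]

theorem q_ne0 : qq K ≠ 0 := HasQ.q_ne

theorem hq1_ne : qq K - (qq K)⁻¹ ≠ 0 := by
  rw [← hq_one]
  exact hq_ne one_ne_zero

end field

section mod1

variable (K : Type) [Field K] [HasQ K]

/-- the standard operators on `K²` -/
def opE : (Fin 2 → K) →ₗ[K] (Fin 2 → K) where
  toFun x := ![x 1, 0]
  map_add' x y := by ext i; fin_cases i <;> simp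
  map_smul' c x := by ext i; fin_cases i <;> simp

def opF : (Fin 2 → K) →ₗ[K] (Fin 2 → K) where
  toFun x := ![0, x 0]
  map_add' x y := by ext i; fin_cases i <;> simp
  map_smul' c x := by ext i; fin_cases i <;> simp

def opK (a : K) : (Fin 2 → K) →ₗ[K] (Fin 2 → K) where
  toFun x := ![a * x 0, a⁻¹ * x 1]
  map_add' x y := by ext i; fin_cases i <;> simp [mul_add]
  map_smul' c x := by ext i; fin_cases i <;> simp [mul_left_comm]

omit [HasQ K] in
theorem opE_apply (x : Fin 2 → K) : opE K x = ![x 1, 0] := rfl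
omit [HasQ K] in
theorem opF_apply (x : Fin 2 → K) : opF K x = ![0, x 0] := rfl
omit [HasQ K] in
theorem opK_apply (a : K) (x : Fin 2 → K) : opK K a x = ![a * x 0, a⁻¹ * x 1] := rfl

omit [Field K] [HasQ K] in
variable {K} in
theorem v2_ext {x y : Fin 2 → K} (h0 : x 0 = y 0) (h1 : x 1 = y 1) : x = y := by
  ext i
  fin_cases i
  · exact h0
  · exact h1

/-- the module `V₁` -/
def V1 : Mod C2 K (Fin 2 → K) where
  E _ := opE K
  F _ := opF K
  Kp _ := opK K (qq K)
  Km _ := opK K (qq K)⁻¹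
  kpkm _ x := by
    have h0 := q_ne0 K
    apply v2_ext <;> simp [opK_apply, h0]
  kmkp _ x := by
    have h0 := q_ne0 K
    apply v2_ext <;> simp [opK_apply, h0]
  kcomm _ _ x := rfl
  ke _ _ x := by
    have h0 := q_ne0 K
    change opK K (qq K) (opE K x) = qq K ^ (2 : ℤ) • opE K (opK K (qq K) x)
    rw [qz2]
    apply v2_ext
    · simp [opK_apply, opE_apply]
      field_simp
    · simp [opK_apply, opE_apply]
  kf _ _ x := by
    have h0 := q_ne0 K
    change opK K (qq K) (opF K x) = qq K ^ (-2 : ℤ) • opF K (opK K (qq K) x)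
    rw [qzm2]
    apply v2_ext
    · simp [opK_apply, opF_apply]
    · simp [opK_apply, opF_apply]
      field_simp
  ef _ _ x := by
    have h0 := q_ne0 K
    have h1 := hq1_ne K
    rw [if_pos rfl]
    change opE K (opF K x) - opF K (opE K x) =
      (hq K 1)⁻¹ • (opK K (qq K) x - opK K (qq K)⁻¹ x)
    rw [hq_one]
    apply v2_ext
    · simp only [opK_apply, opE_apply, opF_apply, Pi.sub_apply, Pi.smul_apply, smul_eq_mul,
        Matrix.cons_val_zero, Matrix.cons_val_one]
      rw [← sub_mul, ← mul_assoc, inv_mul_cancel₀ h1, one_mul, sub_zero]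
    · simp only [opK_apply, opE_apply, opF_apply, Pi.sub_apply, Pi.smul_apply, smul_eq_mul,
        Matrix.cons_val_zero, Matrix.cons_val_one, inv_inv]
      rw [← sub_mul, ← mul_assoc, ← neg_sub (qq K) (qq K)⁻¹, mul_neg, inv_mul_cancel₀ h1]
      ring

/-- the module `V₀` -/
def V0 : Mod C2 K K where
  E _ := 0
  F _ := 0
  Kp _ := LinearMap.id
  Km _ := LinearMap.id
  kpkm _ _ := rfl
  kmkp _ _ := rfl
  kcomm _ _ _ := rfl
  ke _ _ x := by simp
  kf _ _ x := by simp
  ef _ _ x := by simp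

end mod1

section can

variable (K : Type) [Field K] [HasQ K] [Cq K]

theorem small_zero : SmallAtInf (0 : K) := by
  refine ⟨0, 1, ?_, ?_⟩
  · rw [Polynomial.degree_zero, Polynomial.degree_one]
    exact WithBot.bot_lt_coe 0
  · rw [zero_mul, Polynomial.eval₂_zero]

theorem bar_qinv : Cq.bar (qq K)⁻¹ = qq K := by
  rw [map_inv₀, Cq.bar_q, inv_inv]

/-- the coordinatewise bar involution -/
def bar1 : (Fin 2 → K) →ₛₗ[Cq.bar (K := K)] (Fin 2 → K) where
  toFun x i := Cq.bar (x i)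
  map_add' x y := by ext i; simp
  map_smul' c x := by ext i; simp

def bar0 : K →ₛₗ[Cq.bar (K := K)] K where
  toFun x := Cq.bar x
  map_add' x y := by simp
  map_smul' c x := by simp

/-- the standard bilinear form -/
def frm : (Fin 2 → K) →ₗ[K] (Fin 2 → K) →ₗ[K] K :=
  LinearMap.mk₂ K (fun x y => x 0 * y 0 + x 1 * y 1)
    (by intro x y z; simp only [Pi.add_apply]; ring)
    (by intro c x y; simp only [Pi.smul_apply, smul_eq_mul]; ring)
    (by intro x y z; simp only [Pi.add_apply]; ring)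
    (by intro c x y; simp only [Pi.smul_apply, smul_eq_mul]; ring)

theorem frm_apply (x y : Fin 2 → K) : frm K x y = x 0 * y 0 + x 1 * y 1 := rfl

theorem qdfac_one (n : ℕ) (hn : n ≤ 1) : qdfac K 1 n = 1 := by
  rcases Nat.le_one_iff_eq_zero_or_eq_one.1 hn with rfl | rfl
  · rfl
  · have h1 : qdfac K 1 1 = qdfac K 1 0 * qd K 1 ((0 : ℕ) + 1) := rfl
    have h2 : qd K 1 (((0 : ℕ) : ℤ) + 1) = 1 := by
      unfold qd hq
      rw [Nat.cast_zero, zero_add, mul_one]
      exact div_self (hq_ne one_ne_zero)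
    rw [h1, h2, mul_one]
    rfl

theorem irr1 : (V1 K).Irr := by
  intro S hS
  by_cases h : ∀ x ∈ S, x = 0
  · left
    rw [eq_bot_iff]
    intro x hx
    exact (Submodule.mem_bot K).2 (h x hx)
  · right
    push Not at h
    obtain ⟨x, hx, hx0⟩ := h
    have he0 : (![1, 0] : Fin 2 → K) ∈ S := by
      by_cases h1 : x 1 = 0
      · have h2 : x 0 ≠ 0 := by
          intro h3
          exact hx0 (v2_ext h3 h1)
        have h4 := S.smul_mem (x 0)⁻¹ hx
        have h5 : (x 0)⁻¹ • x = ![1, 0] := by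
          apply v2_ext
          · simp [h2]
          · simp [h1]
        rwa [h5] at h4
      · have h4 := S.smul_mem (x 1)⁻¹ (hS () x hx).1
        have h5 : (x 1)⁻¹ • (V1 K).E () x = ![1, 0] := by
          change (x 1)⁻¹ • opE K x = _
          apply v2_ext
          · simp [opE_apply, h1]
          · simp [opE_apply]
        rwa [h5] at h4
    have he1 : (![0, 1] : Fin 2 → K) ∈ S := (hS () _ he0).2.1
    rw [eq_top_iff]
    intro y _
    have h6 : y = y 0 • ![1, 0] + y 1 • ![0, 1] := by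
      apply v2_ext <;> simp
    rw [h6]
    exact S.add_mem (S.smul_mem _ he0) (S.smul_mem _ he1)

theorem opF_sq (x : Fin 2 → K) (n : ℕ) : ((opF K) ^ (n + 2)) x = 0 := by
  rw [pow_add, pow_two, Module.End.mul_apply, Module.End.mul_apply]
  have h : opF K (opF K x) = 0 := by
    apply v2_ext <;> simp [opF_apply]
  rw [h, map_zero]

theorem Fd1 (n : ℕ) (x : Fin 2 → K) : (V1 K).Fd () n x =
    if n = 0 then x else if n = 1 then opF K x else 0 := by
  have h1 : (V1 K).Fd () n x = (qdfac K 1 n)⁻¹ • ((opF K) ^ n) x := rfl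
  rw [h1]
  rcases n with _ | _ | n
  · rw [qdfac_one K 0 (by omega)]
    simp
  · rw [qdfac_one K 1 (by omega)]
    simp
  · rw [opF_sq]
    simp

theorem lat1 : Submodule.span (AA K) (Set.range (Pi.basisFun K (Fin 2))) =
    (V1 K).latA ![1, 0] := by
  apply le_antisymm
  · rw [Submodule.span_le]
    rintro _ ⟨i, rfl⟩
    fin_cases i
    · refine Submodule.subset_span ⟨[], ?_⟩
      apply v2_ext <;> simp [Mod.Fdw]
    · refine Submodule.subset_span ⟨[((), 1)], ?_⟩
      change (V1 K).Fd () 1 ![1, 0] = _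
      rw [Fd1]
      apply v2_ext <;> simp [opF_apply]
  · unfold Mod.latA
    rw [Submodule.span_le]
    rintro _ ⟨w, rfl⟩
    have hst : ∀ x ∈ Submodule.span (AA K) (Set.range (Pi.basisFun K (Fin 2))),
        opF K x ∈ Submodule.span (AA K) (Set.range (Pi.basisFun K (Fin 2))) := by
      intro x hx
      induction hx using Submodule.span_induction with
      | mem x hx =>
        obtain ⟨i, rfl⟩ := hx
        fin_cases i
        · have h : opF K (Pi.basisFun K (Fin 2) 0) = Pi.basisFun K (Fin 2) 1 := by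
            apply v2_ext <;> simp [opF_apply]
          change opF K (Pi.basisFun K (Fin 2) 0) ∈ _
          rw [h]
          exact Submodule.subset_span ⟨1, rfl⟩
        · have h : opF K (Pi.basisFun K (Fin 2) 1) = 0 := by
            apply v2_ext <;> simp [opF_apply]
          change opF K (Pi.basisFun K (Fin 2) 1) ∈ _
          rw [h]
          exact Submodule.zero_mem _
      | zero => rw [map_zero]; exact Submodule.zero_mem _
      | add x y _ _ h1 h2 => rw [map_add]; exact Submodule.add_mem _ h1 h2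
      | smul a x _ h1 =>
        have h : opF K (a • x) = a • opF K x := (opF K).map_smul (a : K) x
        rw [h]
        exact Submodule.smul_mem _ a h1
    induction w with
    | nil =>
      refine Submodule.subset_span ⟨0, ?_⟩
      apply v2_ext <;> simp [Mod.Fdw]
    | cons p w ih =>
      change (V1 K).Fd () p.2 ((V1 K).Fdw w ![1, 0]) ∈ _
      rw [Fd1]
      split_ifs
      · exact ih
      · exact hst _ ih
      · exact Submodule.zero_mem _

/-- the module `V₁` with its bases -/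
noncomputable def A1 : CanMod C2 K (fun _ => 1) (Fin 2 → K) (Fin 2) where
  V := V1 K
  serre i j h := absurd (Subsingleton.elim i j) h
  fin := inferInstance
  irr := irr1 K
  v := ![1, 0]
  v_ne h := one_ne_zero (congrFun h 0)
  v_E _ := by
    change opE K _ = 0
    apply v2_ext <;> simp [opE_apply]
  v_K _ := by
    change opK K (qq K) _ = qq K ^ (((1 : ℕ) : ℤ) * ((1 : ℕ) : ℤ)) • _
    apply v2_ext <;> simp [opK_apply]
  bar := bar1 K
  bar_v := by
    apply v2_ext
    · change Cq.bar (1 : K) = 1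
      exact map_one _
    · change Cq.bar (0 : K) = 0
      exact map_zero _
  bar_E _ x := by
    apply v2_ext
    · rfl
    · change Cq.bar (0 : K) = 0
      exact map_zero _
  bar_F _ x := by
    apply v2_ext
    · change Cq.bar (0 : K) = 0
      exact map_zero _
    · rfl
  bar_K _ x := by
    apply v2_ext
    · change Cq.bar (qq K * x 0) = (qq K)⁻¹ * Cq.bar (x 0)
      rw [map_mul, Cq.bar_q]
    · change Cq.bar ((qq K)⁻¹ * x 1) = ((qq K)⁻¹)⁻¹ * Cq.bar (x 1)
      rw [map_mul, bar_qinv, inv_inv]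
  rho := frm K
  rho_v := by simp [frm_apply]
  rho_E _ x y := by
    have h0 := q_ne0 K
    change frm K (opE K x) y = qq K ^ ((1 : ℕ) : ℤ) * frm K x (opK K (qq K) (opF K y))
    simp only [frm_apply, opE_apply, opK_apply, opF_apply, Matrix.cons_val_zero,
      Matrix.cons_val_one, Nat.cast_one, zpow_one]
    field_simp
    ring
  rho_F _ x y := by
    have h0 := q_ne0 K
    change frm K (opF K x) y = qq K ^ ((1 : ℕ) : ℤ) * frm K x (opK K (qq K)⁻¹ (opE K y))
    simp only [frm_apply, opE_apply, opK_apply, opF_apply, Matrix.cons_val_zero,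
      Matrix.cons_val_one, Nat.cast_one, zpow_one]
    field_simp
    ring
  rho_K _ x y := by
    change frm K (opK K (qq K) x) y = frm K x (opK K (qq K) y)
    simp only [frm_apply, opK_apply, Matrix.cons_val_zero, Matrix.cons_val_one]
    ring
  tau := frm K
  tau_v := by simp [frm_apply]
  tau_E _ x y := by
    change frm K (opE K x) y = frm K x (opF K y)
    simp only [frm_apply, opE_apply, opF_apply, Matrix.cons_val_zero, Matrix.cons_val_one]
    ring
  tau_F _ x y := by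
    change frm K (opF K x) y = frm K x (opE K y)
    simp only [frm_apply, opE_apply, opF_apply, Matrix.cons_val_zero, Matrix.cons_val_one]
    ring
  tau_K _ x y := by
    change frm K (opK K (qq K) x) y = frm K x (opK K (qq K) y)
    simp only [frm_apply, opK_apply, Matrix.cons_val_zero, Matrix.cons_val_one]
    ring
  b := Pi.basisFun K (Fin 2)
  b_wt j := by
    fin_cases j
    · refine ⟨fun _ => 1, fun _ => ?_⟩
      change opK K (qq K) _ = qq K ^ (((1 : ℕ) : ℤ) * 1) • _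
      apply v2_ext <;> simp [opK_apply]
    · refine ⟨fun _ => -1, fun _ => ?_⟩
      change opK K (qq K) _ = qq K ^ (((1 : ℕ) : ℤ) * (-1)) • _
      apply v2_ext <;> simp [opK_apply]
  b_lat := lat1 K
  b_bar j := by
    fin_cases j
    · apply v2_ext <;> simp [bar1]
    · apply v2_ext <;> simp [bar1]
  b_orth j k := by
    have h : frm K (Pi.basisFun K (Fin 2) j) (Pi.basisFun K (Fin 2) k) -
        (if j = k then 1 else 0) = 0 := by
      fin_cases j <;> fin_cases k <;> simp [frm_apply]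
    rw [h]
    exact small_zero K
  bd := Pi.basisFun K (Fin 2)
  bd_tau j k := by
    fin_cases j <;> fin_cases k <;> simp [frm_apply]

theorem Fd0 (n : ℕ) (x : K) : (V0 K).Fd () n x = if n = 0 then x else 0 := by
  have h1 : (V0 K).Fd () n x = (qdfac K 1 n)⁻¹ • ((0 : K →ₗ[K] K) ^ n) x := rfl
  rw [h1]
  rcases n with _ | n
  · rw [qdfac_one K 0 (by omega)]
    simp
  · rw [pow_succ, mul_zero]
    simp

theorem lat0 : Submodule.span (AA K) (Set.range (Module.Basis.singleton (Fin 1) K)) =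
    (V0 K).latA 1 := by
  apply le_antisymm
  · rw [Submodule.span_le]
    rintro _ ⟨i, rfl⟩
    refine Submodule.subset_span ⟨[], ?_⟩
    simp [Mod.Fdw]
  · unfold Mod.latA
    rw [Submodule.span_le]
    rintro _ ⟨w, rfl⟩
    induction w with
    | nil =>
      refine Submodule.subset_span ⟨0, ?_⟩
      simp [Mod.Fdw]
    | cons p w ih =>
      change (V0 K).Fd () p.2 ((V0 K).Fdw w 1) ∈ _
      rw [Fd0]
      split_ifs
      · exact ih
      · exact Submodule.zero_mem _

/-- the trivial module with its bases -/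
noncomputable def A0 : CanMod C2 K (fun _ => 0) K (Fin 1) where
  V := V0 K
  serre i j h := absurd (Subsingleton.elim i j) h
  fin := inferInstance
  irr := fun S _ => eq_bot_or_eq_top S
  v := 1
  v_ne := one_ne_zero
  v_E _ := rfl
  v_K _ := by
    change (1 : K) = qq K ^ (((1 : ℕ) : ℤ) * ((0 : ℕ) : ℤ)) • (1 : K)
    simp
  bar := bar0 K
  bar_v := map_one (Cq.bar (K := K))
  bar_E _ x := map_zero _
  bar_F _ x := map_zero _
  bar_K _ x := rfl
  rho := LinearMap.mul K K
  rho_v := by simp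
  rho_E _ x y := by
    change LinearMap.mul K K 0 y = qq K ^ ((1 : ℕ) : ℤ) * LinearMap.mul K K x 0
    simp
  rho_F _ x y := by
    change LinearMap.mul K K 0 y = qq K ^ ((1 : ℕ) : ℤ) * LinearMap.mul K K x 0
    simp
  rho_K _ x y := rfl
  tau := LinearMap.mul K K
  tau_v := by simp
  tau_E _ x y := by
    change LinearMap.mul K K 0 y = LinearMap.mul K K x 0
    simp
  tau_F _ x y := by
    change LinearMap.mul K K 0 y = LinearMap.mul K K x 0
    simp
  tau_K _ x y := rfl
  b := Module.Basis.singleton (Fin 1) K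
  b_wt j := by
    refine ⟨fun _ => 0, fun _ => ?_⟩
    simp [V0]
  b_lat := lat0 K
  b_bar j := by
    rw [Module.Basis.singleton_apply]
    exact map_one (Cq.bar (K := K))
  b_orth j k := by
    have h : LinearMap.mul K K (Module.Basis.singleton (Fin 1) K j)
        (Module.Basis.singleton (Fin 1) K k) - (if j = k then 1 else 0) = 0 := by
      rw [if_pos (Subsingleton.elim j k)]
      simp
    rw [h]
    exact small_zero K
  bd := Module.Basis.singleton (Fin 1) K
  bd_tau j k := by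
    rw [if_pos (Subsingleton.elim j k)]
    simp

/-- the invariant pairing on `V₁` -/
def ev1 : (Fin 2 → K) →ₗ[K] (Fin 2 → K) →ₗ[K] K :=
  LinearMap.mk₂ K (fun y x => y 1 * x 0 - (qq K)⁻¹ * (y 0 * x 1))
    (by intro x y z; simp only [Pi.add_apply]; ring)
    (by intro c x y; simp only [Pi.smul_apply, smul_eq_mul]; ring)
    (by intro x y z; simp only [Pi.add_apply]; ring)
    (by intro c x y; simp only [Pi.smul_apply, smul_eq_mul]; ring)

theorem ev1_apply (y x : Fin 2 → K) : ev1 K y x = y 1 * x 0 - (qq K)⁻¹ * (y 0 * x 1) := rfl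

noncomputable def P1 : Duality (A1 K) (A1 K) where
  ev := ev1 K
  pair := by
    have h0 := q_ne0 K
    refine ⟨fun _ y x => ?_, fun _ y x => ?_, fun _ y x => ?_⟩
    · change ev1 K (opE K y) x + ev1 K (opK K (qq K) y) (opE K x) = 0
      simp only [ev1_apply, opE_apply, opK_apply, Matrix.cons_val_zero, Matrix.cons_val_one]
      ring
    · change ev1 K (opF K y) (opK K (qq K)⁻¹ x) + ev1 K y (opF K x) = 0
      simp only [ev1_apply, opF_apply, opK_apply, Matrix.cons_val_zero, Matrix.cons_val_one]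
      ring
    · change ev1 K (opK K (qq K) y) (opK K (qq K) x) = ev1 K y x
      simp only [ev1_apply, opK_apply, Matrix.cons_val_zero, Matrix.cons_val_one]
      field_simp
  low := 1
  low_F _ := by
    change opF K (Pi.basisFun K (Fin 2) 1) = 0
    apply v2_ext <;> simp [opF_apply]
  low_K _ := by
    change opK K (qq K) (Pi.basisFun K (Fin 2) 1) =
      qq K ^ (-(((1 : ℕ) : ℤ) * ((1 : ℕ) : ℤ))) • Pi.basisFun K (Fin 2) 1
    apply v2_ext <;> simp [opK_apply]
  norm := by
    change ev1 K (Pi.basisFun K (Fin 2) 1) ![1, 0] = 1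
    simp [ev1_apply]

noncomputable def P0 : Duality (A0 K) (A0 K) where
  ev := LinearMap.mul K K
  pair := by
    refine ⟨fun _ y x => ?_, fun _ y x => ?_, fun _ y x => rfl⟩
    · change LinearMap.mul K K 0 x + LinearMap.mul K K y 0 = 0
      simp
    · change LinearMap.mul K K 0 x + LinearMap.mul K K y 0 = 0
      simp
  low := 0
  low_F _ := rfl
  low_K _ := by
    change Module.Basis.singleton (Fin 1) K 0 =
      qq K ^ (-(((1 : ℕ) : ℤ) * ((0 : ℕ) : ℤ))) • Module.Basis.singleton (Fin 1) K 0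
    simp
  norm := by
    change LinearMap.mul K K (Module.Basis.singleton (Fin 1) K 0) 1 = 1
    simp

end can

section gen

variable {K : Type} [Field K] [HasQ K] [Cq K] {L : Type} [AddCommGroup L] [Module K L]

/-- the semilinear map with given values on a basis -/
noncomputable def semi {J : Type} [Fintype J] (T : Module.Basis J K L) (v : J → L) :
    L →ₛₗ[Cq.bar (K := K)] L where
  toFun z := ∑ j, Cq.bar (T.repr z j) • v j
  map_add' x y := by simp [add_smul, Finset.sum_add_distrib]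
  map_smul' c x := by simp [mul_smul, Finset.smul_sum]

theorem semi_basis {J : Type} [Fintype J] (T : Module.Basis J K L) (v : J → L) (j : J) :
    semi T v (T j) = v j := by
  classical
  change ∑ k, Cq.bar (T.repr (T j) k) • v k = v j
  rw [Finset.sum_eq_single j]
  · rw [Module.Basis.repr_self, Finsupp.single_eq_same, map_one, one_smul]
  · intro k _ hk
    rw [Module.Basis.repr_self, Finsupp.single_eq_of_ne hk, map_zero, zero_smul]
  · intro h
    exact absurd (Finset.mem_univ j) h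

/-- The action on the four vectors `e_i ⊗ e_j`. -/
structure Tab (W : Mod C2 K L) (T : Fin 2 × Fin 2 → L) : Prop where
  E00 : W.E () (T (0, 0)) = 0
  E01 : W.E () (T (0, 1)) = qq K • T (0, 0)
  E10 : W.E () (T (1, 0)) = T (0, 0)
  E11 : W.E () (T (1, 1)) = T (0, 1) + (qq K)⁻¹ • T (1, 0)
  F00 : W.F () (T (0, 0)) = T (0, 1) + (qq K)⁻¹ • T (1, 0)
  F01 : W.F () (T (0, 1)) = qq K • T (1, 1)
  F10 : W.F () (T (1, 0)) = T (1, 1)
  F11 : W.F () (T (1, 1)) = 0
  K00 : W.Kp () (T (0, 0)) = (qq K * qq K) • T (0, 0)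
  K01 : W.Kp () (T (0, 1)) = T (0, 1)
  K10 : W.Kp () (T (1, 0)) = T (1, 0)
  K11 : W.Kp () (T (1, 1)) = ((qq K)⁻¹ * (qq K)⁻¹) • T (1, 1)
  M00 : W.Km () (T (0, 0)) = ((qq K)⁻¹ * (qq K)⁻¹) • T (0, 0)
  M01 : W.Km () (T (0, 1)) = T (0, 1)
  M10 : W.Km () (T (1, 0)) = T (1, 0)
  M11 : W.Km () (T (1, 1)) = (qq K * qq K) • T (1, 1)

/-- the values of the bar involution -/
def psv (T : Fin 2 × Fin 2 → L) (p : Fin 2 × Fin 2) : L :=
  T p - if p = (0, 1) then (qq K - (qq K)⁻¹) • T (1, 0) else 0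

/-- the values of the dual canonical basis -/
def dvv (T : Fin 2 × Fin 2 → L) (p : Fin 2 × Fin 2) : L :=
  T p - if p = (0, 1) then qq K • T (1, 0) else 0

section T

variable (T : Module.Basis (Fin 2 × Fin 2) K L)

/-- the nilpotent part -/
noncomputable def nil : L →ₗ[K] L := (T.coord (0, 1)).smulRight (qq K • T (1, 0))

theorem nil_apply (z : L) : nil T z = T.coord (0, 1) z • qq K • T (1, 0) := rfl

theorem nil_T (p : Fin 2 × Fin 2) :
    nil T (T p) = if p = (0, 1) then qq K • T (1, 0) else 0 := by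
  rw [nil_apply, Module.Basis.coord_apply, Module.Basis.repr_self, Finsupp.single_apply]
  split_ifs
  · rw [one_smul]
  · rw [zero_smul]

theorem nil_nil (z : L) : nil T (nil T z) = 0 := by
  rw [nil_apply T z, map_smul, map_smul, nil_T, if_neg (by decide), smul_zero, smul_zero]

/-- the change of basis -/
noncomputable def shr : L ≃ₗ[K] L :=
  LinearEquiv.ofLinearMap (LinearMap.id - nil T) (LinearMap.id + nil T)
    (by
      refine LinearMap.ext fun z => ?_
      simp only [LinearMap.comp_apply, LinearMap.sub_apply, LinearMap.add_apply,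
        LinearMap.id_apply, map_add, nil_nil]
      abel)
    (by
      refine LinearMap.ext fun z => ?_
      simp only [LinearMap.comp_apply, LinearMap.sub_apply, LinearMap.add_apply,
        LinearMap.id_apply, map_sub, nil_nil]
      abel)

/-- the dual canonical basis -/
noncomputable def DB : Module.Basis (Fin 2 × Fin 2) K L := T.map (shr T)

theorem DB_apply (p : Fin 2 × Fin 2) : DB T p = dvv (K := K) T p := by
  unfold DB dvv
  rw [Module.Basis.map_apply, ← nil_T]
  rfl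

theorem DB01 : DB T (0, 1) = T (0, 1) - qq K • T (1, 0) := by
  rw [DB_apply]
  rfl

theorem DB_ne {p : Fin 2 × Fin 2} (hp : p ≠ (0, 1)) : DB T p = T p := by
  rw [DB_apply, dvv, if_neg hp, sub_zero]

/-- the bar involution -/
noncomputable def Psi : L →ₛₗ[Cq.bar (K := K)] L := semi T (psv (K := K) T)

theorem Psi01 : Psi T (T (0, 1)) = T (0, 1) - (qq K - (qq K)⁻¹) • T (1, 0) := by
  unfold Psi
  rw [semi_basis]
  rfl

theorem Psi_ne {p : Fin 2 × Fin 2} (hp : p ≠ (0, 1)) : Psi T (T p) = T p := by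
  unfold Psi
  rw [semi_basis, psv, if_neg hp, sub_zero]

variable {T} {W : Mod C2 K L} (h : Tab W T)

include h

theorem Psi_E (z : L) : Psi T (W.E () z) = W.E () (Psi T z) := by
  have key : (Psi T).comp (W.E ()) = (W.E ()).comp (Psi T) := by
    refine T.ext fun p => ?_
    rw [LinearMap.comp_apply, LinearMap.comp_apply]
    obtain ⟨i, j⟩ := p
    have c00 : Psi T (T (0, 0)) = T (0, 0) := Psi_ne T (by decide)
    have c10 : Psi T (T (1, 0)) = T (1, 0) := Psi_ne T (by decide)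
    have c11 : Psi T (T (1, 1)) = T (1, 1) := Psi_ne T (by decide)
    fin_cases i <;> fin_cases j
    · change Psi T (W.E () (T (0, 0))) = W.E () (Psi T (T (0, 0)))
      rw [c00, h.E00, map_zero]
    · change Psi T (W.E () (T (0, 1))) = W.E () (Psi T (T (0, 1)))
      rw [h.E01, map_smulₛₗ, c00, Psi01, map_sub, map_smul, h.E01, h.E10, Cq.bar_q, ← sub_smul]
      congr 1
      ring
    · change Psi T (W.E () (T (1, 0))) = W.E () (Psi T (T (1, 0)))
      rw [h.E10, c00, c10, h.E10]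
    · change Psi T (W.E () (T (1, 1))) = W.E () (Psi T (T (1, 1)))
      rw [c11, h.E11, map_add, map_smulₛₗ, c10, Psi01, bar_qinv, sub_add, ← sub_smul,
        sub_sub_cancel_left, neg_smul, sub_neg_eq_add]
  exact DFunLike.congr_fun key z

theorem Psi_F (z : L) : Psi T (W.F () z) = W.F () (Psi T z) := by
  have key : (Psi T).comp (W.F ()) = (W.F ()).comp (Psi T) := by
    refine T.ext fun p => ?_
    rw [LinearMap.comp_apply, LinearMap.comp_apply]
    obtain ⟨i, j⟩ := p
    have c00 : Psi T (T (0, 0)) = T (0, 0) := Psi_ne T (by decide)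
    have c10 : Psi T (T (1, 0)) = T (1, 0) := Psi_ne T (by decide)
    have c11 : Psi T (T (1, 1)) = T (1, 1) := Psi_ne T (by decide)
    fin_cases i <;> fin_cases j
    · change Psi T (W.F () (T (0, 0))) = W.F () (Psi T (T (0, 0)))
      rw [c00, h.F00, map_add, map_smulₛₗ, c10, Psi01, bar_qinv, sub_add, ← sub_smul,
        sub_sub_cancel_left, neg_smul, sub_neg_eq_add]
    · change Psi T (W.F () (T (0, 1))) = W.F () (Psi T (T (0, 1)))
      rw [h.F01, map_smulₛₗ, c11, Psi01, map_sub, map_smul, h.F01, h.F10, Cq.bar_q, ← sub_smul]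
      congr 1
      ring
    · change Psi T (W.F () (T (1, 0))) = W.F () (Psi T (T (1, 0)))
      rw [c10, h.F10, c11]
    · change Psi T (W.F () (T (1, 1))) = W.F () (Psi T (T (1, 1)))
      rw [c11, h.F11, map_zero]
  exact DFunLike.congr_fun key z

theorem Psi_K (z : L) : Psi T (W.Kp () z) = W.Km () (Psi T z) := by
  have key : (Psi T).comp (W.Kp ()) = (W.Km ()).comp (Psi T) := by
    refine T.ext fun p => ?_
    rw [LinearMap.comp_apply, LinearMap.comp_apply]
    obtain ⟨i, j⟩ := p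
    have c00 : Psi T (T (0, 0)) = T (0, 0) := Psi_ne T (by decide)
    have c10 : Psi T (T (1, 0)) = T (1, 0) := Psi_ne T (by decide)
    have c11 : Psi T (T (1, 1)) = T (1, 1) := Psi_ne T (by decide)
    fin_cases i <;> fin_cases j
    · change Psi T (W.Kp () (T (0, 0))) = W.Km () (Psi T (T (0, 0)))
      rw [c00, h.K00, h.M00, map_smulₛₗ, c00, map_mul, Cq.bar_q]
    · change Psi T (W.Kp () (T (0, 1))) = W.Km () (Psi T (T (0, 1)))
      rw [h.K01, Psi01, map_sub, map_smul, h.M01, h.M10]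
    · change Psi T (W.Kp () (T (1, 0))) = W.Km () (Psi T (T (1, 0)))
      rw [c10, h.K10, h.M10, c10]
    · change Psi T (W.Kp () (T (1, 1))) = W.Km () (Psi T (T (1, 1)))
      rw [c11, h.K11, h.M11, map_smulₛₗ, c11, map_mul, bar_qinv]
  exact DFunLike.congr_fun key z

/-- the invariants -/
theorem inv_eq : Submodule.span K {DB T (0, 1)} = W.Inv := by
  have h0 := q_ne0 K
  apply le_antisymm
  · rw [Submodule.span_singleton_le_iff_mem, DB01]
    rintro ⟨⟩
    refine ⟨?_, ?_, ?_⟩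
    · rw [map_sub, map_smul, h.E01, h.E10, sub_self]
    · rw [map_sub, map_smul, h.F01, h.F10, sub_self]
    · rw [map_sub, map_smul, h.K01, h.K10]
  · intro z hz
    obtain ⟨hE, -, hK⟩ := hz ()
    set a := T.repr z with ha
    have hz : z = a (0, 0) • T (0, 0) + a (0, 1) • T (0, 1) + (a (1, 0) • T (1, 0) +
        a (1, 1) • T (1, 1)) := by
      have h1 := T.sum_repr z
      rw [Fintype.sum_prod_type, Fin.sum_univ_two, Fin.sum_univ_two, Fin.sum_univ_two] at h1
      exact h1.symm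
    have hK' := congrArg (fun w => T.repr w) hK
    rw [hz] at hK'
    simp only [map_add, map_smul, h.K00, h.K01, h.K10, h.K11, Module.Basis.repr_self] at hK'
    have k00 := DFunLike.congr_fun hK' (0, 0)
    have k11 := DFunLike.congr_fun hK' (1, 1)
    have hE' := congrArg (fun w => T.repr w) hE
    rw [hz] at hE'
    simp only [map_add, map_smul, h.E00, h.E01, h.E10, h.E11, Module.Basis.repr_self, map_zero]
      at hE'
    have e00 := DFunLike.congr_fun hE' (0, 0)
    simp at k00 k11 e00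
    have hq2 : qq K * qq K ≠ 1 := by
      rw [← pow_two]
      exact HasQ.q_pow 2 (by norm_num)
    have a00 : a (0, 0) = 0 := by
      by_contra hne
      exact hq2 (mul_left_cancel₀ hne (by rw [k00, mul_one]))
    have a11 : a (1, 1) = 0 := by
      by_contra hne
      have h1 : (qq K)⁻¹ * (qq K)⁻¹ = 1 := mul_left_cancel₀ hne (by rw [k11, mul_one])
      rw [← mul_inv, inv_eq_one] at h1
      exact hq2 h1
    have a10 : a (1, 0) = -(a (0, 1) * qq K) := by linear_combination e00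
    rw [Submodule.mem_span_singleton]
    refine ⟨a (0, 1), ?_⟩
    rw [hz, a00, a11, a10, DB01]
    module

omit h in
theorem Psi_DB (p : Fin 2 × Fin 2) : Psi T (DB T p) = DB T p := by
  by_cases hp : p = (0, 1)
  · subst hp
    rw [DB01, map_sub, map_smulₛₗ, Psi_ne T (p := (1, 0)) (by decide), Psi01, Cq.bar_q]
    module
  · rw [DB_ne T hp, Psi_ne T hp]

omit h in
theorem tri_p (p : Fin 2 × Fin 2) : ∃ c : Fin 2 × Fin 2 → Polynomial ℤ, DB T p = T p +
    ∑ k, (qq K * (c k).eval₂ (Int.castRingHom K) (qq K)) • T k := by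
  by_cases hp : p = (0, 1)
  · subst hp
    refine ⟨fun k => if k = (1, 0) then -1 else 0, ?_⟩
    rw [DB01, Finset.sum_eq_single (1, 0)]
    · beta_reduce
      rw [if_pos rfl, Polynomial.eval₂_neg, Polynomial.eval₂_one]
      module
    · intro k _ hk
      beta_reduce
      rw [if_neg hk, Polynomial.eval₂_zero, mul_zero, zero_smul]
    · intro hk
      exact absurd (Finset.mem_univ _) hk
  · refine ⟨fun _ => 0, ?_⟩
    rw [DB_ne T hp]
    simp

omit h in
theorem lat_p (p : Fin 2 × Fin 2) : ∃ c : Fin 2 × Fin 2 → AA K, T p =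
    ∑ k, (c k : K) • DB T k := by
  by_cases hp : p = (0, 1)
  · subst hp
    refine ⟨fun k => if k = (0, 1) then 1 else if k = (1, 0) then ⟨qq K, q_memA⟩ else 0, ?_⟩
    rw [Fintype.sum_prod_type, Fin.sum_univ_two, Fin.sum_univ_two, Fin.sum_univ_two]
    have h1 : ((0, 0) : Fin 2 × Fin 2) ≠ (0, 1) := by decide
    have h2 : ((0, 0) : Fin 2 × Fin 2) ≠ (1, 0) := by decide
    have h3 : ((1, 0) : Fin 2 × Fin 2) ≠ (0, 1) := by decide
    have h4 : ((1, 1) : Fin 2 × Fin 2) ≠ (0, 1) := by decide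
    have h5 : ((1, 1) : Fin 2 × Fin 2) ≠ (1, 0) := by decide
    beta_reduce
    rw [if_neg h1, if_neg h2, if_pos rfl, if_neg h3, if_pos rfl, if_neg h4, if_neg h5, DB01,
      DB_ne T h3]
    simp
  · refine ⟨fun k => if k = p then 1 else 0, ?_⟩
    rw [Finset.sum_eq_single p]
    · beta_reduce
      rw [if_pos rfl, DB_ne T hp]
      simp
    · intro k _ hk
      beta_reduce
      rw [if_neg hk]
      simp
    · intro hk
      exact absurd (Finset.mem_univ _) hk

/-- a pair on which the bar involution is determined -/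
def GenP (K : Type) [Field K] [HasQ K] [Cq K] {L : Type} [AddCommGroup L] [Module K L]
    (T : Fin 2 × Fin 2 → L) (z z' : L) : Prop :=
  ∃ (p p' : Fin 2 × Fin 2) (a b : K), p ≠ (0, 1) ∧ p' ≠ (0, 1) ∧ z = a • T p + b • T p' ∧
    z' = Cq.bar a • T p + Cq.bar b • T p'

omit h in
theorem GenP_psi {z z' : L} (hz : GenP K T z z') : Psi T z = z' := by
  obtain ⟨p, p', a, b, hp, hp', rfl, rfl⟩ := hz
  rw [map_add, map_smulₛₗ, map_smulₛₗ, Psi_ne T hp, Psi_ne T hp']

/-- the dual canonical basis, as a structure -/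
noncomputable def mkBar {J : Type} [Fintype J] (σ : J ≃ Fin 2 × Fin 2) (gen : L → L → Prop)
    (e : J → L) (he : ∀ j, e j = T (σ j)) (hgen : ∀ z z', gen z z' → GenP K T z z') :
    BarBasis W gen e where
  Psi := Psi T
  Psi_E _ z := Psi_E h z
  Psi_F _ z := Psi_F h z
  Psi_K _ z := Psi_K h z
  Psi_gen z z' hz := GenP_psi (hgen z z' hz)
  D := (DB T).reindex σ.symm
  D_Psi j := by
    rw [Module.Basis.reindex_apply]
    exact Psi_DB _
  D_tri j := by
    obtain ⟨c, hc⟩ := tri_p (T := T) (σ j)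
    refine ⟨fun k => c (σ k), ?_⟩
    rw [Module.Basis.reindex_apply, Equiv.symm_symm, hc, he]
    congr 1
    simp only [he]
    exact (Equiv.sum_comp σ fun p => (qq K * (c p).eval₂ (Int.castRingHom K) (qq K)) • T p).symm
  D_lat j := by
    obtain ⟨c, hc⟩ := lat_p (T := T) (σ j)
    refine ⟨fun k => c (σ k), ?_⟩
    rw [he, hc]
    simp only [Module.Basis.reindex_apply, Equiv.symm_symm]
    exact (Equiv.sum_comp σ fun p => (c p : K) • DB T p).symm

theorem mkBar_D {J : Type} [Fintype J] (σ : J ≃ Fin 2 × Fin 2) (gen : L → L → Prop)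
    (e : J → L) (he : ∀ j, e j = T (σ j)) (hgen : ∀ z z', gen z z' → GenP K T z z') (j : J)
    (hj : σ j = (0, 1)) :
    (mkBar h σ gen e he hgen).D j = T (0, 1) - qq K • T (1, 0) := by
  change (DB T).reindex σ.symm j = _
  rw [Module.Basis.reindex_apply, Equiv.symm_symm, hj, DB01]

theorem mkBar_inv {J : Type} [Fintype J] (σ : J ≃ Fin 2 × Fin 2) (gen : L → L → Prop)
    (e : J → L) (he : ∀ j, e j = T (σ j)) (hgen : ∀ z z', gen z z' → GenP K T z z')
    (f : Fin 1 → J) (hf : σ (f 0) = (0, 1)) :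
    IsInvBasis W (mkBar h σ gen e he hgen).D f := by
  refine ⟨Function.injective_of_subsingleton f, ?_⟩
  rw [← inv_eq h]
  congr 1
  ext z
  constructor
  · rintro ⟨i, rfl⟩
    have hi : i = 0 := Subsingleton.elim _ _
    subst hi
    rw [Set.mem_singleton_iff, Function.comp_apply, mkBar_D h σ gen e he hgen _ hf, DB01]
  · intro hz
    rw [Set.mem_singleton_iff] at hz
    refine ⟨0, ?_⟩
    rw [hz, Function.comp_apply, mkBar_D h σ gen e he hgen _ hf, DB01]

end T

end gen

section fin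

variable (K : Type) [Field K] [HasQ K] [Cq K]

theorem opE_0 : opE K (Pi.basisFun K (Fin 2) 0) = 0 := by
  apply v2_ext <;> simp [opE_apply]

theorem opE_1 : opE K (Pi.basisFun K (Fin 2) 1) = Pi.basisFun K (Fin 2) 0 := by
  apply v2_ext <;> simp [opE_apply]

theorem opF_0 : opF K (Pi.basisFun K (Fin 2) 0) = Pi.basisFun K (Fin 2) 1 := by
  apply v2_ext <;> simp [opF_apply]

theorem opF_1 : opF K (Pi.basisFun K (Fin 2) 1) = 0 := by
  apply v2_ext <;> simp [opF_apply]

theorem opK_0 (a : K) : opK K a (Pi.basisFun K (Fin 2) 0) = a • Pi.basisFun K (Fin 2) 0 := by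
  apply v2_ext <;> simp [opK_apply]

theorem opK_1 (a : K) : opK K a (Pi.basisFun K (Fin 2) 1) = a⁻¹ • Pi.basisFun K (Fin 2) 1 := by
  apply v2_ext <;> simp [opK_apply]

/-! The product `(V₁ ⊗ V₁) ⊗ V₀`. -/

noncomputable def T1 : Module.Basis (Fin 2 × Fin 2) K (((Fin 2 → K) ⊗[K] (Fin 2 → K)) ⊗[K] K) :=
  (((Pi.basisFun K (Fin 2)).tensorProduct (Pi.basisFun K (Fin 2))).tensorProduct
    (Module.Basis.singleton (Fin 1) K)).reindex (Equiv.prodUnique (Fin 2 × Fin 2) (Fin 1))

theorem T1_apply (i j : Fin 2) : T1 K (i, j) =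
    (Pi.basisFun K (Fin 2) i ⊗ₜ Pi.basisFun K (Fin 2) j) ⊗ₜ (1 : K) := by
  unfold T1
  rw [Module.Basis.reindex_apply]
  change (((Pi.basisFun K (Fin 2)).tensorProduct (Pi.basisFun K (Fin 2))).tensorProduct
    (Module.Basis.singleton (Fin 1) K)) ((i, j), default) = _
  rw [Module.Basis.tensorProduct_apply, Module.Basis.tensorProduct_apply,
    Module.Basis.singleton_apply]

theorem W1_E (x y : Fin 2 → K) (z : K) : ((A1 K).V3 (A1 K) (A0 K)).E () ((x ⊗ₜ y) ⊗ₜ z) =
    (opE K x ⊗ₜ y) ⊗ₜ z + (opK K (qq K) x ⊗ₜ opE K y) ⊗ₜ z := by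
  change (opE K x ⊗ₜ y + opK K (qq K) x ⊗ₜ opE K y) ⊗ₜ z +
    (opK K (qq K) x ⊗ₜ opK K (qq K) y) ⊗ₜ (0 : K) = _
  rw [TensorProduct.tmul_zero, add_zero, TensorProduct.add_tmul]

theorem W1_F (x y : Fin 2 → K) (z : K) : ((A1 K).V3 (A1 K) (A0 K)).F () ((x ⊗ₜ y) ⊗ₜ z) =
    (opF K x ⊗ₜ opK K (qq K)⁻¹ y) ⊗ₜ z + (x ⊗ₜ opF K y) ⊗ₜ z := by
  change (opF K x ⊗ₜ opK K (qq K)⁻¹ y + x ⊗ₜ opF K y) ⊗ₜ z + (x ⊗ₜ y) ⊗ₜ (0 : K) = _
  rw [TensorProduct.tmul_zero, add_zero, TensorProduct.add_tmul]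

theorem W1_K (x y : Fin 2 → K) (z : K) : ((A1 K).V3 (A1 K) (A0 K)).Kp () ((x ⊗ₜ y) ⊗ₜ z) =
    (opK K (qq K) x ⊗ₜ opK K (qq K) y) ⊗ₜ z := rfl

theorem W1_M (x y : Fin 2 → K) (z : K) : ((A1 K).V3 (A1 K) (A0 K)).Km () ((x ⊗ₜ y) ⊗ₜ z) =
    (opK K (qq K)⁻¹ x ⊗ₜ opK K (qq K)⁻¹ y) ⊗ₜ z := rfl

theorem tab1 : Tab ((A1 K).V3 (A1 K) (A0 K)) (T1 K) := by
  have h0 := q_ne0 K
  constructor <;>
    simp only [T1_apply, W1_E, W1_F, W1_K, W1_M, opE_0, opE_1, opF_0, opF_1, opK_0, opK_1,
      TensorProduct.zero_tmul, TensorProduct.tmul_zero, add_zero, zero_add,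
      TensorProduct.tmul_smul, ← TensorProduct.smul_tmul', smul_smul, inv_inv,
      mul_inv_cancel₀ h0, inv_mul_cancel₀ h0, one_smul, smul_zero]
  rw [add_comm]

/-! The product `(V₀ ⊗ V₁) ⊗ V₁`. -/

noncomputable def T2 : Module.Basis (Fin 2 × Fin 2) K ((K ⊗[K] (Fin 2 → K)) ⊗[K] (Fin 2 → K)) :=
  (((Module.Basis.singleton (Fin 1) K).tensorProduct (Pi.basisFun K (Fin 2))).tensorProduct
    (Pi.basisFun K (Fin 2))).reindex
      (Equiv.prodCongr (Equiv.uniqueProd (Fin 2) (Fin 1)) (Equiv.refl (Fin 2)))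

theorem T2_apply (i j : Fin 2) : T2 K (i, j) =
    ((1 : K) ⊗ₜ Pi.basisFun K (Fin 2) i) ⊗ₜ Pi.basisFun K (Fin 2) j := by
  unfold T2
  rw [Module.Basis.reindex_apply]
  change (((Module.Basis.singleton (Fin 1) K).tensorProduct (Pi.basisFun K (Fin 2))).tensorProduct
    (Pi.basisFun K (Fin 2))) ((default, i), j) = _
  rw [Module.Basis.tensorProduct_apply, Module.Basis.tensorProduct_apply,
    Module.Basis.singleton_apply]

theorem W2_E (x y : Fin 2 → K) (z : K) : ((A0 K).V3 (A1 K) (A1 K)).E () ((z ⊗ₜ x) ⊗ₜ y) =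
    (z ⊗ₜ opE K x) ⊗ₜ y + (z ⊗ₜ opK K (qq K) x) ⊗ₜ opE K y := by
  change ((0 : K) ⊗ₜ x + z ⊗ₜ opE K x) ⊗ₜ y + (z ⊗ₜ opK K (qq K) x) ⊗ₜ opE K y = _
  rw [TensorProduct.zero_tmul, zero_add]

theorem W2_F (x y : Fin 2 → K) (z : K) : ((A0 K).V3 (A1 K) (A1 K)).F () ((z ⊗ₜ x) ⊗ₜ y) =
    (z ⊗ₜ opF K x) ⊗ₜ opK K (qq K)⁻¹ y + (z ⊗ₜ x) ⊗ₜ opF K y := by
  change ((0 : K) ⊗ₜ opK K (qq K)⁻¹ x + z ⊗ₜ opF K x) ⊗ₜ opK K (qq K)⁻¹ y +
    (z ⊗ₜ x) ⊗ₜ opF K y = _
  rw [TensorProduct.zero_tmul, zero_add]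

theorem W2_K (x y : Fin 2 → K) (z : K) : ((A0 K).V3 (A1 K) (A1 K)).Kp () ((z ⊗ₜ x) ⊗ₜ y) =
    (z ⊗ₜ opK K (qq K) x) ⊗ₜ opK K (qq K) y := rfl

theorem W2_M (x y : Fin 2 → K) (z : K) : ((A0 K).V3 (A1 K) (A1 K)).Km () ((z ⊗ₜ x) ⊗ₜ y) =
    (z ⊗ₜ opK K (qq K)⁻¹ x) ⊗ₜ opK K (qq K)⁻¹ y := rfl

theorem tab2 : Tab ((A0 K).V3 (A1 K) (A1 K)) (T2 K) := by
  have h0 := q_ne0 K
  constructor <;>
    simp only [T2_apply, W2_E, W2_F, W2_K, W2_M, opE_0, opE_1, opF_0, opF_1, opK_0, opK_1,
      TensorProduct.zero_tmul, TensorProduct.tmul_zero, add_zero, zero_add,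
      TensorProduct.tmul_smul, ← TensorProduct.smul_tmul', smul_smul, inv_inv,
      mul_inv_cancel₀ h0, inv_mul_cancel₀ h0, one_smul, smul_zero]
  rw [add_comm]

theorem gen1 (z z' : ((Fin 2 → K) ⊗[K] (Fin 2 → K)) ⊗[K] K)
    (h : (A1 K).gen3 (A1 K) (A0 K) z z') : GenP K (T1 K) z z' := by
  obtain ⟨l, x, hl, rfl, rfl⟩ := h
  have hl0 : l 0 = 0 := congrFun (hl ()) 1
  have e1 : l = l 1 • Pi.basisFun K (Fin 2) 1 := by
    apply v2_ext
    · simp [hl0]
    · simp
  have e2 : x = x 0 • Pi.basisFun K (Fin 2) 0 + x 1 • Pi.basisFun K (Fin 2) 1 := by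
    apply v2_ext <;> simp
  have e3 : (l ⊗ₜ[K] x) ⊗ₜ[K] (1 : K) = (l 1 * x 0) • T1 K (1, 0) + (l 1 * x 1) • T1 K (1, 1) := by
    conv_lhs => rw [e1, e2]
    simp only [T1_apply, TensorProduct.tmul_add, TensorProduct.add_tmul,
      TensorProduct.tmul_smul, ← TensorProduct.smul_tmul', smul_smul]
    rw [mul_comm (x 0), mul_comm (x 1)]
  have e1' : bar1 K l = Cq.bar (l 1) • Pi.basisFun K (Fin 2) 1 := by
    apply v2_ext
    · simp [bar1, hl0]
    · simp [bar1]
  have e2' : bar1 K x = Cq.bar (x 0) • Pi.basisFun K (Fin 2) 0 +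
      Cq.bar (x 1) • Pi.basisFun K (Fin 2) 1 := by
    apply v2_ext <;> simp [bar1]
  have e3' : (bar1 K l ⊗ₜ[K] bar1 K x) ⊗ₜ[K] (1 : K) = (Cq.bar (l 1 * x 0)) • T1 K (1, 0) +
      (Cq.bar (l 1 * x 1)) • T1 K (1, 1) := by
    rw [e1', e2']
    simp only [T1_apply, TensorProduct.tmul_add, TensorProduct.add_tmul,
      TensorProduct.tmul_smul, ← TensorProduct.smul_tmul', smul_smul, map_mul]
    rw [mul_comm (Cq.bar (x 0)), mul_comm (Cq.bar (x 1))]
  exact ⟨(1, 0), (1, 1), l 1 * x 0, l 1 * x 1, by decide, by decide, e3, e3'⟩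

theorem gen2 (z z' : (K ⊗[K] (Fin 2 → K)) ⊗[K] (Fin 2 → K))
    (h : (A0 K).gen3 (A1 K) (A1 K) z z') : GenP K (T2 K) z z' := by
  obtain ⟨l, x, -, rfl, rfl⟩ := h
  have e1 : l = l • (1 : K) := by simp
  have e0 : (![1, 0] : Fin 2 → K) = Pi.basisFun K (Fin 2) 0 := by
    apply v2_ext <;> simp
  have e2 : x = x 0 • Pi.basisFun K (Fin 2) 0 + x 1 • Pi.basisFun K (Fin 2) 1 := by
    apply v2_ext <;> simp
  have e3 : (l ⊗ₜ[K] x) ⊗ₜ[K] (![1, 0] : Fin 2 → K) =
      (l * x 0) • T2 K (0, 0) + (l * x 1) • T2 K (1, 0) := by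
    conv_lhs => rw [e1, e2, e0]
    simp only [T2_apply, TensorProduct.tmul_add, TensorProduct.add_tmul,
      TensorProduct.tmul_smul, ← TensorProduct.smul_tmul', smul_smul]
    rw [mul_comm (x 0), mul_comm (x 1)]
  have e1' : Cq.bar l = Cq.bar l • (1 : K) := by simp
  have e2' : bar1 K x = Cq.bar (x 0) • Pi.basisFun K (Fin 2) 0 +
      Cq.bar (x 1) • Pi.basisFun K (Fin 2) 1 := by
    apply v2_ext <;> simp [bar1]
  have e3' : (Cq.bar l ⊗ₜ[K] bar1 K x) ⊗ₜ[K] (![1, 0] : Fin 2 → K) =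
      (Cq.bar (l * x 0)) • T2 K (0, 0) + (Cq.bar (l * x 1)) • T2 K (1, 0) := by
    rw [e1', e2', e0]
    simp only [T2_apply, TensorProduct.tmul_add, TensorProduct.add_tmul,
      TensorProduct.tmul_smul, ← TensorProduct.smul_tmul', smul_smul, map_mul]
    rw [mul_comm (Cq.bar (x 0)), mul_comm (Cq.bar (x 1))]
  exact ⟨(0, 0), (1, 0), l * x 0, l * x 1, by decide, by decide, e3, e3'⟩

/-- the indices -/
def s1 : Fin 2 × Fin 2 × Fin 1 ≃ Fin 2 × Fin 2 where
  toFun j := (j.1, j.2.1)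
  invFun p := (p.1, p.2, 0)
  left_inv j := by
    obtain ⟨a, b, c⟩ := j
    rw [Subsingleton.elim c 0]
  right_inv _ := rfl

def s2 : Fin 1 × Fin 2 × Fin 2 ≃ Fin 2 × Fin 2 where
  toFun j := (j.2.1, j.2.2)
  invFun p := (0, p.1, p.2)
  left_inv j := by
    obtain ⟨a, b, c⟩ := j
    rw [Subsingleton.elim a 0]
  right_inv _ := rfl

theorem bd1 (j : Fin 2 × Fin 2 × Fin 1) : (A1 K).bd3 (A1 K) (A0 K) j = T1 K (s1 j) := by
  obtain ⟨a, b, c⟩ := j
  change _ = T1 K (a, b)
  rw [T1_apply]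
  change (Pi.basisFun K (Fin 2) a ⊗ₜ Pi.basisFun K (Fin 2) b) ⊗ₜ
    (Module.Basis.singleton (Fin 1) K c) = _
  rw [Module.Basis.singleton_apply]

theorem bd2 (j : Fin 1 × Fin 2 × Fin 2) : (A0 K).bd3 (A1 K) (A1 K) j = T2 K (s2 j) := by
  obtain ⟨a, b, c⟩ := j
  change _ = T2 K (b, c)
  rw [T2_apply]
  change ((Module.Basis.singleton (Fin 1) K a) ⊗ₜ Pi.basisFun K (Fin 2) b) ⊗ₜ
    Pi.basisFun K (Fin 2) c = _
  rw [Module.Basis.singleton_apply]

/-- For `sl₂` and `λ = (1, 1, 0)` all the data exist and the determinant is `-[2]`. -/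
theorem ex : ∃ (M₁ M₀ : Type) (_ : AddCommGroup M₁) (_ : Module K M₁) (_ : AddCommGroup M₀)
    (_ : Module K M₀) (A₁ : CanMod C2 K (fun _ => 1) M₁ (Fin 2))
    (A₀ : CanMod C2 K (fun _ => 0) M₀ (Fin 1))
    (P₁ : Duality A₁ A₁) (P₀ : Duality A₀ A₀) (B : DualCan A₁ A₁ A₀) (B' : DualCan A₀ A₁ A₁)
    (f : Fin 1 → Fin 2 × Fin 2 × Fin 1) (g : Fin 1 → Fin 1 × Fin 2 × Fin 2),
    Enumerates B f ∧ Enumerates B' g ∧
      (trihedron P₁ P₁ P₀ B B' g f).det = -(qq K + (qq K)⁻¹) := by
  refine ⟨Fin 2 → K, K, inferInstance, inferInstance, inferInstance, inferInstance, A1 K, A0 K,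
    P1 K, P0 K, mkBar (tab1 K) s1 _ _ (bd1 K) (gen1 K), mkBar (tab2 K) s2 _ _ (bd2 K) (gen2 K),
    fun _ => (0, 1, 0), fun _ => (0, 0, 1), ?_, ?_, ?_⟩
  · exact mkBar_inv (tab1 K) s1 _ _ (bd1 K) (gen1 K) _ rfl
  · exact mkBar_inv (tab2 K) s2 _ _ (bd2 K) (gen2 K) _ rfl
  · have h0 := q_ne0 K
    rw [Matrix.det_fin_one]
    change pair3 (ev1 K) (ev1 K) (LinearMap.mul K K)
      ((mkBar (tab2 K) s2 _ _ (bd2 K) (gen2 K)).D (0, 0, 1))
      ((mkBar (tab1 K) s1 _ _ (bd1 K) (gen1 K)).D (0, 1, 0)) = _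
    rw [mkBar_D (tab2 K) s2 _ _ (bd2 K) (gen2 K) _ rfl,
      mkBar_D (tab1 K) s1 _ _ (bd1 K) (gen1 K) _ rfl]
    simp only [T1_apply, T2_apply, map_sub, map_smul, LinearMap.sub_apply, LinearMap.smul_apply,
      pair3_tmul, ev1_apply]
    simp
    field_simp
    ring

end fin

end Pool.Agent.H387.QR.Ex
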